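import Mathlib.MeasureTheory.Constructions.HaarToSphere
import Mathlib.MeasureTheory.Measure.Haar.InnerProductSpace
import Mathlib.Analysis.SpecialFunctions.Trigonometric.Basic
import Pool.Agent.MP_2291e2_gt.zl.Defs

/-! Conformal metrics `exp (2 σ) g₀` on the unit sphere: energy, area, Gaussian curvature. -/

open scoped ENNReal
open MeasureTheory Metric Set
open Pool.Agent.MP_2291e2_gt.Zl

namespace Pool.Agent.MP_2291e2_gt.Ab

/-- The energy `g (w, w) / 2` of the metric `g = exp (2 σ) g₀`. -/
noncomputable def Lc (σ : E → ℝ) (u : E × E) : ℝ := Real.exp (2 * σ u.1) * ‖u.2‖ ^ 2 / 2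

/-- The area of the part of `D` on the unit sphere for the metric `exp (2 σ) g₀`. -/
noncomputable def area (σ : E → ℝ) (D : Set E) : ℝ≥0∞ :=
  ∫⁻ y in ((↑) : sphere (0 : E) 1 → E) ⁻¹' D, ENNReal.ofReal (Real.exp (2 * σ y))
    ∂(volume : Measure E).toSphere

/-- Every connected component of the sphere minus the curve `c` has half of the area. -/
def Bisects (σ : E → ℝ) (c : ℝ → E) : Prop :=
  ∀ x ∈ sphere (0 : E) 1 \ range c,
    2 * area σ (connectedComponentIn (sphere (0 : E) 1 \ range c) x) = area σ (sphere 0 1)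

/-- Second derivative of `σ` at `y` along the great circle with unit tangent `v`. -/
noncomputable def d2 (σ : E → ℝ) (y v : E) : ℝ :=
  iteratedDeriv 2 (fun t : ℝ => σ (Real.cos t • y + Real.sin t • v)) 0

/-- The Gaussian curvature `exp (-2 σ) (1 - Δ σ)` of `exp (2 σ) g₀` at `y`, where `v`, `w` is an
orthonormal basis of the tangent plane. -/
noncomputable def curv (σ : E → ℝ) (y v w : E) : ℝ :=
  Real.exp (-(2 * σ y)) * (1 - (d2 σ y v + d2 σ y w))

end Pool.Agent.MP_2291e2_gt.Ab
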