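import Pool.Agent.MP_2291e2_gt.zl.All2
import Pool.Agent.MP_2291e2_gt.ab.Defs

/-! Statements of the rows: a Zoll metric all of whose geodesics bisect the area is round. -/

open scoped ContDiff RealInnerProductSpace Topology ENNReal
open MeasureTheory Metric Set Filter Real
open Pool.Agent.MP_2291e2_gt.Zl

noncomputable section

namespace Pool.Agent.MP_2291e2_gt.Ab

def D1 (σ : E → ℝ) (y z : E) : ℝ := fderiv ℝ σ y z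

def D2 (σ : E → ℝ) (y z w : E) : ℝ := fderiv ℝ (fderiv ℝ σ) y z w

def bs (i : Fin 3) : E := EuclideanSpace.single i 1

/-- the Laplacian of the round sphere -/
def Lap (σ : E → ℝ) (y : E) : ℝ := ∑ i, D2 σ y (cr (bs i) y) (cr (bs i) y) - 2 * D1 σ y y

/-- the curvature as a function of the point -/
def Kf (σ : E → ℝ) (y : E) : ℝ := exp (-(2 * σ y)) * (1 - Lap σ y)

def nz (Y : E) : E := ‖Y‖⁻¹ • Y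

/-- the geodesic flow of a conformal Zoll metric -/
structure CF (σ : E → ℝ) (φ : ℝ → P → P) (a b : P → ℝ) (T : ℝ) : Prop where
  sm : ContDiff ℝ ∞ σ
  z : ZFlow φ a b T
  ha : ∀ u ∈ U, a u = exp (-σ u.1)
  hb : ∀ u ∈ U, b u = exp (-σ u.1) * D1 σ u.1 (cr u.1 u.2)

def FlowS : Prop := ∀ σ : E → ℝ, ContDiff ℝ ∞ σ → IsZoll (Lc σ) →
  ∃ φ a b T, CF σ φ a b T ∧ ∀ u ∈ U, IsGeodesic (Lc σ) fun t => (φ t u).1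

def LapS : Prop := ∀ σ : E → ℝ, ContDiff ℝ ∞ σ → ContDiff ℝ ∞ (Lap σ) ∧
  (∀ u ∈ U, Lap σ u.1 =
    D2 σ u.1 u.2 u.2 + D2 σ u.1 (cr u.1 u.2) (cr u.1 u.2) - 2 * D1 σ u.1 u.1) ∧
  (∀ y v w : E, Orthonormal ℝ ![y, v, w] → d2 σ y v + d2 σ y w = Lap σ y) ∧
  ∫ Y in ball (0 : E) 1, Lap σ (nz Y) = 0

/-! ### Jacobi fields -/

def fA (σ : E → ℝ) (w η : P) : ℝ := exp (σ w.1) * ⟪η.1, w.2⟫

def fJ (σ : E → ℝ) (w η : P) : ℝ := exp (σ w.1) * ⟪η.1, cr w.1 w.2⟫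

def fP (σ : E → ℝ) (w η : P) : ℝ :=
  ⟪η.2, cr w.1 w.2⟫ + D1 σ w.1 w.2 * ⟪η.1, cr w.1 w.2⟫ - D1 σ w.1 (cr w.1 w.2) * ⟪η.1, w.2⟫

def eta (φ : ℝ → P → P) (u : P) (ζ : E) (t : ℝ) : P := fderiv ℝ (φ t) u (W u ζ)

def JacS : Prop := ∀ σ φ a b T, CF σ φ a b T → ∀ u ∈ U, ∀ (ζ : E) (t : ℝ),
  HasDerivAt (fun t => fA σ (φ t u) (eta φ u ζ t)) 0 t ∧
  HasDerivAt (fun t => fJ σ (φ t u) (eta φ u ζ t)) (fP σ (φ t u) (eta φ u ζ t)) t ∧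
  HasDerivAt (fun t => fP σ (φ t u) (eta φ u ζ t))
    (-(Kf σ (φ t u).1 * fJ σ (φ t u) (eta φ u ζ t))) t

/-- a Hill equation whose solutions are periodic, turn once and have mean zero -/
structure Hill (T : ℝ) (K J1 P1 J2 P2 : ℝ → ℝ) : Prop where
  Tpos : 0 < T
  Kc : ContDiff ℝ 1 K
  KT : K T = K 0
  d1 : ∀ t, HasDerivAt J1 (P1 t) t
  e1 : ∀ t, HasDerivAt P1 (-(K t * J1 t)) t
  d2 : ∀ t, HasDerivAt J2 (P2 t) t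
  e2 : ∀ t, HasDerivAt P2 (-(K t * J2 t)) t
  i0 : J1 0 = 0 ∧ P1 0 = 1 ∧ J2 0 = 1 ∧ P2 0 = 0
  iT : J1 T = 0 ∧ P1 T = 1 ∧ J2 T = 1 ∧ P2 T = 0
  once : ∀ t ∈ Ioo 0 T, J1 t = 0 → P1 t ≤ 0
  m1 : ∫ t in (0 : ℝ)..T, J1 t = 0
  m2 : ∫ t in (0 : ℝ)..T, J2 t = 0

/-- the index form is nonnegative on periodic functions of mean zero -/
def IdxS : Prop := ∀ T K J1 P1 J2 P2, Hill T K J1 P1 J2 P2 → ∀ f f' : ℝ → ℝ,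
  (∀ t, HasDerivAt f (f' t) t) → Continuous f' → f T = f 0 → ∫ t in (0 : ℝ)..T, f t = 0 →
  0 ≤ ∫ t in (0 : ℝ)..T, (f' t ^ 2 - K t * f t ^ 2)

def OneS : Prop := ∀ T K J1 P1 J2 P2, Hill T K J1 P1 J2 P2 →
  (∫ t in (0 : ℝ)..T, K t) ≤ 4 * π ^ 2 / T ∧
  ((∫ t in (0 : ℝ)..T, K t) = 4 * π ^ 2 / T → ∀ t ∈ Icc 0 T, K t = (2 * π / T) ^ 2)

/-! ### the first variation of the area -/

def den (σ : E → ℝ) (C : ℝ × ℝ → E) (a : ℝ × ℝ) : ℝ :=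
  exp (2 * σ (C a)) * |dt (C a) (fderiv ℝ C a (1, 0)) (fderiv ℝ C a (0, 1))|

def AreaS : Prop := ∀ (σ : E → ℝ) (C : ℝ × ℝ → E) (R : Set (ℝ × ℝ)), Continuous σ →
  ContDiff ℝ ∞ C → (∀ a, ‖C a‖ = 1) → MeasurableSet R → InjOn C R →
  area σ (C '' R) = ∫⁻ a in R, ENNReal.ofReal (den σ C a)

/-- the chart is an embedding of the strip of half width `d` modulo the period -/
def Tube (C : ℝ × ℝ → E) (T d : ℝ) : Prop := 0 < d ∧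
  (∀ a : ℝ × ℝ, |a.2| < d → ∀ δ, fderiv ℝ C a δ = 0 → δ = 0) ∧
  ∀ a a' : ℝ × ℝ, |a.2| < d → |a'.2| < d → C a = C a' → ∃ k : ℤ, a' = a + ((k : ℝ) * T, 0)

def SideS : Prop := ∀ (C : ℝ × ℝ → E) (T d : ℝ), FermiAux.Chart C T → Tube C T d →
  ∃ Zp Zm : Set E, IsPreconnected Zp ∧ IsPreconnected Zm ∧
    Zp ∪ Zm = sphere (0 : E) 1 \ C '' (univ ×ˢ Icc (-(d / 2)) (d / 2)) ∧
    C '' (univ ×ˢ Ioo (d / 2) d) ⊆ Zp ∧ C '' (univ ×ˢ Ioo (-d) (-(d / 2))) ⊆ Zm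

/-- a family of closed curves through the central curve of the chart with normal speed `j` -/
structure Fam (C c : ℝ × ℝ → E) (j : ℝ → ℝ) (T : ℝ) : Prop where
  sm : ContDiff ℝ ∞ c
  unit : ∀ a, ‖c a‖ = 1
  zero : ∀ t, c (0, t) = C (t, 0)
  per : ∀ s t, c (s, t + T) = c (s, t)
  jc : Continuous j
  jper : Function.Periodic j T
  var : ∀ t, ∃ α : ℝ, fderiv ℝ c (0, t) (1, 0) =
    α • fderiv ℝ C (t, 0) (1, 0) + j t • fderiv ℝ C (t, 0) (0, 1)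

def NearS : Prop := ∀ (C c : ℝ × ℝ → E) (j : ℝ → ℝ) (T : ℝ), FermiAux.Chart C T → Fam C c j T →
  ∀ ε > 0, ∀ᶠ s in 𝓝 (0 : ℝ), ∀ t, ∃ a : ℝ × ℝ, c (s, t) = C a ∧ |a.2 - s * j a.1| ≤ ε * |s|

def BisS : Prop := ∀ (σ : E → ℝ) (C c : ℝ × ℝ → E) (j : ℝ → ℝ) (T : ℝ), Continuous σ →
  FermiAux.Chart C T → Fam C c j T → (∀ s, Bisects σ fun t => c (s, t)) →
  ∫ x in (0 : ℝ)..T, den σ C (x, 0) * j x = 0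

/-! ### the change of variables -/

def DetS : Prop := ∀ (u : P) (L : P →L[ℝ] P), u ∈ U →
  (∀ j, ⟪(L (0, bs j)).1, u.2⟫ = 0 ∧ ⟪(L (0, bs j)).1, cr u.1 u.2⟫ = 0 ∧
    ⟪(L (0, bs j)).2, cr u.1 u.2⟫ = 0) →
  |L.det| = |Matrix.det (Matrix.of fun (i j : Fin 3) => ![⟪(L (bs j, 0)).1, u.2⟫,
      ⟪(L (bs j, 0)).1, cr u.1 u.2⟫, ⟪(L (bs j, 0)).2, cr u.1 u.2⟫] i)| *
    |Matrix.det (Matrix.of fun (i j : Fin 3) => ![⟪(L (0, bs j)).1, u.1⟫,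
      ⟪(L (0, bs j)).2, u.1⟫, ⟪(L (0, bs j)).2, u.2⟫] i)|

/-- the vector reached at time `z 2` from the point `(z 0, z 1)` of the annulus -/
def Pw (φ : ℝ → P → P) (u₀ : P) (z : E) : P := φ (z 2) (Ax φ u₀ (z 0, z 1))

def Ph (σ : E → ℝ) (φ : ℝ → P → P) (u₀ : P) (z : P) : P :=
  (z.2 0 • (Pw φ u₀ z.1).1, (exp (2 * σ (Pw φ u₀ z.1).1 / 3) * z.2 1) •
    (cos (z.2 2) • (Pw φ u₀ z.1).1 + sin (z.2 2) • (Pw φ u₀ z.1).2))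

def JDetS : Prop := ∀ σ φ a b T, CF σ φ a b T → ∀ u₀ ∈ U, ContDiff ℝ ∞ (Ph σ φ u₀) ∧
  ∀ z : P, |(fderiv ℝ (Ph σ φ u₀) z).det| = z.2 0 ^ 2 * z.2 1 ^ 2 * |sin (z.2 2)| * |sin (z.1 1)|

def Bo (T : ℝ) : Set P := {z | z.1 0 ∈ Ico 0 T ∧ z.1 1 ∈ Ioo 0 π ∧ z.1 2 ∈ Ico 0 T} ∩
  {z | z.2 0 ∈ Ioo 0 1 ∧ z.2 1 ∈ Ioo 0 1 ∧ z.2 2 ∈ Ioo 0 π}

def Bc (T : ℝ) : Set P := {z | z.1 0 ∈ Ico 0 T ∧ z.1 1 ∈ Icc 0 π ∧ z.1 2 ∈ Ico 0 T} ∩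
  {z | z.2 0 ∈ Ioo 0 1 ∧ z.2 1 ∈ Ico 0 1 ∧ z.2 2 ∈ Icc 0 π}

def Om (σ : E → ℝ) : Set P := {q | q.1 ≠ 0 ∧ ‖q.1‖ < 1 ∧ ‖q.2‖ < exp (2 * σ (nz q.1) / 3)}

def BijS : Prop := ∀ σ φ a b T, CF σ φ a b T → ∀ u₀ ∈ U, Cross3 φ T u₀ →
  InjOn (Ph σ φ u₀) (Bo T) ∧ Ph σ φ u₀ '' Bc T = Om σ

def ChgS : Prop := ∀ σ φ a b T, CF σ φ a b T → ∀ u₀ ∈ U, Cross3 φ T u₀ → ∀ F : E → ℝ,
  Continuous F →
  2 / 9 * (∫ x in (0 : ℝ)..T, ∫ β in (0 : ℝ)..π,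
      sin β * ∫ t in (0 : ℝ)..T, F (φ t (Ax φ u₀ (x, β))).1) =
    4 * π / 3 * ∫ Y in ball (0 : E) 1, F (nz Y) * exp (2 * σ (nz Y))

/-- the theorem -/
def MainS : Prop := ∀ σ : E → ℝ, ContDiff ℝ ∞ σ → IsZoll (Lc σ) →
  (∀ c, IsGeodesic (Lc σ) c → Bisects σ c) →
  ∃ k : ℝ, 0 < k ∧ ∀ y v w : E, Orthonormal ℝ ![y, v, w] → curv σ y v w = k

end Pool.Agent.MP_2291e2_gt.Ab

end
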