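import Mathlib.MeasureTheory.Function.Jacobian
import Mathlib.MeasureTheory.Constructions.Pi
import Mathlib.Analysis.SpecialFunctions.Integrals.Basic
import Pool.Agent.MP_2291e2_gt.ab.Spec

/-! The area of the image of a chart of the sphere. -/

open scoped ContDiff RealInnerProductSpace Topology ENNReal
open MeasureTheory Metric Set Filter Real
open Pool.Agent.MP_2291e2_gt.Zl

noncomputable section

namespace Pool.Agent.MP_2291e2_gt.Ab

namespace AreaX

/-- the truncated cone over a set -/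
def cone (D : Set E) : Set E := {Y | Y ≠ 0 ∧ ‖Y‖ < 1 ∧ nz Y ∈ D}

lemma third : ∫⁻ r in Ioo (0 : ℝ) 1, ENNReal.ofReal (r ^ 2) = ENNReal.ofReal (1 / 3) := by
  rw [Measure.restrict_congr_set Ioo_ae_eq_Ioc,
    ← ofReal_integral_eq_lintegral_ofReal (intervalIntegral.intervalIntegrable_pow _).1,
    ← intervalIntegral.integral_of_le zero_le_one]
  · rw [integral_pow]; norm_num
  · exact Eventually.of_forall fun y => sq_nonneg y

lemma polar (G : E → ℝ≥0∞) (hG : Measurable G) (D : Set E) :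
    ∫⁻ Y in cone D, G (nz Y) =
      (∫⁻ y in ((↑) : sphere (0 : E) 1 → E) ⁻¹' D, G y ∂(volume : Measure E).toSphere) *
        ENNReal.ofReal (1 / 3) := by
  have hm := (volume : Measure E).measurePreserving_homeomorphUnitSphereProd
  have h := hm.setLIntegral_comp_preimage_emb (Homeomorph.measurableEmbedding _)
    (fun p => G p.1 * 1)
    ((((↑) : sphere (0 : E) 1 → E) ⁻¹' D) ×ˢ Iio (⟨1, mem_Ioi.2 one_pos⟩ : Ioi (0 : ℝ)))
  rw [← Measure.prod_restrict, lintegral_prod_mul (f := fun y : sphere (0 : E) 1 => G y)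
    (g := fun _ => 1) (hG.comp measurable_subtype_coe).aemeasurable aemeasurable_const] at h
  have h3 : Module.finrank ℝ E - 1 = 2 := by simp
  rw [setLIntegral_one, h3, Measure.volumeIoiPow_apply_Iio] at h
  have e3 : (((⟨1, mem_Ioi.2 one_pos⟩ : Ioi (0 : ℝ)) : ℝ) ^ (2 + 1) / (((2 : ℕ) : ℝ) + 1)) =
      1 / 3 := by norm_num
  rw [e3] at h
  rw [← h]
  have e1 : ∀ a : ({0}ᶜ : Set E), (((homeomorphUnitSphereProd E) a).1 : E) = nz a := fun a => by
    simp [nz]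
  have e2 : ∀ a : ({0}ᶜ : Set E), (((homeomorphUnitSphereProd E) a).2 : ℝ) = ‖(a : E)‖ :=
    fun a => by simp
  simp only [e1, mul_one]
  rw [setLIntegral_subtype (measurableSet_singleton _).compl _ fun Y => G (nz Y)]
  congr 2
  ext Y
  constructor
  · rintro ⟨h0, h1, h2⟩
    refine ⟨⟨Y, h0⟩, ⟨?_, ?_⟩, rfl⟩
    · rw [mem_preimage, e1]; exact h2
    · rw [mem_Iio, ← Subtype.coe_lt_coe, e2]; exact h1
  · rintro ⟨a, ⟨h1, h2⟩, rfl⟩
    rw [mem_preimage, e1] at h1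
    rw [mem_Iio, ← Subtype.coe_lt_coe, e2] at h2
    exact ⟨a.2, h2, h1⟩

/-- coordinates -/
def cw (z : E) : ℝ × ℝ × ℝ := (z 2, z 0, z 1)

lemma cw_pres : MeasurePreserving cw (volume : Measure E) (volume : Measure (ℝ × ℝ × ℝ)) := by
  have h1 := PiLp.volume_preserving_ofLp (Fin 3)
  have h2 := volume_preserving_piFinSuccAbove (fun _ : Fin 3 => ℝ) 2
  have h3 := (MeasurePreserving.id (volume : Measure ℝ)).prod (volume_preserving_finTwoArrow ℝ)
  exact h3.comp (h2.comp h1)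

lemma det3 (L : E →L[ℝ] E) : L.det = dt (L (bs 0)) (L (bs 1)) (L (bs 2)) := by
  have h := LinearMap.det_toMatrix (EuclideanSpace.basisFun (Fin 3) ℝ).toBasis (L : E →ₗ[ℝ] E)
  rw [ContinuousLinearMap.det, ← h, Matrix.det_fin_three, dt3]
  simp only [LinearMap.toMatrix_apply, OrthonormalBasis.coe_toBasis,
    OrthonormalBasis.coe_toBasis_repr_apply, EuclideanSpace.basisFun_repr,
    EuclideanSpace.basisFun_apply, ContinuousLinearMap.coe_coe, bs]
  ring

/-- the first two coordinates -/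
def pr : E →L[ℝ] ℝ × ℝ :=
  (EuclideanSpace.proj (0 : Fin 3)).prod (EuclideanSpace.proj (1 : Fin 3))

lemma pr_apply (z : E) : pr z = (z 0, z 1) := rfl

/-- the cone chart -/
def Xi (C : ℝ × ℝ → E) (z : E) : E := z 2 • C (pr z)

/-- its derivative -/
def dXi (C : ℝ × ℝ → E) (z : E) : E →L[ℝ] E :=
  z 2 • (fderiv ℝ C (pr z)).comp pr +
    (EuclideanSpace.proj (2 : Fin 3) : E →L[ℝ] ℝ).smulRight (C (pr z))

lemma hasXi {C : ℝ × ℝ → E} (hC : Differentiable ℝ C) (z : E) :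
    HasFDerivAt (Xi C) (dXi C z) z := by
  have h1 : HasFDerivAt (fun z : E => z 2) (EuclideanSpace.proj (2 : Fin 3) : E →L[ℝ] ℝ) z :=
    (EuclideanSpace.proj (2 : Fin 3) : E →L[ℝ] ℝ).hasFDerivAt
  have h2 : HasFDerivAt (fun z : E => C (pr z)) ((fderiv ℝ C (pr z)).comp pr) z :=
    (hC (pr z)).hasFDerivAt.comp z pr.hasFDerivAt
  exact h1.fun_smul h2

lemma det_dXi (C : ℝ × ℝ → E) (z : E) : (dXi C z).det =
    z 2 ^ 2 * dt (C (pr z)) (fderiv ℝ C (pr z) (1, 0)) (fderiv ℝ C (pr z) (0, 1)) := by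
  have a0 : dXi C z (bs 0) = z 2 • fderiv ℝ C (pr z) (1, 0) := by
    simp [dXi, pr_apply, bs]
  have a1 : dXi C z (bs 1) = z 2 • fderiv ℝ C (pr z) (0, 1) := by
    simp [dXi, pr_apply, bs]
  have a2 : dXi C z (bs 2) = C (pr z) := by
    have : pr (bs 2) = 0 := by simp [pr_apply, bs]
    simp [dXi, this]
    simp [bs]
  rw [det3, a0, a1, a2, dt3, dt3]
  simp only [PiLp.smul_apply, smul_eq_mul]
  ring

lemma norm_Xi {C : ℝ × ℝ → E} (h1 : ∀ a, ‖C a‖ = 1) {z : E} (hz : 0 < z 2) : ‖Xi C z‖ = z 2 := by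
  rw [Xi, norm_smul, h1, mul_one, Real.norm_eq_abs, abs_of_pos hz]

lemma nz_Xi {C : ℝ × ℝ → E} (h1 : ∀ a, ‖C a‖ = 1) {z : E} (hz : 0 < z 2) :
    nz (Xi C z) = C (pr z) := by
  rw [nz, norm_Xi h1 hz, Xi, smul_smul, inv_mul_cancel₀ hz.ne', one_smul]

lemma image_Xi {C : ℝ × ℝ → E} (h1 : ∀ a, ‖C a‖ = 1) (R : Set (ℝ × ℝ)) :
    Xi C '' (cw ⁻¹' (Ioo 0 1 ×ˢ R)) = cone (C '' R) := by
  ext Y
  constructor
  · rintro ⟨z, ⟨hz, hR⟩, rfl⟩
    have hz0 : 0 < z 2 := hz.1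
    refine ⟨?_, ?_, ?_⟩
    · rw [← norm_pos_iff, norm_Xi h1 hz0]; exact hz0
    · rw [norm_Xi h1 hz0]; exact hz.2
    · rw [nz_Xi h1 hz0]; exact ⟨_, hR, rfl⟩
  · rintro ⟨h0, hY, a, ha, e⟩
    have hp : 0 < ‖Y‖ := norm_pos_iff.2 h0
    refine ⟨!₂[a.1, a.2, ‖Y‖], ⟨⟨hp, hY⟩, ha⟩, ?_⟩
    show ‖Y‖ • C a = Y
    rw [e, nz, smul_smul, mul_inv_cancel₀ hp.ne', one_smul]

lemma inj_Xi {C : ℝ × ℝ → E} (h1 : ∀ a, ‖C a‖ = 1) {R : Set (ℝ × ℝ)} (hi : InjOn C R) :
    InjOn (Xi C) (cw ⁻¹' (Ioo 0 1 ×ˢ R)) := by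
  rintro z ⟨hz, hR⟩ w ⟨hw, hR'⟩ e
  have hz0 : 0 < z 2 := hz.1
  have hw0 : 0 < w 2 := hw.1
  have e2 : z 2 = w 2 := by rw [← norm_Xi h1 hz0, e, norm_Xi h1 hw0]
  have e1 : pr z = pr w := by
    refine hi hR hR' ?_
    show C (pr z) = C (pr w)
    rw [← nz_Xi h1 hz0, e, nz_Xi h1 hw0]
  exact ext3 (congrArg Prod.fst e1) (congrArg Prod.snd e1) e2

lemma den_cont {σ : E → ℝ} {C : ℝ × ℝ → E} (hσ : Continuous σ) (hC : ContDiff ℝ ∞ C) :
    Continuous (den σ C) := by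
  have c0 : Continuous C := hC.continuous
  have c1 : Continuous (fderiv ℝ C) := hC.continuous_fderiv (by simp)
  have c2 : Continuous fun a => fderiv ℝ C a (1, 0) := c1.clm_apply continuous_const
  have c3 : Continuous fun a => fderiv ℝ C a (0, 1) := c1.clm_apply continuous_const
  unfold den
  simp only [dt3]
  fun_prop

end AreaX

open AreaX in
theorem areaS : AreaS := by
  intro σ C R hσ hC h1 hR hi
  have hG : Measurable fun y : E => ENNReal.ofReal (exp (2 * σ y)) :=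
    (by fun_prop : Continuous fun y : E => exp (2 * σ y)).measurable.ennreal_ofReal
  have hs : MeasurableSet (Ioo (0 : ℝ) 1 ×ˢ R) := measurableSet_Ioo.prod hR
  have hs' : MeasurableSet (cw ⁻¹' (Ioo 0 1 ×ˢ R)) := cw_pres.measurable hs
  have hd : Measurable fun a => ENNReal.ofReal (den σ C a) :=
    (den_cont hσ hC).measurable.ennreal_ofReal
  have hq : Measurable fun r : ℝ => ENNReal.ofReal (r ^ 2) :=
    (by fun_prop : Continuous fun r : ℝ => r ^ 2).measurable.ennreal_ofReal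
  have A := polar _ hG (C '' R)
  rw [← image_Xi h1, lintegral_image_eq_lintegral_abs_det_fderiv_mul volume hs'
    (fun z _ => (hasXi (hC.differentiable (by simp)) z).hasFDerivWithinAt) (inj_Xi h1 hi)] at A
  have B := cw_pres.setLIntegral_comp_preimage hs
    (f := fun p => ENNReal.ofReal (p.1 ^ 2) * ENNReal.ofReal (den σ C p.2))
    ((hq.comp measurable_fst).mul (hd.comp measurable_snd))
  rw [Measure.volume_eq_prod, ← Measure.prod_restrict,
    lintegral_prod_mul hq.aemeasurable hd.aemeasurable, third] at B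
  have e : ∫⁻ z in cw ⁻¹' (Ioo 0 1 ×ˢ R), ENNReal.ofReal |(dXi C z).det| *
      ENNReal.ofReal (exp (2 * σ (nz (Xi C z)))) = ∫⁻ z in cw ⁻¹' (Ioo 0 1 ×ˢ R),
      ENNReal.ofReal ((cw z).1 ^ 2) * ENNReal.ofReal (den σ C (cw z).2) := by
    refine setLIntegral_congr_fun hs' fun z hz => ?_
    have hz0 : 0 < z 2 := hz.1.1
    show ENNReal.ofReal |(dXi C z).det| * ENNReal.ofReal (exp (2 * σ (nz (Xi C z)))) =
      ENNReal.ofReal (z 2 ^ 2) * ENNReal.ofReal (den σ C (pr z))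
    rw [nz_Xi h1 hz0, det_dXi, ← ENNReal.ofReal_mul (abs_nonneg _),
      ← ENNReal.ofReal_mul (sq_nonneg _), den, abs_mul, abs_of_nonneg (sq_nonneg _)]
    congr 1
    ring
  rw [e, B, mul_comm] at A
  have n0 : ENNReal.ofReal (1 / 3) ≠ 0 := by simp
  exact ((ENNReal.mul_left_inj n0 ENNReal.ofReal_ne_top).1 A).symm

end Pool.Agent.MP_2291e2_gt.Ab

end
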