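import Pool.Agent.MP_2291e2_gt.ab.Spec

/-! The mean curvature bound along one geodesic and its equality case. -/

open scoped ContDiff RealInnerProductSpace Topology ENNReal
open Metric Set Filter Real intervalIntegral
open Pool.Agent.MP_2291e2_gt.Zl

noncomputable section

namespace Pool.Agent.MP_2291e2_gt.Ab

namespace OneX

theorem zero_of_quad {B C : ℝ} (h : ∀ ε : ℝ, 0 ≤ 2 * ε * B + ε ^ 2 * C) : B = 0 := by
  by_contra hB
  have hp : 0 < |C| + 1 := by positivity
  have h1 := h (-B / (|C| + 1))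
  have h2 : 2 * (-B / (|C| + 1)) * B + (-B / (|C| + 1)) ^ 2 * C
      = B ^ 2 / (|C| + 1) ^ 2 * (C - 2 * (|C| + 1)) := by field_simp; ring
  have h3 : 0 < B ^ 2 / (|C| + 1) ^ 2 := by positivity
  have h4 : C - 2 * (|C| + 1) < 0 := by linarith [le_abs_self C, abs_nonneg C]
  rw [h2] at h1
  nlinarith

theorem zero_of_sq {T : ℝ} (hT : 0 < T) {f : ℝ → ℝ} (hf : Continuous f)
    (h : ∫ t in (0 : ℝ)..T, f t ^ 2 = 0) : ∀ t ∈ Icc 0 T, f t = 0 := by
  by_contra hn
  push Not at hn
  obtain ⟨t, ht, h0⟩ := hn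
  have := integral_lt_integral_of_continuousOn_of_le_of_exists_lt (f := fun _ => (0 : ℝ))
    (g := fun t => f t ^ 2) hT continuousOn_const (hf.pow 2).continuousOn
    (fun x _ => sq_nonneg _) ⟨t, ht, by positivity⟩
  simp [h] at this

variable {T : ℝ} {K J1 P1 J2 P2 : ℝ → ℝ}

/-- a null vector of the index form that is a trigonometric function -/
theorem null (hI : IdxS) (H : Hill T K J1 P1 J2 P2) {o : ℝ} {h h' : ℝ → ℝ}
    (d1 : ∀ t, HasDerivAt h (h' t) t) (d2 : ∀ t, HasDerivAt h' (-(o ^ 2 * h t)) t)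
    (p1 : h T = h 0) (p2 : h' T = h' 0) (m0 : ∫ t in (0 : ℝ)..T, h t = 0)
    (q0 : ∫ t in (0 : ℝ)..T, (h' t ^ 2 - K t * h t ^ 2) = 0) :
    ∃ m : ℝ, ∀ t ∈ Icc 0 T, (o ^ 2 - K t) * h t = m := by
  have hT := H.Tpos
  have cK : Continuous K := H.Kc.continuous
  have cK' : Continuous (deriv K) := H.Kc.continuous_deriv le_rfl
  have dK : ∀ t, HasDerivAt K (deriv K t) t := fun t =>
    (H.Kc.differentiable (by simp) t).hasDerivAt
  have ch : Continuous h := continuous_iff_continuousAt.2 fun t => (d1 t).continuousAt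
  have ch' : Continuous h' := continuous_iff_continuousAt.2 fun t => (d2 t).continuousAt
  set m : ℝ := (∫ t in (0 : ℝ)..T, (o ^ 2 - K t) * h t) / T with hm
  set f : ℝ → ℝ := fun t => (o ^ 2 - K t) * h t - m with hf
  set f' : ℝ → ℝ := fun t => -deriv K t * h t + (o ^ 2 - K t) * h' t with hf'
  have df : ∀ t, HasDerivAt f (f' t) t := fun t =>
    ((((dK t).const_sub (o ^ 2)).mul (d1 t)).sub_const m)
  have cf : Continuous f := by rw [hf]; fun_prop
  have cf' : Continuous f' := by rw [hf']; fun_prop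
  have pf : f T = f 0 := by simp only [hf, H.KT, p1]
  have mf : ∫ t in (0 : ℝ)..T, f t = 0 := by
    rw [hf, integral_sub (Continuous.intervalIntegrable (by fun_prop) _ _)
      (continuous_const.intervalIntegrable _ _), integral_const, hm]
    simp only [sub_zero, smul_eq_mul]
    field_simp
    ring
  have hB : ∫ t in (0 : ℝ)..T, (h' t * f' t - K t * (h t * f t)) = 0 := by
    refine zero_of_quad (C := ∫ t in (0 : ℝ)..T, (f' t ^ 2 - K t * f t ^ 2)) fun ε => ?_
    have h1 := hI T K J1 P1 J2 P2 H (fun t => h t + ε * f t) (fun t => h' t + ε * f' t)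
      (fun t => (d1 t).add ((df t).const_mul ε)) (by fun_prop) (by simp only [p1, pf]) (by
        rw [integral_add (ch.intervalIntegrable _ _) (Continuous.intervalIntegrable (by fun_prop) _ _),
          integral_const_mul, m0, mf]
        simp)
    have h2 : ∀ t, (h' t + ε * f' t) ^ 2 - K t * (h t + ε * f t) ^ 2 =
        (h' t ^ 2 - K t * h t ^ 2) + (2 * ε * (h' t * f' t - K t * (h t * f t)) +
          ε ^ 2 * (f' t ^ 2 - K t * f t ^ 2)) := fun t => by ring
    simp only [h2] at h1
    rwa [integral_add (Continuous.intervalIntegrable (by fun_prop) _ _)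
      (Continuous.intervalIntegrable (by fun_prop) _ _),
      integral_add (Continuous.intervalIntegrable (by fun_prop) _ _)
      (Continuous.intervalIntegrable (by fun_prop) _ _), integral_const_mul, integral_const_mul,
      q0, zero_add] at h1
  have hP : ∫ t in (0 : ℝ)..T, (-(o ^ 2 * h t) * f t + h' t * f' t) = 0 := by
    rw [integral_eq_sub_of_hasDerivAt (f := fun t => h' t * f t)
      (fun t _ => (d2 t).mul (df t)) (Continuous.intervalIntegrable (by fun_prop) _ _), p2, pf,
      sub_self]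
  have hS : ∫ t in (0 : ℝ)..T, f t ^ 2 = 0 := by
    have e : ∀ t, f t ^ 2 = (h' t * f' t - K t * (h t * f t)) -
        (-(o ^ 2 * h t) * f t + h' t * f' t) - m * f t := fun t => by
      simp only [hf]; ring
    simp only [e]
    rw [integral_sub (Continuous.intervalIntegrable (by fun_prop) _ _)
      (Continuous.intervalIntegrable (by fun_prop) _ _),
      integral_sub (Continuous.intervalIntegrable (by fun_prop) _ _)
      (Continuous.intervalIntegrable (by fun_prop) _ _), integral_const_mul, hB, hP, mf]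
    simp
  exact ⟨m, fun t ht => sub_eq_zero.1 (zero_of_sq hT cf hS t ht)⟩

end OneX

open OneX in
theorem oneS (hI : IdxS) : OneS := by
  intro T K J1 P1 J2 P2 H
  have hT := H.Tpos
  have cK : Continuous K := H.Kc.continuous
  set o : ℝ := 2 * π / T with ho
  have hoT : o * T = 2 * π := by rw [ho]; field_simp
  have ho0 : 0 < o := by rw [ho]; positivity
  have dl : ∀ t, HasDerivAt (fun t => o * t) o t := fun t => by
    simpa using (hasDerivAt_id t).const_mul o
  have dc : ∀ t, HasDerivAt (fun t => cos (o * t)) (-(o * sin (o * t))) t := fun t =>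
    (dl t).cos.congr_deriv (by ring)
  have ds : ∀ t, HasDerivAt (fun t => sin (o * t)) (o * cos (o * t)) t := fun t =>
    (dl t).sin.congr_deriv (by ring)
  have dc2 : ∀ t, HasDerivAt (fun t => -(o * sin (o * t))) (-(o ^ 2 * cos (o * t))) t := fun t =>
    ((ds t).const_mul o).neg.congr_deriv (by ring)
  have ds2 : ∀ t, HasDerivAt (fun t => o * cos (o * t)) (-(o ^ 2 * sin (o * t))) t := fun t =>
    ((dc t).const_mul o).congr_deriv (by ring)
  have mc : ∫ t in (0 : ℝ)..T, cos (o * t) = 0 := by
    have := integral_eq_sub_of_hasDerivAt (a := 0) (b := T) (fun t _ => ds t)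
      (Continuous.intervalIntegrable (by fun_prop) _ _)
    rw [integral_const_mul, hoT] at this
    simpa [ho0.ne'] using this
  have ms : ∫ t in (0 : ℝ)..T, sin (o * t) = 0 := by
    simp [ho0.ne', hoT]
  have q1 := hI T K J1 P1 J2 P2 H _ _ dc (by fun_prop) (by simp [hoT]) mc
  have q2 := hI T K J1 P1 J2 P2 H _ _ ds (by fun_prop) (by simp [hoT]) ms
  have sum : (∫ t in (0 : ℝ)..T, ((-(o * sin (o * t))) ^ 2 - K t * cos (o * t) ^ 2)) +
      (∫ t in (0 : ℝ)..T, ((o * cos (o * t)) ^ 2 - K t * sin (o * t) ^ 2)) =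
      4 * π ^ 2 / T - ∫ t in (0 : ℝ)..T, K t := by
    rw [← integral_add (Continuous.intervalIntegrable (by fun_prop) _ _)
      (Continuous.intervalIntegrable (by fun_prop) _ _)]
    have e : ∀ t, (-(o * sin (o * t))) ^ 2 - K t * cos (o * t) ^ 2 +
        ((o * cos (o * t)) ^ 2 - K t * sin (o * t) ^ 2) = o ^ 2 - K t := fun t => by
      linear_combination (o ^ 2 - K t) * sin_sq_add_cos_sq (o * t)
    simp only [e]
    rw [integral_sub (continuous_const.intervalIntegrable _ _) (cK.intervalIntegrable _ _),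
      integral_const, ho]
    simp only [sub_zero, smul_eq_mul]
    field_simp
    ring
  refine ⟨by linarith, fun he t ht => ?_⟩
  obtain ⟨m1, h1⟩ := null hI H dc dc2 (by simp [hoT]) (by simp [hoT]) mc (by linarith)
  obtain ⟨m2, h2⟩ := null hI H ds ds2 (by simp [hoT]) (by simp [hoT]) ms (by linarith)
  have z2 : m2 = 0 := by simpa using (h2 0 ⟨le_rfl, hT.le⟩).symm
  have z1 : m1 = 0 := by
    have := h1 (T / 4) ⟨by positivity, by linarith⟩
    rw [show o * (T / 4) = π / 2 by linarith, cos_pi_div_two, mul_zero] at this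
    exact this.symm
  have a1 := h1 t ht
  have a2 := h2 t ht
  rw [z1] at a1
  rw [z2] at a2
  have : o ^ 2 - K t = 0 := by
    linear_combination cos (o * t) * a1 + sin (o * t) * a2 -
      (o ^ 2 - K t) * sin_sq_add_cos_sq (o * t)
  linarith

end Pool.Agent.MP_2291e2_gt.Ab

end
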