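import Mathlib.MeasureTheory.Measure.Lebesgue.VolumeOfBalls
import Pool.Agent.MP_2291e2_gt.ab.One

/-! The assembly of the theorem from the statements of the rows. -/

open scoped ContDiff RealInnerProductSpace Topology ENNReal
open Metric Set Filter Real intervalIntegral
open Pool.Agent.MP_2291e2_gt.Zl

noncomputable section

namespace Pool.Agent.MP_2291e2_gt.Ab

namespace AsmX

variable {σ : E → ℝ} {φ : ℝ → P → P} {a b : P → ℝ} {T : ℝ} {u : P}

theorem eta_zero (H : CF σ φ a b T) (ζ : E) : eta φ u ζ 0 = W u ζ := by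
  have : φ 0 = id := funext H.z.zero
  simp [eta, this]

theorem eta_per (H : CF σ φ a b T) (hu : u ∈ U) (ζ : E) (t : ℝ) :
    eta φ u ζ (t + T) = eta φ u ζ t :=
  dW_congr hu (Cross1.diff H.z.toPFlow _ _) (Cross1.diff H.z.toPFlow _ _)
    (fun _ hw => Cross1.per H.z hw t) ζ

theorem eta_W (H : CF σ φ a b T) (hu : u ∈ U) (ζ : E) (t : ℝ) :
    ∃ ξ, eta φ u ζ t = W (φ t u) ξ := by
  obtain ⟨c, -, h0, hU, hd⟩ := exists_curve hu ζ
  have h1 := hasDerivAt_comp_W (f := φ t) (Cross1.diff H.z.toPFlow _ _) (hd 0)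
  have := exists_W_hasDerivAt h1 (Eventually.of_forall fun s => H.z.maps t _ (hU s))
  simp only [h0] at this
  exact this

theorem Ch_x (H : CF σ φ a b T) (hu : u ∈ U) (x : ℝ) :
    fderiv ℝ (FermiAux.Ch φ u) (x, 0) (1, 0) = exp (-σ (φ x u).1) • (φ x u).2 := by
  have hd := ((FermiAux.Ch_smooth (u₀ := u) H.z.toPFlow).differentiable (by simp)
    (x, 0)).hasFDerivAt
  have h1 := FermiAux.vel H.z.toPFlow hu x
  rw [H.ha _ (H.z.maps x u hu)] at h1
  simp only [← FermiAux.Ch_zero H.z.toPFlow] at h1 ⊢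
  exact (hd.comp_hasDerivAt (f := fun t : ℝ => (t, (0 : ℝ))) x
    ((hasDerivAt_id x).prodMk (hasDerivAt_const x (0 : ℝ)))).unique h1

theorem Ch_f (H : CF σ φ a b T) (hu : u ∈ U) (x : ℝ) :
    fderiv ℝ (FermiAux.Ch φ u) (x, 0) (0, 1) = exp (-σ (φ x u).1) • cr (φ x u).1 (φ x u).2 := by
  have hd := ((FermiAux.Ch_smooth (u₀ := u) H.z.toPFlow).differentiable (by simp)
    (x, 0)).hasFDerivAt
  have hv := rho_mem_U (H.z.maps x u hu) (π / 2)
  have h1 := FermiAux.vel H.z.toPFlow hv 0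
  rw [H.z.zero, H.ha _ hv] at h1
  have h2 : HasDerivAt (fun t => FermiAux.Ch φ u (x, t))
      (exp (-σ (φ x u).1) • cr (φ x u).1 (φ x u).2) 0 := h1.congr_deriv (by simp [rho])
  exact (hd.comp_hasDerivAt (f := fun t : ℝ => (x, t)) (0 : ℝ)
    ((hasDerivAt_const (0 : ℝ) x).prodMk (hasDerivAt_id (0 : ℝ)))).unique h2

theorem den_one (H : CF σ φ a b T) (hu : u ∈ U) (x : ℝ) : den σ (FermiAux.Ch φ u) (x, 0) = 1 := by
  have hw := H.z.maps x u hu
  rw [den, Ch_x H hu, Ch_f H hu, FermiAux.Ch_zero H.z.toPFlow, dt, cr_smul_left, cr_smul_right,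
    cr_cr_right, inner_self_U2 hw, inner_U21 hw, zero_smul, sub_zero, one_smul,
    real_inner_smul_right, real_inner_smul_right, inner_self_U1 hw, mul_one, ← exp_add,
    abs_of_pos (exp_pos _), ← exp_add, ← exp_zero]
  congr 1
  ring

/-- normal Jacobi fields have mean zero -/
theorem mean (hJ : JacS) (hB : BisS) (H : CF σ φ a b T)
    (hb : ∀ u ∈ U, Bisects σ fun t => (φ t u).1) (hu : u ∈ U) (ζ : E) :
    ∫ t in (0 : ℝ)..T, fJ σ (φ t u) (eta φ u ζ t) = 0 := by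
  obtain ⟨γ, hγ, h0, hU, hd⟩ := exists_curve hu ζ
  have sm : ContDiff ℝ ∞ fun z : ℝ × ℝ => (φ z.2 (γ z.1)).1 :=
    (H.z.smooth.comp (contDiff_snd.prodMk (hγ.comp contDiff_fst))).fst
  have := hB σ (FermiAux.Ch φ u) (fun z => (φ z.2 (γ z.1)).1)
    (fun t => fJ σ (φ t u) (eta φ u ζ t)) T H.sm.continuous (FermiAux.chart H.z hu)
    ⟨sm, fun z => (H.z.maps _ _ (hU _)).1, fun t => by rw [FermiAux.Ch_zero H.z.toPFlow, h0],
      fun s t => congrArg Prod.fst (Cross1.per H.z (hU s) t),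
      continuous_iff_continuousAt.2 fun t => (hJ σ φ a b T H u hu ζ t).2.1.continuousAt,
      fun t => by simp only [eta_per H hu, show φ (t + T) u = φ t u from Cross1.per H.z hu t],
      fun t => ?_⟩ fun s => hb _ (hU s)
  · simpa only [den_one H hu, one_mul] using this
  · have hw := H.z.maps t u hu
    have h1 := (hasDerivAt_comp_W (f := φ t) (Cross1.diff H.z.toPFlow _ _) (hd 0)).fst
    have h2 := ((sm.differentiable (by simp) (0, t)).hasFDerivAt.comp_hasDerivAt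
      (f := fun s : ℝ => (s, t)) (0 : ℝ)
      ((hasDerivAt_id (0 : ℝ)).prodMk (hasDerivAt_const (0 : ℝ) t))).unique h1
    have h3 : (dW (φ t) (γ 0) ζ).1 = (eta φ u ζ t).1 := by rw [h0]; rfl
    obtain ⟨ξ, hξ⟩ := eta_W H hu ζ t
    have h4 : ⟪(eta φ u ζ t).1, (φ t u).1⟫ = 0 := by rw [hξ]; simp [W]
    refine ⟨exp (σ (φ t u).1) * ⟪(eta φ u ζ t).1, (φ t u).2⟫, ?_⟩
    rw [h2, h3, Ch_x H hu, Ch_f H hu, fJ, smul_smul, smul_smul, exp_neg]
    conv_lhs => rw [frameU hw (eta φ u ζ t).1, h4, zero_smul, zero_add]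
    have := (exp_pos (σ (φ t u).1)).ne'
    congr 2 <;> field_simp

theorem once (hJ : JacS) (H : CF σ φ a b T) (hu : u ∈ U) {t : ℝ} (ht : t ∈ Ioo 0 T)
    (h0 : fJ σ (φ t u) (eta φ u u.1 t) = 0) : fP σ (φ t u) (eta φ u u.1 t) ≤ 0 := by
  by_contra hn
  have hw := H.z.maps t u hu
  have hA : fA σ (φ t u) (eta φ u u.1 t) = fA σ (φ 0 u) (eta φ u u.1 0) :=
    is_const_of_deriv_eq_zero (f := fun t => fA σ (φ t u) (eta φ u u.1 t))
      (fun t => (hJ σ φ a b T H u hu u.1 t).1.differentiableAt)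
      (fun t => (hJ σ φ a b T H u hu u.1 t).1.deriv) t 0
  rw [eta_zero H] at hA
  have a1 : ⟪(eta φ u u.1 t).1, (φ t u).2⟫ = 0 := by simpa [fA, W] using hA
  have a2 : ⟪(eta φ u u.1 t).1, cr (φ t u).1 (φ t u).2⟫ = 0 := by simpa [fJ] using h0
  rw [fP, a1, a2, mul_zero, mul_zero, add_zero, sub_zero, not_le] at hn
  obtain ⟨ξ, hξ⟩ := eta_W H hu u.1 t
  have a3 : ⟪(eta φ u u.1 t).1, (φ t u).1⟫ = 0 := by rw [hξ]; simp [W]
  have a4 : ⟪(eta φ u u.1 t).2, (φ t u).2⟫ = 0 := by rw [hξ]; simp [W]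
  have a5 : ⟪(eta φ u u.1 t).2, (φ t u).1⟫ = 0 := by
    rw [hξ] at a1 ⊢
    simp only [W, inner_cr_eq] at a1 ⊢
    rw [dt_swap23, a1, neg_zero]
  obtain ⟨k, hk⟩ := jac_of fermi_all cross1_all φ a b T H.z u hu t _ 0 hn (by
    refine Prod.ext ?_ ?_
    · change (eta φ u u.1 t).1 = _
      rw [frameU hw (eta φ u u.1 t).1, a1, a2, a3]
      simp [W, cr_smul_left]
    · change (eta φ u u.1 t).2 = _
      conv_lhs => rw [frameU hw (eta φ u u.1 t).2, a4, a5]
      simp [W, cr_smul_left])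
  have hT := H.z.Tpos
  have k0 : (0 : ℝ) < k := by nlinarith [ht.1]
  have k1 : (k : ℝ) < 1 := by nlinarith [ht.2]
  have : (0 : ℤ) < k := by exact_mod_cast k0
  have : k < (1 : ℤ) := by exact_mod_cast k1
  omega

theorem Kf_sm (hL : LapS) (h : ContDiff ℝ ∞ σ) : ContDiff ℝ ∞ (Kf σ) :=
  (contDiff_const.mul h).neg.exp.mul (contDiff_const.sub (hL σ h).1)

theorem hill (hL : LapS) (hJ : JacS) (hB : BisS) (H : CF σ φ a b T)
    (hb : ∀ u ∈ U, Bisects σ fun t => (φ t u).1) (hu : u ∈ U) :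
    ∃ J1 P1 J2 P2, Hill T (fun t => Kf σ (φ t u).1) J1 P1 J2 P2 := by
  set ζ : E := (-exp (-σ u.1) * D1 σ u.1 u.2) • u.1 + (-exp (-σ u.1)) • u.2 with hζ
  have nn : ⟪cr u.1 u.2, cr u.1 u.2⟫ = 1 := by rw [real_inner_self_eq_norm_sq, norm_cr_U hu]; simp
  have w1 : (W u ζ).1 = exp (-σ u.1) • cr u.1 u.2 := by
    simp [W, hζ, cr_add_left, cr_smul_left, cr_neg_left, cr_anti u.2 u.1]
  have w2 : (W u ζ).2 = (-exp (-σ u.1) * D1 σ u.1 u.2) • cr u.1 u.2 := by
    simp [W, hζ, cr_add_left, cr_smul_left, cr_neg_left]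
  have i0 : fJ σ u (W u u.1) = 0 ∧ fP σ u (W u u.1) = 1 ∧ fJ σ u (W u ζ) = 1 ∧
      fP σ u (W u ζ) = 0 := by
    refine ⟨by simp [fJ, W], by simp only [fP, W, cr_self, inner_zero_left, nn]; simp, ?_, ?_⟩
    · rw [fJ, w1, real_inner_smul_left, nn, mul_one, ← exp_add]
      simp
    · rw [fP, w1, w2, real_inner_smul_left, real_inner_smul_left, real_inner_smul_left, nn,
        cr_inner_right]
      ring
  have eT : ∀ ζ, eta φ u ζ T = W u ζ := fun ζ => by
    have := eta_per H hu ζ 0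
    rwa [zero_add, eta_zero H] at this
  refine ⟨fun t => fJ σ (φ t u) (eta φ u u.1 t), fun t => fP σ (φ t u) (eta φ u u.1 t),
    fun t => fJ σ (φ t u) (eta φ u ζ t), fun t => fP σ (φ t u) (eta φ u ζ t), H.z.Tpos, ?_, ?_,
    fun t => (hJ σ φ a b T H u hu _ t).2.1, fun t => (hJ σ φ a b T H u hu _ t).2.2,
    fun t => (hJ σ φ a b T H u hu _ t).2.1, fun t => (hJ σ φ a b T H u hu _ t).2.2, ?_, ?_,
    fun t ht => once hJ H hu ht, mean hJ hB H hb hu _, mean hJ hB H hb hu _⟩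
  · exact ((Kf_sm hL H.sm).comp
      (H.z.smooth.comp (contDiff_id.prodMk contDiff_const)).fst).of_le (by simp)
  · simp only [H.z.per u hu, H.z.zero]
  · simpa only [H.z.zero, eta_zero H] using i0
  · simpa only [H.z.per u hu, eT] using i0

theorem zero_of_nonneg {T : ℝ} (hT : 0 < T) {f : ℝ → ℝ} (hf : Continuous f)
    (h0 : ∀ t ∈ Icc 0 T, 0 ≤ f t) (h : ∫ t in (0 : ℝ)..T, f t = 0) : ∀ t ∈ Icc 0 T, f t = 0 := by
  by_contra hn
  push Not at hn
  obtain ⟨t, ht, h1⟩ := hn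
  have := integral_lt_integral_of_continuousOn_of_le_of_exists_lt (f := fun _ => (0 : ℝ))
    (g := f) hT continuousOn_const hf.continuousOn
    (fun x hx => h0 x (Ioc_subset_Icc_self hx)) ⟨t, ht, (h0 t ht).lt_of_ne' h1⟩
  simp [h] at this

theorem ball_int (hL : LapS) (h : ContDiff ℝ ∞ σ) :
    ∫ Y in ball (0 : E) 1, Kf σ (nz Y) * exp (2 * σ (nz Y)) = 4 * π / 3 := by
  have e : ∀ y, Kf σ y * exp (2 * σ y) = 1 - Lap σ y := fun y => by
    rw [Kf, exp_neg]
    field_simp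
  have cL := (hL σ h).1.continuous
  obtain ⟨M, hM⟩ := (isCompact_closedBall (0 : E) 1).exists_bound_of_continuousOn cL.continuousOn
  have mz : Measurable nz := measurable_norm.inv.smul measurable_id
  have bz : ∀ Y, nz Y ∈ closedBall (0 : E) 1 := fun Y => by
    rw [mem_closedBall_zero_iff, nz, norm_smul, norm_inv, norm_norm]
    exact inv_mul_le_one
  have i1 : MeasureTheory.IntegrableOn (fun Y => Lap σ (nz Y)) (ball (0 : E) 1) :=
    MeasureTheory.Measure.integrableOn_of_bounded MeasureTheory.measure_ball_lt_top.ne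
      (cL.measurable.comp mz).aestronglyMeasurable (M := M)
      (Eventually.of_forall fun Y => hM _ (bz Y))
  have i0 : MeasureTheory.IntegrableOn (fun _ => (1 : ℝ)) (ball (0 : E) 1) :=
    MeasureTheory.integrableOn_const MeasureTheory.measure_ball_lt_top.ne
  simp only [e]
  rw [MeasureTheory.integral_sub i0 i1, (hL σ h).2.2.2,
    sub_zero, MeasureTheory.setIntegral_const, MeasureTheory.measureReal_def,
    EuclideanSpace.volume_ball_fin_three, ENNReal.toReal_mul, ENNReal.toReal_pow,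
    ENNReal.toReal_ofReal zero_le_one, ENNReal.toReal_ofReal (by positivity)]
  simp only [one_pow, one_mul, smul_eq_mul, mul_one]
  ring

end AsmX

open AsmX in
theorem mainS_of (hF : FlowS) (hL : LapS) (hJ : JacS) (hO : OneS) (hB : BisS) (hC : ChgS) :
    MainS := by
  intro σ hσ hZ hbis
  obtain ⟨φ, a, b, T, H, hg⟩ := hF σ hσ hZ
  have hb : ∀ u ∈ U, Bisects σ fun t => (φ t u).1 := fun u hu => hbis _ (hg u hu)
  have hT := H.z.Tpos
  have one : ∀ u ∈ U, (∫ t in (0 : ℝ)..T, Kf σ (φ t u).1) ≤ 4 * π ^ 2 / T ∧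
      ((∫ t in (0 : ℝ)..T, Kf σ (φ t u).1) = 4 * π ^ 2 / T →
        ∀ t ∈ Icc 0 T, Kf σ (φ t u).1 = (2 * π / T) ^ 2) := fun u hu => by
    obtain ⟨J1, P1, J2, P2, h⟩ := hill hL hJ hB H hb hu
    exact hO _ _ _ _ _ _ h
  refine ⟨(2 * π / T) ^ 2, by positivity, fun y v w ho => ?_⟩
  have hu : (y, v) ∈ U := ⟨ho.1 0, ho.1 1, ho.2 (show (0 : Fin 3) ≠ 1 by decide)⟩
  set u₀ : P := (y, v) with hu₀
  obtain ⟨N, f, hN⟩ := fermi_all φ a b T u₀ H.z hu
  obtain ⟨T1, h1⟩ := cross1_all φ a b T u₀ N f H.z hu hN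
  obtain ⟨xp, bp, h2⟩ := cross2_of lift_all φ a b T u₀ N f T1 H.z hu hN h1
    (jac_of fermi_all cross1_all φ a b T H.z)
  have h3 := cross3_of φ a b T u₀ N f T1 xp bp H.z hu hN h1 h2
  have cK := (Kf_sm hL hσ).continuous
  have hc := hC σ φ a b T H u₀ hu h3 (Kf σ) cK
  rw [ball_int hL hσ] at hc
  set G : ℝ → ℝ → ℝ := fun x β => ∫ t in (0 : ℝ)..T, Kf σ (φ t (Ax φ u₀ (x, β))).1 with hG
  have cφ := H.z.smooth.continuous
  have cA : Continuous fun z : ℝ × ℝ => Ax φ u₀ z :=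
    (contDiff_rho (n := 0)).continuous.comp (continuous_snd.prodMk
      (cφ.comp (continuous_fst.prodMk continuous_const)))
  have cG : Continuous fun z : ℝ × ℝ => G z.1 z.2 :=
    continuous_parametric_intervalIntegral_of_continuous'
      (f := fun (z : ℝ × ℝ) t => Kf σ (φ t (Ax φ u₀ z)).1)
      (cK.comp (cφ.comp (continuous_snd.prodMk (cA.comp continuous_fst))).fst) _ _
  have pD : ∀ x, ∀ β ∈ Icc 0 π, 0 ≤ sin β * (4 * π ^ 2 / T - G x β) := fun x β hβ =>
    mul_nonneg (sin_nonneg_of_mem_Icc hβ) (sub_nonneg.2 (one _ (Cross1.Ax_mem H.z.toPFlow hu _)).1)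
  have cx : ∀ x, Continuous fun β => G x β := fun x =>
    cG.comp (continuous_const.prodMk continuous_id)
  have e1 : ∀ x, ∫ β in (0 : ℝ)..π, sin β * (4 * π ^ 2 / T - G x β) =
      8 * π ^ 2 / T - ∫ β in (0 : ℝ)..π, sin β * G x β := fun x => by
    simp only [mul_sub]
    have := cx x
    rw [integral_sub (Continuous.intervalIntegrable (by fun_prop) _ _)
      (Continuous.intervalIntegrable (by fun_prop) _ _), integral_mul_const, integral_sin]
    simp only [cos_zero, cos_pi]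
    ring
  have c1 : Continuous fun x => ∫ β in (0 : ℝ)..π, sin β * G x β :=
    continuous_parametric_intervalIntegral_of_continuous' (f := fun x β => sin β * G x β)
      ((continuous_sin.comp continuous_snd).mul cG) _ _
  have z1 := zero_of_nonneg hT (f := fun x => ∫ β in (0 : ℝ)..π, sin β * (4 * π ^ 2 / T - G x β))
    (by simp only [e1]; fun_prop) (fun x _ => integral_nonneg pi_pos.le (pD x)) (by
      simp only [e1]
      rw [integral_sub (continuous_const.intervalIntegrable _ _) (c1.intervalIntegrable _ _),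
        integral_const, sub_zero, smul_eq_mul, mul_div_cancel₀ _ hT.ne']
      linarith) 0 ⟨le_rfl, hT.le⟩
  have z2 := zero_of_nonneg pi_pos (f := fun β => sin β * (4 * π ^ 2 / T - G 0 β))
    (continuous_sin.mul (continuous_const.sub (cx 0))) (pD 0) z1 (π / 2)
    ⟨by positivity, by linarith [pi_pos]⟩
  simp only [sin_pi_div_two, one_mul] at z2
  have z3 := (one _ (Cross1.Ax_mem H.z.toPFlow hu (0, π / 2))).2 (sub_eq_zero.1 z2).symm 0
    ⟨le_rfl, hT.le⟩
  simp only [Ax, H.z.zero, rho, hu₀] at z3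
  rw [curv, (hL σ hσ).2.2.1 y v w ho]
  exact z3

end Pool.Agent.MP_2291e2_gt.Ab

end
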