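import Pool.Agent.MP_2291e2_gt.ab.Spec

/-! The first variation of the area of a family of bisecting curves vanishes. -/

open scoped ContDiff RealInnerProductSpace Topology ENNReal
open MeasureTheory Metric Set Filter Real
open Pool.Agent.MP_2291e2_gt.Zl

noncomputable section

namespace Pool.Agent.MP_2291e2_gt.Ab

namespace BisX

variable {σ : E → ℝ} {C : ℝ × ℝ → E} {T d : ℝ} {Z : Set E} {g : ℝ → ℝ}

lemma area_mono {A B : Set E} (h : A ⊆ B) : area σ A ≤ area σ B :=
  lintegral_mono_set (preimage_mono h)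

lemma area_union_le (A B : Set E) : area σ (A ∪ B) ≤ area σ A + area σ B := by
  unfold area
  rw [preimage_union]
  exact lintegral_union_le _ _ _

lemma area_union {A B : Set E} (hB : MeasurableSet B) (h : Disjoint A B) :
    area σ (A ∪ B) = area σ A + area σ B := by
  unfold area
  rw [preimage_union]
  exact lintegral_union (measurable_subtype_coe hB) (h.preimage _)

lemma area_ne_top (hσ : Continuous σ) (A : Set E) : area σ A ≠ ⊤ := by
  have hc : Continuous fun y : sphere (0 : E) 1 => Real.exp (2 * σ y) := by fun_prop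
  have hi : Integrable (fun y : sphere (0 : E) 1 => Real.exp (2 * σ y))
      (volume : Measure E).toSphere :=
    hc.integrable_of_hasCompactSupport (HasCompactSupport.of_compactSpace _)
  exact ((setLIntegral_le_lintegral _ _).trans_lt hi.lintegral_lt_top).ne

lemma half_le {γ : ℝ → E} (hB : Bisects σ γ) (hZ : IsPreconnected Z) (hne : Z.Nonempty)
    (hs : Z ⊆ sphere (0 : E) 1 \ range γ) : 2 * area σ Z ≤ area σ (sphere 0 1) := by
  obtain ⟨x, hx⟩ := hne
  rw [← hB x (hs hx)]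
  exact mul_le_mul_right (area_mono (hZ.subset_connectedComponentIn hx hs)) 2

/-- the part of the strip above the graph of `g` -/
def Rg (T d : ℝ) (g : ℝ → ℝ) : Set (ℝ × ℝ) := {a | a.1 ∈ Ico 0 T ∧ a.2 ∈ Ioc (g a.1) (d / 2)}

/-- one side of the strip -/
structure Side (C : ℝ × ℝ → E) (T d : ℝ) (Z : Set E) : Prop where
  cont : Continuous C
  unit : ∀ a, ‖C a‖ = 1
  dpos : 0 < d
  inj : ∀ a a' : ℝ × ℝ, |a.2| < d → |a'.2| < d → C a = C a' → ∃ k : ℤ, a' = a + ((k : ℝ) * T, 0)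
  pre : IsPreconnected Z
  sub : Z ⊆ sphere (0 : E) 1 \ C '' (univ ×ˢ Icc (-(d / 2)) (d / 2))
  up : C '' (univ ×ˢ Ioo (d / 2) d) ⊆ Z

lemma Side.mem (h : Side C T d Z) (x : ℝ) : C (x, 3 * d / 4) ∈ Z :=
  h.up ⟨_, ⟨trivial, by linarith [h.dpos], by linarith [h.dpos]⟩, rfl⟩

lemma Side.conn (h : Side C T d Z) : IsPreconnected (Z ∪ C '' Rg T d g) := by
  refine isPreconnected_of_forall (C (0, 3 * d / 4)) ?_
  rintro y (hy | ⟨a, ha, rfl⟩)
  · exact ⟨Z, subset_union_left, h.mem 0, hy, h.pre⟩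
  · have hd := h.dpos
    have hc := h.cont
    refine ⟨Z ∪ (fun t => C (a.1, t)) '' Ico a.2 d, ?_, Or.inl (h.mem 0),
      Or.inr ⟨a.2, ⟨le_rfl, by linarith [ha.2.2]⟩, rfl⟩, ?_⟩
    · rintro z (hz | ⟨t, ht, rfl⟩)
      · exact Or.inl hz
      · rcases le_or_gt t (d / 2) with h1 | h1
        · exact Or.inr ⟨(a.1, t), ⟨ha.1, ha.2.1.trans_le ht.1, h1⟩, rfl⟩
        · exact Or.inl (h.up ⟨(a.1, t), ⟨trivial, h1, ht.2⟩, rfl⟩)
    · exact h.pre.union (C (a.1, 3 * d / 4)) (h.mem _)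
        ⟨3 * d / 4, ⟨by linarith [ha.2.2], by linarith⟩, rfl⟩
        (isPreconnected_Ico.image _ (Continuous.continuousOn (by fun_prop)))

lemma Side.half (h : Side C T d Z) {γ : ℝ → E} (hB : Bisects σ γ) (hp : Function.Periodic g T)
    (hg : ∀ x, -(d / 2) ≤ g x) (hγ : ∀ t, ∃ a, γ t = C a ∧ |a.2| ≤ d / 2 ∧ a.2 ≤ g a.1) :
    2 * area σ (Z ∪ C '' Rg T d g) ≤ area σ (sphere 0 1) := by
  have hd := h.dpos
  refine half_le hB h.conn ⟨_, Or.inl (h.mem 0)⟩ ?_
  rintro y (hy | ⟨a, ha, rfl⟩)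
  · refine ⟨(h.sub hy).1, ?_⟩
    rintro ⟨t, rfl⟩
    obtain ⟨a, e, h1, -⟩ := hγ t
    exact (h.sub hy).2 ⟨a, ⟨trivial, abs_le.1 h1⟩, e.symm⟩
  · refine ⟨by simpa using h.unit a, ?_⟩
    rintro ⟨t, ht⟩
    obtain ⟨b, e, h1, h2⟩ := hγ t
    obtain ⟨k, hk⟩ := h.inj b a (by linarith)
      (abs_lt.2 ⟨by linarith [hg a.1, ha.2.1], by linarith [ha.2.2]⟩) (e.symm.trans ht)
    have h3 := ha.2.1
    rw [hk] at h3
    simp only [Prod.fst_add, Prod.snd_add, add_zero] at h3
    rw [hp.int_mul k] at h3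
    linarith

lemma Side.injOn (h : Side C T d Z) : InjOn C (Ico 0 T ×ˢ Icc (-(d / 2)) (d / 2)) := by
  intro a ha b hb e
  have hd := h.dpos
  obtain ⟨k, hk⟩ := h.inj a b ((abs_le.2 ha.2).trans_lt (by linarith))
    ((abs_le.2 hb.2).trans_lt (by linarith)) e
  have h1 : b.1 = a.1 + k * T := congrArg Prod.fst hk
  have hT : 0 < T := ha.1.1.trans_lt ha.1.2
  have h2 : (k : ℝ) < 1 := by
    by_contra hc
    nlinarith [ha.1.1, hb.1.2, not_lt.1 hc]
  have h3 : (-1 : ℝ) < k := by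
    by_contra hc
    nlinarith [ha.1.2, hb.1.1, not_lt.1 hc]
  have h4 : k = 0 := by
    have a1 : k < 1 := by exact_mod_cast h2
    have a2 : -1 < k := by exact_mod_cast h3
    omega
  rw [hk, h4]
  simp

lemma meas_Rg (hg : Continuous g) : MeasurableSet (Rg T d g) :=
  measurableSet_region_between_oc hg.measurable measurable_const measurableSet_Ico

lemma Rg_sub (hg : ∀ x, -(d / 2) ≤ g x) : Rg T d g ⊆ Ico 0 T ×ˢ Icc (-(d / 2)) (d / 2) :=
  fun a ha => ⟨ha.1, (hg a.1).trans ha.2.1.le, ha.2.2⟩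

lemma Side.split (h : Side C T d Z) (hc : Continuous g) (hg : ∀ x, -(d / 2) ≤ g x) :
    area σ (Z ∪ C '' Rg T d g) = area σ Z + area σ (C '' Rg T d g) := by
  refine area_union ((meas_Rg hc).image_of_continuousOn_injOn h.cont.continuousOn
    (h.injOn.mono (Rg_sub hg))) (disjoint_left.2 ?_)
  rintro y hy ⟨a, ha, rfl⟩
  exact (h.sub hy).2 ⟨a, ⟨trivial, (Rg_sub hg ha).2⟩, rfl⟩

lemma lint_Rg {F : ℝ × ℝ → ℝ} (hF : Continuous F) (h0 : ∀ a, 0 ≤ F a) (hT : 0 ≤ T)
    (hc : Continuous g) (hg : ∀ x, g x ≤ d / 2) :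
    ∫⁻ a in Rg T d g, ENNReal.ofReal (F a) =
      ENNReal.ofReal (∫ x in (0 : ℝ)..T, ∫ y in g x..d / 2, F (x, y)) := by
  have c1 : Continuous fun x => ∫ y in g x..d / 2, F (x, y) := by
    simp_rw [fun x => intervalIntegral.integral_symm (d / 2) (g x) (f := fun y => F (x, y))
      (μ := volume)]
    exact (intervalIntegral.continuous_parametric_intervalIntegral_of_continuous
      (f := fun x y => F (x, y)) hF hc).neg
  rw [← lintegral_indicator (meas_Rg hc), Measure.volume_eq_prod, lintegral_prod _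
    ((hF.measurable.ennreal_ofReal.indicator (meas_Rg hc)).aemeasurable),
    intervalIntegral.integral_of_le hT, integral_Ioc_eq_integral_Ioo, ← integral_Ico_eq_integral_Ioo,
    ofReal_integral_eq_lintegral_ofReal
      ((c1.integrableOn_Icc (a := 0) (b := T)).mono_set Ico_subset_Icc_self)
      (ae_of_all _ fun x => intervalIntegral.integral_nonneg (hg x) fun y _ => h0 _),
    ← lintegral_indicator measurableSet_Ico]
  refine lintegral_congr fun x => ?_
  by_cases hx : x ∈ Ico 0 T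
  · have c2 : Continuous fun y => F (x, y) := by fun_prop
    rw [indicator_of_mem hx, intervalIntegral.integral_of_le (hg x),
      ofReal_integral_eq_lintegral_ofReal
        ((c2.integrableOn_Icc (a := g x) (b := d / 2)).mono_set Ioc_subset_Icc_self)
        (ae_of_all _ fun y => h0 _), ← lintegral_indicator measurableSet_Ioc]
    refine lintegral_congr fun y => ?_
    by_cases hy : y ∈ Ioc (g x) (d / 2)
    · rw [indicator_of_mem hy, indicator_of_mem (show (x, y) ∈ Rg T d g from ⟨hx, hy⟩)]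
    · rw [indicator_of_notMem hy,
        indicator_of_notMem (show (x, y) ∉ Rg T d g from fun h => hy h.2)]
  · rw [indicator_of_notMem hx]
    simp_rw [fun y => indicator_of_notMem (show (x, y) ∉ Rg T d g from fun h => hx h.1)
      fun a => ENNReal.ofReal (F a)]
    simp

lemma real_ineq {F : ℝ × ℝ → ℝ} (hF : Continuous F) (h0 : ∀ a, 0 ≤ F a) (hT : 0 ≤ T) (hd : 0 < d)
    (hc : Continuous g) (hg : ∀ x, g x ≤ d / 2)
    (h : ∫⁻ a in Rg T d g, ENNReal.ofReal (F a) ≤ ∫⁻ a in Rg T d fun _ => 0, ENNReal.ofReal (F a)) :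
    0 ≤ ∫ x in (0 : ℝ)..T, ∫ y in (0 : ℝ)..g x, F (x, y) := by
  rw [lint_Rg hF h0 hT hc hg, lint_Rg hF h0 hT continuous_const fun _ => by linarith,
    ENNReal.ofReal_le_ofReal_iff (intervalIntegral.integral_nonneg hT fun x _ =>
      intervalIntegral.integral_nonneg (by linarith) fun y _ => h0 _)] at h
  have c1 : Continuous fun x => ∫ y in (0 : ℝ)..g x, F (x, y) :=
    intervalIntegral.continuous_parametric_intervalIntegral_of_continuous
      (f := fun x y => F (x, y)) hF hc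
  have c2 : Continuous fun x => ∫ y in (0 : ℝ)..d / 2, F (x, y) :=
    intervalIntegral.continuous_parametric_intervalIntegral_of_continuous'
      (f := fun x y => F (x, y)) hF _ _
  have e : ∀ x, ∫ y in g x..d / 2, F (x, y) =
      (∫ y in (0 : ℝ)..d / 2, F (x, y)) - ∫ y in (0 : ℝ)..g x, F (x, y) := fun x => by
    have c3 : Continuous fun y => F (x, y) := by fun_prop
    exact (intervalIntegral.integral_interval_sub_left (c3.intervalIntegrable _ _)
      (c3.intervalIntegrable _ _)).symm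
  simp_rw [e] at h
  rw [intervalIntegral.integral_sub (c2.intervalIntegrable _ _) (c1.intervalIntegrable _ _)] at h
  linarith

lemma limit_ineq {F : ℝ × ℝ → ℝ} {w : ℝ → ℝ} (hF : Continuous F) (hw : Continuous w)
    (h : ∀ᶠ θ in 𝓝[>] (0 : ℝ), 0 ≤ ∫ x in (0 : ℝ)..T, ∫ y in (0 : ℝ)..θ * w x, F (x, y)) :
    0 ≤ ∫ x in (0 : ℝ)..T, F (x, 0) * w x := by
  have c1 : Continuous fun q : ℝ × ℝ => ∫ τ in (0 : ℝ)..1, F (q.2, q.1 * w q.2 * τ) :=
    intervalIntegral.continuous_parametric_intervalIntegral_of_continuous'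
      (f := fun (q : ℝ × ℝ) τ => F (q.2, q.1 * w q.2 * τ)) (by fun_prop) _ _
  have c2 : Continuous fun θ : ℝ =>
      ∫ x in (0 : ℝ)..T, (∫ τ in (0 : ℝ)..1, F (x, θ * w x * τ)) * w x :=
    intervalIntegral.continuous_parametric_intervalIntegral_of_continuous'
      (f := fun θ x => (∫ τ in (0 : ℝ)..1, F (x, θ * w x * τ)) * w x)
      (c1.mul (hw.comp continuous_snd)) _ _
  have t := (c2.tendsto 0).mono_left (nhdsWithin_le_nhds (s := Ioi 0))
  simp only [zero_mul, intervalIntegral.integral_const, sub_zero, one_smul] at t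
  refine ge_of_tendsto t ?_
  filter_upwards [h, self_mem_nhdsWithin] with θ h1 (h2 : 0 < θ)
  have e : ∀ x, ∫ y in (0 : ℝ)..θ * w x, F (x, y) =
      θ * ((∫ τ in (0 : ℝ)..1, F (x, θ * w x * τ)) * w x) := fun x => by
    have := intervalIntegral.smul_integral_comp_mul_left (a := 0) (b := 1)
      (fun y => F (x, y)) (θ * w x)
    rw [mul_zero, mul_one, smul_eq_mul] at this
    rw [← this]
    ring
  simp_rw [e] at h1
  rw [intervalIntegral.integral_const_mul] at h1
  exact nonneg_of_mul_nonneg_right h1 h2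

lemma cont_den (hσ : Continuous σ) (hC : ContDiff ℝ ∞ C) : Continuous (den σ C) := by
  have h1 := hC.continuous
  have h2 : Continuous (fderiv ℝ C) := hC.continuous_fderiv (by simp)
  unfold den
  fun_prop

lemma den_nonneg (a : ℝ × ℝ) : 0 ≤ den σ C a := mul_nonneg (exp_pos _).le (abs_nonneg _)

end BisX

open BisX in
theorem bisS (hA : AreaS) (hS : SideS) (hN : NearS) : BisS := by
  intro σ C c j T hσ hC hF hB
  obtain ⟨d, hd, h1, h2⟩ := hC.tube locinv_of
  obtain ⟨Zp, Zm, pp, pm, hu, up, um⟩ := hS C T d hC ⟨hd, h1, h2⟩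
  have cC := hC.smooth.continuous
  have hT := hC.Tpos
  have sp : Side C T d Zp := ⟨cC, hC.unit, hd, h2, pp, hu ▸ subset_union_left, up⟩
  have sm : Side (fun a => C (a.1, -a.2)) T d Zm := by
    refine ⟨by fun_prop, fun a => hC.unit _, hd, fun a a' ha ha' e => ?_, pm, fun y hy => ?_, ?_⟩
    · obtain ⟨k, hk⟩ := h2 (a.1, -a.2) (a'.1, -a'.2) (by simpa using ha) (by simpa using ha') e
      simp only [Prod.mk_add_mk, Prod.mk.injEq, add_zero, neg_inj] at hk
      exact ⟨k, Prod.ext hk.1 (by simpa using hk.2)⟩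
    · have := hu.subset (Or.inr hy)
      refine ⟨this.1, ?_⟩
      rintro ⟨a, ha, rfl⟩
      exact this.2 ⟨(a.1, -a.2), ⟨trivial, by linarith [ha.2.2], by linarith [ha.2.1]⟩, rfl⟩
    · rintro y ⟨a, ha, rfl⟩
      exact um ⟨(a.1, -a.2), ⟨trivial, by linarith [ha.2.2], by linarith [ha.2.1]⟩, rfl⟩
  have hm := sm.half (g := fun _ => 0) (hB 0) (fun _ => rfl) (fun _ => by linarith) fun t =>
    ⟨(t, 0), by simpa using hF.zero t, by simpa using (half_pos hd).le, le_rfl⟩
  have h0 : area σ (C '' (Ico 0 T ×ˢ {0})) = 0 := by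
    rw [hA σ C _ hσ hC.smooth hC.unit (measurableSet_Ico.prod (measurableSet_singleton 0))
      (sp.injOn.mono (Set.prod_mono subset_rfl
        (singleton_subset_iff.2 (mem_Icc.2 ⟨by linarith, by linarith⟩))))]
    refine setLIntegral_measure_zero _ _ ?_
    rw [Measure.volume_eq_prod, Measure.prod_prod]
    simp
  have cov : sphere (0 : E) 1 ⊆ ((Zp ∪ C '' Rg T d fun _ => 0) ∪
      (Zm ∪ (fun a : ℝ × ℝ => C (a.1, -a.2)) '' Rg T d fun _ => 0)) ∪ C '' (Ico 0 T ×ˢ {0}) := by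
    intro y hy
    by_cases hM : y ∈ C '' (univ ×ˢ Icc (-(d / 2)) (d / 2))
    · obtain ⟨a, ha, rfl⟩ := hM
      have hx : toIcoMod hT 0 a.1 ∈ Ico 0 T := by simpa using toIcoMod_mem_Ico hT 0 a.1
      have e : C (toIcoMod hT 0 a.1, a.2) = C a := by
        rw [← hC.per (toIcoDiv hT 0 a.1)]
        exact congrArg C (Prod.ext (by simp) (by simp))
      rcases lt_trichotomy a.2 0 with h | h | h
      · exact Or.inl (Or.inr (Or.inr ⟨(toIcoMod hT 0 a.1, -a.2),
          ⟨hx, by simpa using h, by linarith [ha.2.1]⟩, by simpa using e⟩))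
      · exact Or.inr ⟨(toIcoMod hT 0 a.1, a.2), ⟨hx, h⟩, e⟩
      · exact Or.inl (Or.inl (Or.inr ⟨(toIcoMod hT 0 a.1, a.2), ⟨hx, h, ha.2.2⟩, e⟩))
    · rcases hu.symm.subset ⟨hy, hM⟩ with h | h
      · exact Or.inl (Or.inl (Or.inl h))
      · exact Or.inl (Or.inr (Or.inl h))
  have hp : area σ (sphere 0 1) ≤ 2 * area σ (Zp ∪ C '' Rg T d fun _ => 0) := by
    have a1 := (area_mono (σ := σ) cov).trans (area_union_le _ _)
    rw [h0, add_zero] at a1
    have a2 := mul_le_mul_right (a1.trans (area_union_le _ _)) 2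
    rw [mul_add, two_mul (area σ (sphere 0 1))] at a2
    exact (ENNReal.add_le_add_iff_right (area_ne_top hσ _)).1 (a2.trans (add_le_add_right hm _))
  obtain ⟨B, hBd⟩ := (hF.jper.isBounded_of_continuous hT.ne' hF.jc).exists_norm_le
  have bj : ∀ x, |j x| ≤ B := fun x => hBd _ ⟨x, rfl⟩
  have cd := cont_den hσ hC.smooth
  have cj := hF.jc
  have key : ∀ e : ℝ, |e| = 1 → ∀ ε > 0, 0 ≤ ∫ x in (0 : ℝ)..T, den σ C (x, 0) * (e * j x + ε) := by
    intro e he ε hε
    refine limit_ineq cd (by fun_prop) ?_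
    have t1 : Tendsto (fun θ : ℝ => θ * e) (𝓝 0) (𝓝 0) :=
      Continuous.tendsto' (by fun_prop) _ _ (by simp)
    have t2 : ∀ᶠ θ : ℝ in 𝓝 0, θ * (B + ε) < d / 2 :=
      (isOpen_lt (by fun_prop) continuous_const).mem_nhds (by simpa using hd)
    filter_upwards [nhdsWithin_le_nhds (t1.eventually (hN C c j T hC hF ε hε)),
      nhdsWithin_le_nhds t2, self_mem_nhdsWithin] with θ n1 n2 (n3 : 0 < θ)
    have b1 : ∀ x, |e * j x| ≤ B := fun x => by rw [abs_mul, he, one_mul]; exact bj x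
    have b2 : ∀ x, -(d / 2) ≤ θ * (e * j x + ε) := fun x => by
      nlinarith [(abs_le.1 (b1 x)).1, mul_pos n3 hε]
    have b3 : ∀ x, θ * (e * j x + ε) ≤ d / 2 := fun x => by nlinarith [(abs_le.1 (b1 x)).2]
    have cg : Continuous fun x => θ * (e * j x + ε) := by fun_prop
    have a1 := sp.half (g := fun x => θ * (e * j x + ε)) (hB (θ * e))
      (fun x => by simp only [hF.jper x]) b2 fun t => by
        obtain ⟨a, e1, e2⟩ := n1 t
        rw [abs_mul θ e, he, mul_one, abs_of_pos n3, abs_le] at e2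
        refine ⟨a, e1, abs_le.2 ⟨?_, ?_⟩, ?_⟩
        · nlinarith [(abs_le.1 (b1 a.1)).1, e2.1]
        · nlinarith [b3 a.1, e2.2]
        · nlinarith [e2.2]
    have a2 := (ENNReal.mul_le_mul_iff_right two_ne_zero ENNReal.ofNat_ne_top).1 (a1.trans hp)
    rw [sp.split cg b2, sp.split continuous_const fun _ => by linarith,
      ENNReal.add_le_add_iff_left (area_ne_top hσ _),
      hA σ C _ hσ hC.smooth hC.unit (meas_Rg cg) (sp.injOn.mono (Rg_sub b2)),
      hA σ C _ hσ hC.smooth hC.unit (meas_Rg continuous_const)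
        (sp.injOn.mono (Rg_sub fun _ => by linarith))] at a2
    exact real_ineq cd den_nonneg hT.le hd cg b3 a2
  have i1 : IntervalIntegrable (fun x => den σ C (x, 0) * j x) volume 0 T :=
    Continuous.intervalIntegrable (by fun_prop) _ _
  have i2 : IntervalIntegrable (fun x => den σ C (x, 0)) volume 0 T :=
    Continuous.intervalIntegrable (by fun_prop) _ _
  have key2 : ∀ e : ℝ, |e| = 1 → 0 ≤ e * ∫ x in (0 : ℝ)..T, den σ C (x, 0) * j x := by
    intro e he
    have t : Tendsto (fun ε : ℝ => (e * ∫ x in (0 : ℝ)..T, den σ C (x, 0) * j x) +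
        ε * ∫ x in (0 : ℝ)..T, den σ C (x, 0)) (𝓝 0)
        (𝓝 (e * ∫ x in (0 : ℝ)..T, den σ C (x, 0) * j x)) :=
      Continuous.tendsto' (by fun_prop) _ _ (by simp)
    refine ge_of_tendsto (t.mono_left (nhdsWithin_le_nhds (s := Ioi 0))) ?_
    filter_upwards [self_mem_nhdsWithin] with ε hε
    have := key e he ε hε
    rw [← intervalIntegral.integral_const_mul, ← intervalIntegral.integral_const_mul,
      ← intervalIntegral.integral_add (i1.const_mul _) (i2.const_mul _)]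
    refine this.trans_eq (intervalIntegral.integral_congr fun x _ => ?_)
    ring
  linarith [key2 1 (by simp), key2 (-1) (by simp)]

end Pool.Agent.MP_2291e2_gt.Ab

end
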