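import Mathlib.MeasureTheory.Function.Jacobian
import Mathlib.MeasureTheory.Measure.Lebesgue.VolumeOfBalls
import Mathlib.MeasureTheory.Integral.Prod
import Mathlib.Analysis.SpecialFunctions.Integrals.Basic
import Pool.Agent.MP_2291e2_gt.ab.Spec

/-! The change of variables between the flow box and the ball bundle over the punctured ball. -/

open scoped ContDiff RealInnerProductSpace Topology ENNReal
open MeasureTheory Metric Set Filter Real
open Pool.Agent.MP_2291e2_gt.Zl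

noncomputable section

namespace Pool.Agent.MP_2291e2_gt.Ab

namespace ChgX

lemma norm_mix {u : P} (h : u ∈ U) (θ : ℝ) : ‖cos θ • u.1 + sin θ • u.2‖ = 1 := by
  have h1 : ‖cos θ • u.1 + sin θ • u.2‖ ^ 2 = 1 ^ 2 := by
    rw [← real_inner_self_eq_norm_sq]
    simp only [inner_add_left, inner_add_right, inner_smul_left, inner_smul_right,
      inner_self_U1 h, inner_self_U2 h, inner_U21 h, h.2.2, conj_trivial]
    nlinarith [Real.sin_sq_add_cos_sq θ]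
  exact (pow_left_inj₀ (norm_nonneg _) zero_le_one two_ne_zero).1 h1

lemma inner_mix {u : P} (h : u ∈ U) (θ : ℝ) : ⟪u.1, cos θ • u.1 + sin θ • u.2⟫ = cos θ := by
  rw [inner_add_right, inner_smul_right, inner_smul_right, inner_self_U1 h, h.2.2]; ring

lemma norm_sm {y : E} (h : ‖y‖ = 1) {r : ℝ} (hr : 0 ≤ r) : ‖r • y‖ = r := by
  rw [norm_smul, h, mul_one, Real.norm_of_nonneg hr]

lemma sm_inj {y y' : E} (h : ‖y‖ = 1) (h' : ‖y'‖ = 1) {r r' : ℝ} (hr : 0 < r) (hr' : 0 < r')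
    (e : r • y = r' • y') : r = r' ∧ y = y' := by
  have e1 : r = r' := by rw [← norm_sm h hr.le, e, norm_sm h' hr'.le]
  subst e1
  exact ⟨rfl, smul_right_injective E hr.ne' e⟩

lemma nz_sm {y : E} (h : ‖y‖ = 1) {r : ℝ} (hr : 0 < r) : nz (r • y) = y := by
  rw [nz, norm_sm h hr.le, smul_smul, inv_mul_cancel₀ hr.ne', one_smul]

lemma norm_nz {Y : E} (h : Y ≠ 0) : ‖nz Y‖ = 1 := by
  have h1 : ‖Y‖ ≠ 0 := norm_ne_zero_iff.2 h
  rw [nz, norm_smul, norm_inv, norm_norm, inv_mul_cancel₀ h1]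

lemma sm_nz {Y : E} (h : Y ≠ 0) : ‖Y‖ • nz Y = Y := by
  have h1 : ‖Y‖ ≠ 0 := norm_ne_zero_iff.2 h
  rw [nz, smul_smul, mul_inv_cancel₀ h1, one_smul]

lemma polar {y : E} (h : ‖y‖ = 1) (w : E) : ∃ (v : E) (θ m : ℝ), (y, v) ∈ U ∧ θ ∈ Icc 0 π ∧
    0 ≤ m ∧ w = m • (cos θ • y + sin θ • v) := by
  have hyy : ⟪y, y⟫ = 1 := by rw [real_inner_self_eq_norm_sq, h]; norm_num
  have hn : ⟪y, w - ⟪y, w⟫ • y⟫ = 0 := by
    rw [inner_sub_right, inner_smul_right, hyy]; ring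
  obtain ⟨v, hv, e⟩ : ∃ v : E, (y, v) ∈ U ∧ w - ⟪y, w⟫ • y = ‖w - ⟪y, w⟫ • y‖ • v := by
    by_cases h0 : w - ⟪y, w⟫ • y = 0
    · obtain ⟨v, hv⟩ := exists_U_over h
      exact ⟨v, hv, by rw [h0, norm_zero, zero_smul]⟩
    · refine ⟨nz (w - ⟪y, w⟫ • y), ⟨h, norm_nz h0, ?_⟩, (sm_nz h0).symm⟩
      show ⟪y, nz (w - ⟪y, w⟫ • y)⟫ = 0
      rw [nz, inner_smul_right, hn, mul_zero]
  let c : ℂ := ⟨⟪y, w⟫, ‖w - ⟪y, w⟫ • y‖⟩
  refine ⟨v, c.arg, ‖c‖, hv, ⟨Complex.arg_nonneg_iff.2 (norm_nonneg _), Complex.arg_le_pi c⟩,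
    norm_nonneg _, ?_⟩
  rw [smul_add, smul_smul, smul_smul, Complex.norm_mul_cos_arg, Complex.norm_mul_sin_arg]
  show w = ⟪y, w⟫ • y + ‖w - ⟪y, w⟫ • y‖ • v
  rw [← e]; abel

variable {σ : E → ℝ} {φ : ℝ → P → P} {a b : P → ℝ} {T : ℝ} {u₀ : P}

lemma Pw_mem (hZ : ZFlow φ a b T) (hu : u₀ ∈ U) (z : E) : Pw φ u₀ z ∈ U :=
  hZ.maps _ _ (Phi.Ax_mem hZ hu _)

lemma inj (hZ : ZFlow φ a b T) (hu : u₀ ∈ U) (h3 : Cross3 φ T u₀) :
    InjOn (Ph σ φ u₀) (Bo T) := by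
  rintro z ⟨⟨hx, hβ, ht⟩, hr, hm, hθ⟩ z' ⟨⟨hx', hβ', ht'⟩, hr', hm', hθ'⟩ e
  have hw := Pw_mem hZ hu z.1
  have hw' := Pw_mem hZ hu z'.1
  obtain ⟨e0, ey⟩ := sm_inj hw.1 hw'.1 hr.1 hr'.1 (congrArg Prod.fst e)
  obtain ⟨e1, ev⟩ := sm_inj (norm_mix hw (z.2 2)) (norm_mix hw' (z'.2 2))
    (mul_pos (exp_pos _) hm.1) (mul_pos (exp_pos _) hm'.1) (congrArg Prod.snd e)
  rw [ey] at e1
  have e1' : z.2 1 = z'.2 1 := mul_left_cancel₀ (exp_pos _).ne' e1
  have ec : cos (z.2 2) = cos (z'.2 2) := by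
    rw [← inner_mix hw, ev, ey, inner_mix hw']
  have e2 : z.2 2 = z'.2 2 := injOn_cos (Ioo_subset_Icc_self hθ) (Ioo_subset_Icc_self hθ') ec
  rw [ey, e2] at ev
  have hs : sin (z'.2 2) ≠ 0 := (sin_pos_of_mem_Ioo hθ').ne'
  have ev' := smul_right_injective E hs (add_left_cancel ev)
  have eP : Pw φ u₀ z.1 = Pw φ u₀ z'.1 := Prod.ext ey ev'
  obtain ⟨n, hn⟩ := h3.uniq (z.1 0, z.1 1) (z'.1 0, z'.1 1) (z.1 2) (z'.1 2) hβ hβ' eP
  have f0 : z'.1 0 = z.1 0 + n * T := congrArg Prod.fst hn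
  have f1 : z'.1 1 = z.1 1 := congrArg Prod.snd hn
  have hT := hZ.Tpos
  have n0 : n = 0 := by
    have a1 : (n : ℝ) < 1 := by
      by_contra hc
      have : 1 * T ≤ n * T := mul_le_mul_of_nonneg_right (not_lt.1 hc) hT.le
      linarith [hx.1, hx'.2]
    have a2 : (-1 : ℝ) < n := by
      by_contra hc
      have : n * T ≤ -1 * T := mul_le_mul_of_nonneg_right (not_lt.1 hc) hT.le
      linarith [hx.2, hx'.1]
    have b1 : n < 1 := by exact_mod_cast a1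
    have b2 : -1 < n := by exact_mod_cast a2
    omega
  rw [n0, Int.cast_zero, zero_mul, add_zero] at f0
  have f2 : z.1 2 = z'.1 2 := by
    refine hZ.inj _ (Phi.Ax_mem hZ hu (z.1 0, z.1 1)) ht ht' ?_
    have := ey
    simp only [Pw, f0, f1] at this
    exact this
  exact Prod.ext (ext3 f0.symm f1.symm f2) (ext3 e0 e1' e2)

lemma onto (hZ : ZFlow φ a b T) (hu : u₀ ∈ U) (h3 : Cross3 φ T u₀) :
    Ph σ φ u₀ '' Bc T = Om σ := by
  apply Subset.antisymm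
  · rintro _ ⟨z, ⟨-, hr, hm, -⟩, rfl⟩
    have hw := Pw_mem hZ hu z.1
    have n1 : ‖(Ph σ φ u₀ z).1‖ = z.2 0 := norm_sm hw.1 hr.1.le
    refine ⟨?_, by rw [n1]; exact hr.2, ?_⟩
    · rw [← norm_ne_zero_iff, n1]; exact hr.1.ne'
    · have n2 : nz (Ph σ φ u₀ z).1 = (Pw φ u₀ z.1).1 := nz_sm hw.1 hr.1
      have n3 : ‖(Ph σ φ u₀ z).2‖ = exp (2 * σ (Pw φ u₀ z.1).1 / 3) * z.2 1 :=
        norm_sm (norm_mix hw _) (mul_nonneg (exp_pos _).le hm.1)
      rw [n2, n3]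
      exact mul_lt_of_lt_one_right (exp_pos _) hm.2
  · rintro q ⟨h0, h1, h2⟩
    obtain ⟨v, θ, m, hv, hθ, hm, e⟩ := polar (norm_nz h0) q.2
    have nm : ‖q.2‖ = m := by rw [e]; exact norm_sm (norm_mix hv θ) hm
    obtain ⟨z, t, hz, ez⟩ := h3.surj _ hv
    obtain ⟨n, x, hx, ex⟩ := Cross3A.reduce hZ.Tpos z.1
    obtain ⟨k, s, hs, es⟩ := Cross3A.reduce hZ.Tpos t
    have eP : Pw φ u₀ !₂[x, z.2, s] = (nz q.1, v) := by
      show φ s (Ax φ u₀ (x, z.2)) = _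
      rw [ez, es, Cross3A.per_int hZ (Phi.Ax_mem hZ hu z), ← Phi.Ax_per hZ hu x z.2 n, ← ex]
    have hρ := exp_pos (2 * σ (nz q.1) / 3)
    refine ⟨(!₂[x, z.2, s], !₂[‖q.1‖, m / exp (2 * σ (nz q.1) / 3), θ]),
      ⟨⟨hx, hz, hs⟩, ⟨norm_pos_iff.2 h0, h1⟩, ⟨div_nonneg hm hρ.le, ?_⟩, hθ⟩, ?_⟩
    · show m / exp (2 * σ (nz q.1) / 3) < 1
      rw [div_lt_one hρ, ← nm]; exact h2
    · refine Prod.ext ?_ ?_
      · show ‖q.1‖ • (Pw φ u₀ !₂[x, z.2, s]).1 = q.1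
        rw [eP]; exact sm_nz h0
      · show (exp (2 * σ (Pw φ u₀ !₂[x, z.2, s]).1 / 3) * (m / exp (2 * σ (nz q.1) / 3))) •
          (cos θ • (Pw φ u₀ !₂[x, z.2, s]).1 + sin θ • (Pw φ u₀ !₂[x, z.2, s]).2) = q.2
        rw [eP, mul_div_cancel₀ _ hρ.ne']; exact e.symm

def e3 (a : ℝ × ℝ × ℝ) : E := !₂[a.1, a.2.1, a.2.2]

def eq3 : E ≃ᵐ ℝ × ℝ × ℝ :=
  (MeasurableEquiv.toLp 2 (Fin 3 → ℝ)).symm.trans
    ((MeasurableEquiv.piFinSuccAbove (fun _ : Fin 3 => ℝ) 0).trans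
      (MeasurableEquiv.prodCongr (MeasurableEquiv.refl ℝ) MeasurableEquiv.finTwoArrow))

lemma eq3_apply (z : E) : eq3 z = (z 0, z 1, z 2) := rfl

lemma eq3_pres : MeasurePreserving eq3 :=
  (((MeasurePreserving.id volume).prod (volume_preserving_finTwoArrow ℝ)).comp
    (volume_preserving_piFinSuccAbove (fun _ : Fin 3 => ℝ) 0)).comp
      (PiLp.volume_preserving_ofLp (Fin 3))

lemma box (g : ℝ × ℝ × ℝ → ℝ) (hg : Continuous g) {s0 s1 s2 : Set ℝ} {c : ℝ}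
    (h0 : s0 ⊆ Icc 0 c) (h1 : s1 ⊆ Icc 0 c) (h2 : s2 ⊆ Icc 0 c) :
    ∫ z in {z : E | z 0 ∈ s0 ∧ z 1 ∈ s1 ∧ z 2 ∈ s2}, g (z 0, z 1, z 2) =
      ∫ x in s0, ∫ y in s1, ∫ t in s2, g (x, y, t) := by
  have e := eq3_pres.setIntegral_preimage_emb eq3.measurableEmbedding g (s0 ×ˢ s1 ×ˢ s2)
  have i1 : IntegrableOn g (s0 ×ˢ s1 ×ˢ s2) ((volume : Measure ℝ).prod volume) :=
    (hg.continuousOn.integrableOn_compact
      (isCompact_Icc.prod (isCompact_Icc.prod isCompact_Icc))).mono_set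
      (prod_mono h0 (prod_mono h1 h2))
  have i2 : ∀ x, IntegrableOn (fun p : ℝ × ℝ => g (x, p)) (s1 ×ˢ s2)
      ((volume : Measure ℝ).prod volume) := fun x =>
    ((hg.comp (Continuous.prodMk_right x)).continuousOn.integrableOn_compact
      (isCompact_Icc.prod isCompact_Icc)).mono_set (prod_mono h1 h2)
  refine Eq.trans e ((setIntegral_prod g i1).trans ?_)
  refine congrArg _ (funext fun x => ?_)
  exact setIntegral_prod _ (i2 x)

lemma radial : ∫ z in {z : E | z 0 ∈ Ioo (0 : ℝ) 1 ∧ z 1 ∈ Ioo (0 : ℝ) 1 ∧ z 2 ∈ Ioo 0 π},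
    z 0 ^ 2 * z 1 ^ 2 * sin (z 2) = 2 / 9 := by
  have hπ : (1 : ℝ) ≤ π := by linarith [two_le_pi]
  have s1 : Ioo (0 : ℝ) 1 ⊆ Icc 0 π := fun x hx => ⟨hx.1.le, hx.2.le.trans hπ⟩
  have e := box (fun p => p.1 ^ 2 * p.2.1 ^ 2 * sin p.2.2) (by fun_prop) s1 s1
    (Ioo_subset_Icc_self (a := 0) (b := π))
  have a1 : ∫ t in Ioo 0 π, sin t = 2 := by
    rw [← integral_Ioc_eq_integral_Ioo, ← intervalIntegral.integral_of_le pi_pos.le, integral_sin]
    simp; norm_num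
  have a2 : ∫ t in Ioo (0 : ℝ) 1, t ^ 2 = 1 / 3 := by
    rw [← integral_Ioc_eq_integral_Ioo, ← intervalIntegral.integral_of_le zero_le_one,
      integral_pow]
    norm_num
  refine e.trans ?_
  simp only [integral_const_mul, integral_mul_const, a1, a2]
  norm_num

lemma flowbox (hZ : ZFlow φ a b T) {F : E → ℝ} (hF : Continuous F) :
    ∫ z in {z : E | z 0 ∈ Ico 0 T ∧ z 1 ∈ Ioo 0 π ∧ z 2 ∈ Ico 0 T},
      sin (z 1) * F (Pw φ u₀ z).1 = ∫ x in (0 : ℝ)..T, ∫ β in (0 : ℝ)..π,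
        sin β * ∫ t in (0 : ℝ)..T, F (φ t (Ax φ u₀ (x, β))).1 := by
  have hT := hZ.Tpos
  have s0 : Ico 0 T ⊆ Icc 0 (T + π) := fun x hx => ⟨hx.1, by linarith [hx.2, pi_pos]⟩
  have s1 : Ioo 0 π ⊆ Icc 0 (T + π) := fun x hx => ⟨hx.1.le, by linarith [hx.2]⟩
  have c1 : Continuous fun p : ℝ × ℝ × ℝ => φ p.2.2 (Ax φ u₀ (p.1, p.2.1)) :=
    hZ.smooth.continuous.comp ((continuous_snd.comp continuous_snd).prodMk
      ((Cross2.contDiff_Ax hZ).continuous.comp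
        (continuous_fst.prodMk (continuous_fst.comp continuous_snd))))
  have e := box (fun p => sin p.2.1 * F (φ p.2.2 (Ax φ u₀ (p.1, p.2.1))).1)
    ((continuous_sin.comp (continuous_fst.comp continuous_snd)).mul
      (hF.comp (continuous_fst.comp c1))) s0 s1 s0
  refine e.trans ?_
  simp only [intervalIntegral.integral_of_le hT.le, intervalIntegral.integral_of_le pi_pos.le,
    integral_Ioc_eq_integral_Ioo, integral_Ico_eq_integral_Ioo, integral_const_mul]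

lemma meas_nz : Measurable nz := by unfold nz; fun_prop

lemma fibre (hσ : Continuous σ) {F : E → ℝ} (hF : Continuous F) :
    ∫ q in Om σ, F (nz q.1) ∂((volume : Measure E).prod volume) =
      4 * π / 3 * ∫ Y in ball (0 : E) 1, F (nz Y) * exp (2 * σ (nz Y)) := by
  have m1 : Measurable fun q : P => nz q.1 := meas_nz.comp measurable_fst
  have mO : MeasurableSet (Om σ) := by
    refine MeasurableSet.inter ?_ (MeasurableSet.inter ?_ ?_)
    · exact measurable_fst (measurableSet_singleton (0 : E)).compl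
    · exact measurableSet_lt measurable_fst.norm measurable_const
    · exact measurableSet_lt measurable_snd.norm
        (measurable_exp.comp (((hσ.measurable.comp m1).const_mul 2).div_const 3))
  obtain ⟨M, hM⟩ := (isCompact_sphere (0 : E) 1).exists_bound_of_continuousOn hF.continuousOn
  obtain ⟨R, hR⟩ := (isCompact_sphere (0 : E) 1).exists_bound_of_continuousOn
    (f := fun y => exp (2 * σ y / 3)) (by fun_prop)
  have fin : ((volume : Measure E).prod volume) (Om σ) ≠ ⊤ := by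
    refine ((measure_mono (t := closedBall (0 : E) 1 ×ˢ closedBall (0 : E) R) ?_).trans_lt
      ((isCompact_closedBall _ _).prod (isCompact_closedBall _ _)).measure_lt_top).ne
    rintro q ⟨h0, h1, h2⟩
    refine ⟨mem_closedBall_zero_iff.2 h1.le, mem_closedBall_zero_iff.2 (h2.le.trans ?_)⟩
    exact (le_abs_self _).trans (hR _ (mem_sphere_zero_iff_norm.2 (norm_nz h0)))
  have int : IntegrableOn (fun q : P => F (nz q.1)) (Om σ) ((volume : Measure E).prod volume) := by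
    refine Measure.integrableOn_of_bounded (M := M) fin
      (hF.measurable.comp m1).aestronglyMeasurable ?_
    exact (ae_restrict_iff' mO).2 (Eventually.of_forall fun q hq =>
      hM _ (mem_sphere_zero_iff_norm.2 (norm_nz hq.1)))
  have inner : ∀ Y : E, ∫ w : E, (Om σ).indicator (fun q : P => F (nz q.1)) (Y, w) =
      (ball (0 : E) 1 \ {0}).indicator
        (fun Y => 4 * π / 3 * (F (nz Y) * exp (2 * σ (nz Y)))) Y := by
    intro Y
    by_cases hY : Y ∈ ball (0 : E) 1 \ {0}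
    · have e : (fun w : E => (Om σ).indicator (fun q : P => F (nz q.1)) (Y, w)) =
          (ball (0 : E) (exp (2 * σ (nz Y) / 3))).indicator fun _ => F (nz Y) := by
        funext w
        by_cases hw : w ∈ ball (0 : E) (exp (2 * σ (nz Y) / 3))
        · rw [indicator_of_mem hw, indicator_of_mem
            (show (Y, w) ∈ Om σ from ⟨hY.2, mem_ball_zero_iff.1 hY.1, mem_ball_zero_iff.1 hw⟩)]
        · rw [indicator_of_notMem hw, indicator_of_notMem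
            (show (Y, w) ∉ Om σ from fun h => hw (mem_ball_zero_iff.2 h.2.2))]
      have e3 : exp (2 * σ (nz Y) / 3) ^ 3 = exp (2 * σ (nz Y)) := by
        rw [← exp_nat_mul]; congr 1; push_cast; ring
      rw [e, indicator_of_mem hY, integral_indicator_const _ measurableSet_ball, Measure.real,
        EuclideanSpace.volume_ball_fin_three, ENNReal.toReal_mul, ENNReal.toReal_pow,
        ENNReal.toReal_ofReal (exp_pos _).le, ENNReal.toReal_ofReal (by positivity), e3,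
        smul_eq_mul]
      ring
    · rw [indicator_of_notMem hY]
      have e : (fun w : E => (Om σ).indicator (fun q : P => F (nz q.1)) (Y, w)) = fun _ => 0 := by
        funext w
        exact indicator_of_notMem (fun h => hY ⟨mem_ball_zero_iff.2 h.2.1, h.1⟩) _
      rw [e, integral_zero]
  rw [← integral_indicator mO, integral_prod _ ((integrable_indicator_iff mO).2 int)]
  simp only [inner]
  rw [integral_indicator (measurableSet_ball.diff (measurableSet_singleton _)),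
    setIntegral_congr_set (sdiff_null_ae_eq_self (measure_singleton _)), integral_const_mul]

end ChgX

theorem bijS : BijS := fun _ _ _ _ _ hC _ hu h3 => ⟨ChgX.inj hC.z hu h3, ChgX.onto hC.z hu h3⟩

theorem chgS (hD : JDetS) : ChgS := by
  intro σ φ a b T hC u₀ hu h3 F hF
  obtain ⟨hs, hd⟩ := hD σ φ a b T hC u₀ hu
  have hf : ∀ (s : Set P), ∀ z ∈ s, HasFDerivWithinAt (Ph σ φ u₀) (fderiv ℝ (Ph σ φ u₀) z) s z :=
    fun s z _ => ((hs.differentiable (by simp)) z).hasFDerivAt.hasFDerivWithinAt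
  have eB : Bo T = {z : E | z 0 ∈ Ico 0 T ∧ z 1 ∈ Ioo 0 π ∧ z 2 ∈ Ico 0 T} ×ˢ
      {z : E | z 0 ∈ Ioo (0 : ℝ) 1 ∧ z 1 ∈ Ioo (0 : ℝ) 1 ∧ z 2 ∈ Ioo 0 π} := rfl
  have mc : ∀ i : Fin 3, Measurable fun z : E => z i := fun i => by fun_prop
  have mB : MeasurableSet (Bo T) := by
    rw [eB]
    exact ((mc 0 measurableSet_Ico).inter ((mc 1 measurableSet_Ioo).inter
      (mc 2 measurableSet_Ico))).prod ((mc 0 measurableSet_Ioo).inter
        ((mc 1 measurableSet_Ioo).inter (mc 2 measurableSet_Ioo)))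
  have sub : Bo T ⊆ Bc T := fun z hz =>
    ⟨⟨hz.1.1, Ioo_subset_Icc_self hz.1.2.1, hz.1.2.2⟩, hz.2.1, Ioo_subset_Ico_self hz.2.2.1,
      Ioo_subset_Icc_self hz.2.2.2⟩
  have hsin : ∀ x ∈ Icc 0 π, x ∉ Ioo 0 π → sin x = 0 := by
    intro x hx hx'
    rcases hx.1.eq_or_lt with h | h
    · rw [← h, sin_zero]
    · rw [le_antisymm hx.2 (not_lt.1 fun h' => hx' ⟨h, h'⟩), sin_pi]
  have null : ((volume : Measure E).prod volume) (Ph σ φ u₀ '' (Bc T \ Bo T)) = 0 := by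
    refine addHaar_image_eq_zero_of_det_fderivWithin_eq_zero _ (hf _) ?_
    rintro z ⟨⟨⟨hx, hβ, ht⟩, hr, hm, hθ⟩, hz⟩
    rw [← abs_eq_zero, hd z]
    by_cases c1 : z.1 1 ∈ Ioo 0 π
    · by_cases c2 : z.2 2 ∈ Ioo 0 π
      · have c3 : z.2 1 = 0 := by
          by_contra h
          exact hz ⟨⟨hx, c1, ht⟩, hr, ⟨lt_of_le_of_ne hm.1 (Ne.symm h), hm.2⟩, c2⟩
        rw [c3]; ring
      · rw [hsin _ hθ c2, abs_zero]; ring
    · rw [hsin _ hβ c1, abs_zero]; ring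
  have ae : Om σ =ᵐ[(volume : Measure E).prod volume] Ph σ φ u₀ '' Bo T := by
    rw [← ChgX.onto hC.z hu h3, ← union_sdiff_cancel sub, image_union]
    exact union_ae_eq_left_of_ae_eq_empty (ae_eq_empty.2 null)
  rw [← ChgX.fibre hC.sm.continuous hF, setIntegral_congr_set ae,
    integral_image_eq_integral_abs_det_fderiv_smul _ mB (hf _) (ChgX.inj hC.z hu h3),
    ← ChgX.flowbox hC.z hF, ← ChgX.radial, mul_comm, ← setIntegral_prod_mul, ← eB]
  refine setIntegral_congr_fun mB fun z hz => ?_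
  have n2 : nz (Ph σ φ u₀ z).1 = (Pw φ u₀ z.1).1 :=
    ChgX.nz_sm (ChgX.Pw_mem hC.z hu z.1).1 hz.2.1.1
  simp only [hd z, n2, smul_eq_mul, abs_of_pos (sin_pos_of_mem_Ioo hz.2.2.2),
    abs_of_pos (sin_pos_of_mem_Ioo hz.1.2.1)]
  ring

end Pool.Agent.MP_2291e2_gt.Ab

end
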