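import Pool.Agent.MP_2291e2_gt.ab.Spec

/-! Row Flow: the geodesic flow of a conformal metric and its Jacobi equation. -/

open scoped ContDiff RealInnerProductSpace Topology
open Set Filter Real
open Pool.Agent.MP_2291e2_gt.Zl

noncomputable section

namespace Pool.Agent.MP_2291e2_gt.Ab

namespace FlowX

variable {σ : E → ℝ} {y z : ℝ → E} {y' z' : E} {t : ℝ}

lemma d0 (h : ContDiff ℝ ∞ σ) (hy : HasDerivAt y y' t) :
    HasDerivAt (fun s => σ (y s)) (D1 σ (y t) y') t :=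
  (h.differentiable (by simp) _).hasFDerivAt.comp_hasDerivAt t hy

lemma smD (h : ContDiff ℝ ∞ σ) : ContDiff ℝ ∞ (fderiv ℝ σ) := h.fderiv_right (by simp)

lemma d1 (h : ContDiff ℝ ∞ σ) (hy : HasDerivAt y y' t) (hz : HasDerivAt z z' t) :
    HasDerivAt (fun s => D1 σ (y s) (z s)) (D2 σ (y t) y' (z t) + D1 σ (y t) z') t :=
  (((smD h).differentiable (by simp) _).hasFDerivAt.comp_hasDerivAt t hy).clm_apply hz

lemma dfst {c : ℝ → P} {δ : P} (hc : HasDerivAt c δ t) : HasDerivAt (fun s => (c s).1) δ.1 t :=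
  (ContinuousLinearMap.fst ℝ E E).hasFDerivAt.comp_hasDerivAt t hc

lemma dsnd {c : ℝ → P} {δ : P} (hc : HasDerivAt c δ t) : HasDerivAt (fun s => (c s).2) δ.2 t :=
  (ContinuousLinearMap.snd ℝ E E).hasFDerivAt.comp_hasDerivAt t hc

lemma fdL (h : ContDiff ℝ ∞ σ) (u δ : P) : fderiv ℝ (Lc σ) u δ =
    exp (2 * σ u.1) * (D1 σ u.1 δ.1 * ‖u.2‖ ^ 2 + ⟪u.2, δ.2⟫) := by
  have h1 : HasFDerivAt (fun u : P => σ u.1) _ u :=
    (h.differentiable (by simp) u.1).hasFDerivAt.comp u hasFDerivAt_fst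
  have h2 := (((h1.const_mul 2).exp.mul (hasFDerivAt_snd (𝕜 := ℝ) (p := u)).norm_sq).mul_const
    (2 : ℝ)⁻¹).fderiv
  rw [show Lc σ = fun u : P => exp (2 * σ u.1) * ‖u.2‖ ^ 2 * 2⁻¹ from rfl]
  refine (congrArg (fun L : P →L[ℝ] ℝ => L δ) h2).trans ?_
  simp [D1]
  ring

/-- the geodesic vector field -/
def X (σ : E → ℝ) (w : P) : P :=
  (exp (-σ w.1) • w.2, exp (-σ w.1) • (-w.1 + D1 σ w.1 (cr w.1 w.2) • cr w.1 w.2))

/-- its derivative -/
def DX (σ : E → ℝ) (w δ : P) : P :=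
  (exp (-σ w.1) • δ.2 + (exp (-σ w.1) * -D1 σ w.1 δ.1) • w.2,
    exp (-σ w.1) • (-δ.1 + (D1 σ w.1 (cr w.1 w.2) • (cr δ.1 w.2 + cr w.1 δ.2) +
      (D2 σ w.1 δ.1 (cr w.1 w.2) + D1 σ w.1 (cr δ.1 w.2 + cr w.1 δ.2)) • cr w.1 w.2)) +
    (exp (-σ w.1) * -D1 σ w.1 δ.1) • (-w.1 + D1 σ w.1 (cr w.1 w.2) • cr w.1 w.2))

lemma Xsm (h : ContDiff ℝ ∞ σ) : Differentiable ℝ (X σ) := by
  have h1 : ContDiff ℝ ∞ fun w : P => exp (-σ w.1) := (h.comp contDiff_fst).neg.exp
  have h2 : ContDiff ℝ ∞ fun w : P => cr w.1 w.2 := ContDiff.cr' contDiff_fst contDiff_snd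
  exact ((h1.smul contDiff_snd).prodMk (h1.smul (contDiff_fst.neg.add
    ((((smD h).comp contDiff_fst).clm_apply h2).smul h2)))).differentiable (by simp)

lemma Xd (h : ContDiff ℝ ∞ σ) (w δ : P) : fderiv ℝ (X σ) w δ = DX σ w δ := by
  have hc : HasDerivAt (fun s : ℝ => w + s • δ) δ 0 := by
    simpa using ((hasDerivAt_id (0 : ℝ)).smul_const δ).const_add w
  have e := (d0 h (dfst hc)).fun_neg.exp
  have n := hasDerivAt_cr (dfst hc) (dsnd hc)
  have k := (e.fun_smul (dsnd hc)).prodMk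
    (e.fun_smul ((dfst hc).fun_neg.fun_add ((d1 h (dfst hc) n).fun_smul n)))
  have k2 := ((Xsm h _).hasFDerivAt.comp_hasDerivAt 0 hc).unique k
  simpa only [zero_smul, add_zero, DX] using k2

lemma W_xi {a b : P → ℝ} {u : P} (hu : u ∈ U) :
    W u (xi a b u) = (a u • u.2, -(a u • u.1) + b u • cr u.1 u.2) := by
  simp [W, xi, cr_add_left, cr_smul_left, cr_cr_left, hu.1, hu.2.1, hu.2.2, inner_U21 hu]

lemma ode {φ : ℝ → P → P} {a b : P → ℝ} {T : ℝ} (h : CF σ φ a b T) {u : P} (hu : u ∈ U) (t : ℝ) :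
    HasDerivAt (fun t => φ t u) (X σ (φ t u)) t := by
  have hw := h.z.maps t u hu
  refine (h.z.ode u hu t).congr_deriv ?_
  rw [W_xi hw, h.ha _ hw, h.hb _ hw, X, smul_add, smul_neg, smul_smul]

lemma W_frame {u : P} (hu : u ∈ U) (ξ : E) : ∃ p q r : ℝ,
    W u ξ = (p • u.2 + q • cr u.1 u.2, -(p • u.1) + r • cr u.1 u.2) := by
  refine ⟨⟪ξ, cr u.1 u.2⟫, -⟪ξ, u.2⟫, ⟪ξ, u.1⟫, ?_⟩
  conv_lhs => rw [frameU hu ξ]
  simp only [W, cr_add_left, cr_smul_left, cr_self, cr_cr_left, inner_self_U1 hu, inner_self_U2 hu,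
    inner_U21 hu, hu.2.2, cr_anti u.2 u.1]
  refine Prod.ext ?_ ?_ <;> dsimp only <;> module

end FlowX

open FlowX

theorem flowS : FlowS := by
  intro σ hσ ⟨hF, l, hl, hz⟩
  obtain ⟨φ, a, b, p, G⟩ := geo_all _ hF
  have e2 : ∀ x : ℝ, exp (2 * x) * exp (-x) = exp x := fun x => by
    rw [← exp_add]
    congr 1
    ring
  have e1 : ∀ x : ℝ, exp x * exp (-x) = 1 := fun x => by rw [← exp_add, add_neg_cancel, exp_zero]
  have ha : ∀ u ∈ U, a u = exp (-σ u.1) := fun u hu => by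
    have h1 := G.unit u hu
    simp only [Lc, norm_smul, hu.2.1, mul_one, Real.norm_eq_abs, sq_abs] at h1
    refine (pow_left_inj₀ (G.flow.apos u hu).le (exp_pos _).le two_ne_zero).1
      (mul_left_cancel₀ (exp_pos (2 * σ u.1)).ne' ?_)
    rw [sq (exp _), ← mul_assoc, e2, e1]
    linarith
  refine ⟨φ, a, b, l, ⟨hσ, Main.zflow G hl hz, ha, fun u hu => ?_⟩, G.geo⟩
  have h0 := G.flow.zero u
  have hd : ∀ s, deriv (fun t => (φ t u).1) s = exp (-σ (φ s u).1) • (φ s u).2 := fun s => by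
    rw [(Main.base_deriv G.flow hu s).deriv, ha _ (G.flow.maps s u hu)]
  have h1 := (G.geo u hu).euler 0 (cr u.1 u.2) (by simp [h0])
  have h2 := ((d0 hσ (dfst (G.flow.ode u hu 0))).exp.fun_mul
    (hasDerivAt_inner (dsnd (G.flow.ode u hu 0)) (hasDerivAt_const 0 (cr u.1 u.2)))).deriv
  simp only [fdL hσ, hd, D1, map_zero, zero_mul, zero_add, inner_smul_left, conj_trivial,
    ← mul_assoc, e2, inner_zero_right, add_zero] at h1
  rw [h2] at h1
  simp only [h0, W_xi hu, inner_add_left, inner_neg_left, inner_smul_left, inner_cr_left,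
    inner_cr_right, real_inner_self_eq_norm_sq, norm_cr_U hu, conj_trivial, norm_smul, hu.2.1,
    Real.norm_eq_abs, sq_abs, mul_one, inner_zero_right] at h1
  refine mul_left_cancel₀ (exp_pos (σ u.1)).ne' ?_
  rw [← mul_assoc, e1, D1]
  linear_combination h1 + (fderiv ℝ σ u.1 (cr u.1 u.2) * exp (-σ u.1)) * e2 (σ u.1) +
    fderiv ℝ σ u.1 (cr u.1 u.2) * e1 (σ u.1)

theorem jacS (hL : LapS) : JacS := by
  intro σ φ a b T h u hu ζ t
  have hσ := h.sm
  have hw := h.z.maps t u hu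
  have sm : Differentiable ℝ (φ t) :=
    (h.z.smooth.comp (contDiff_const.prodMk contDiff_id)).differentiable (by simp)
  have hη : HasDerivAt (eta φ u ζ) (DX σ (φ t u) (eta φ u ζ t)) t := by
    refine (hasDerivAt_dW_time (f := φ) (g := fun w => X σ (φ t w)) hu h.z.smooth.contDiffAt
      ((Xsm hσ _).comp u (sm u)) (fun w hw => ode h hw t) ζ).congr_deriv ?_
    rw [← Xd hσ]
    exact congrArg (fun L : P →L[ℝ] P => L (W u ζ)) (fderiv_comp u (Xsm hσ _) (sm u))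
  obtain ⟨p, q, r, he⟩ : ∃ p q r : ℝ, eta φ u ζ t = (p • (φ t u).2 + q • cr (φ t u).1 (φ t u).2,
      -(p • (φ t u).1) + r • cr (φ t u).1 (φ t u).2) := by
    obtain ⟨c, hc, c0, cU, cd⟩ := exists_curve hu ζ
    have k := (sm (c 0)).hasFDerivAt.comp_hasDerivAt 0 (cd 0)
    obtain ⟨ξ, hξ⟩ := exists_W_hasDerivAt k (Eventually.of_forall fun s => h.z.maps t _ (cU s))
    simp only [Function.comp_apply, c0] at hξ
    rw [eta, hξ]
    exact W_frame hw ξ
  have dy := dfst (ode h hu t)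
  have dv := dsnd (ode h hu t)
  have dn := hasDerivAt_cr dy dv
  have de := (d0 hσ dy).exp
  have iv := hasDerivAt_inner (dfst hη) dv
  have im := hasDerivAt_inner (dfst hη) dn
  have lap := (hL σ hσ).2.1 _ hw
  have k1 := inner_self_U1 hw
  have k2 := inner_self_U2 hw
  have k3 := hw.2.2
  have k4 := inner_U21 hw
  have k5 : ⟪cr (φ t u).1 (φ t u).2, cr (φ t u).1 (φ t u).2⟫ = 1 := by
    rw [real_inner_self_eq_norm_sq, norm_cr_U hw, one_pow]
  have k6 := cr_cr_U hw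
  have k7 : cr (cr (φ t u).1 (φ t u).2) (φ t u).2 = -(φ t u).1 := by
    rw [cr_cr_left, k3, k2, zero_smul, one_smul, zero_sub]
  have ee : exp (-(2 * σ (φ t u).1)) = exp (-σ (φ t u).1) ^ 2 := by
    rw [sq, ← exp_add]
    congr 1
    ring
  refine ⟨(de.fun_mul iv).congr_deriv ?_, (de.fun_mul im).congr_deriv ?_,
    (((hasDerivAt_inner (dsnd hη) dn).fun_add ((d1 hσ dy dv).fun_mul im)).fun_sub
      ((d1 hσ dy dn).fun_mul iv)).congr_deriv ?_⟩
  all_goals
    simp only [fP, fJ, Kf, lap, ee, he, X, DX, D1, D2, inner_add_left, inner_add_right,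
      inner_smul_left, inner_smul_right, inner_neg_left, inner_neg_right, conj_trivial,
      cr_add_left, cr_add_right, cr_smul_left, cr_smul_right, cr_neg_right, cr_self,
      k1, k2, k3, k4, k5, k6, k7, inner_cr_left, inner_cr_right, cr_inner_left, cr_inner_right,
      map_add, map_smul, map_neg, map_zero, add_apply,
      smul_apply, smul_eq_mul, inner_zero_left, inner_zero_right, smul_zero,
      exp_neg]
    field_simp
    ring

end Pool.Agent.MP_2291e2_gt.Ab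

end
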