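import Pool.Agent.MP_2291e2_gt.ab.Spec
import Mathlib.Analysis.Calculus.MeanValue
import Mathlib.Analysis.Calculus.Deriv.MeanValue
import Mathlib.Analysis.Calculus.Deriv.Slope
import Mathlib.MeasureTheory.Integral.IntervalIntegral.FundThmCalculus

/-! The index form is nonnegative on periodic functions of mean zero. -/

open scoped ContDiff RealInnerProductSpace Topology ENNReal
open MeasureTheory Metric Set Filter Real
open Pool.Agent.MP_2291e2_gt.Zl

noncomputable section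

namespace Pool.Agent.MP_2291e2_gt.Ab

namespace IdxX

lemma cont {f f' : ℝ → ℝ} (h : ∀ t, HasDerivAt f (f' t) t) : Continuous f :=
  continuous_iff_continuousAt.2 fun t => (h t).continuousAt

lemma prim {f : ℝ → ℝ} (h : Continuous f) (a t : ℝ) :
    HasDerivAt (fun u => ∫ x in a..u, f x) (f t) t :=
  intervalIntegral.integral_hasDerivAt_right (h.intervalIntegrable _ _)
    (h.stronglyMeasurableAtFilter _ _) h.continuousAt

lemma mono_le {F F' : ℝ → ℝ} {p q : ℝ} (hpq : p < q) (hc : ContinuousOn F (Icc p q))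
    (hd : ∀ t ∈ Ioo p q, HasDerivAt F (F' t) t) (h0 : ∀ t ∈ Ioo p q, 0 ≤ F' t) : F p ≤ F q := by
  obtain ⟨c, hc, e⟩ := exists_hasDerivAt_eq_slope F F' hpq hc hd
  have h := h0 c hc
  rw [e, le_div_iff₀ (sub_pos.2 hpq)] at h
  linarith

lemma quot {g J : ℝ → ℝ} {a b p : ℝ} (hg : HasDerivAt g a p) (hJ : HasDerivAt J b p)
    (g0 : g p = 0) (J0 : J p = 0) (hb : b ≠ 0) :
    Tendsto (fun t => g t / J t) (𝓝[≠] p) (𝓝 (a / b)) := by
  refine (hg.tendsto_slope.div hJ.tendsto_slope hb).congr' ?_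
  filter_upwards [self_mem_nhdsWithin] with t ht
  have h : t - p ≠ 0 := sub_ne_zero.2 ht
  simp only [Pi.div_apply, slope_def_field, g0, J0, sub_zero]
  rw [div_div_div_cancel_right₀ h]

lemma contAt {F : ℝ → ℝ} {p : ℝ} (h0 : F p = 0) (h : Tendsto F (𝓝[≠] p) (𝓝 0)) :
    ContinuousAt F p := by
  rw [← continuousWithinAt_compl_self, ContinuousWithinAt, h0]
  exact h

lemma picone {K J P g g' : ℝ → ℝ} {p q : ℝ} (hpq : p < q) (hK : Continuous K)
    (hJ : ∀ t, HasDerivAt J (P t) t) (hP : ∀ t, HasDerivAt P (-(K t * J t)) t)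
    (hg : ∀ t, HasDerivAt g (g' t) t) (hg' : Continuous g') (hne : ∀ t ∈ Ioo p q, J t ≠ 0)
    (Jp : J p = 0) (Jq : J q = 0) (Pp : P p ≠ 0) (Pq : P q ≠ 0) (gp : g p = 0) (gq : g q = 0) :
    0 ≤ ∫ t in p..q, (g' t ^ 2 - K t * g t ^ 2) := by
  have cg := cont hg
  have cP := cont hP
  have cJ := cont hJ
  have c1 : Continuous fun t => g' t ^ 2 - K t * g t ^ 2 := by fun_prop
  have hend : ∀ r, J r = 0 → P r ≠ 0 → g r = 0 →
      ContinuousAt (fun t => g t * P t * (g t / J t)) r := fun r h1 h2 h3 => by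
    refine contAt (by simp [h3]) ?_
    have h4 := ((cg.mul cP).tendsto r).mono_left (nhdsWithin_le_nhds (s := {r}ᶜ))
    have h5 := h4.mul (quot (hg r) (hJ r) h3 h1 h2)
    simpa [h3] using h5
  have key := mono_le (F := fun t => (∫ x in p..t, (g' x ^ 2 - K x * g x ^ 2)) -
      g t * P t * (g t / J t)) (F' := fun t => (g' t - g t * P t / J t) ^ 2) hpq
    ((cont (prim c1 p)).continuousOn.sub fun t ht => ?_) (fun t ht => ?_) fun t _ => sq_nonneg _
  · simpa [gp, gq] using key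
  · refine ContinuousAt.continuousWithinAt ?_
    rcases ht.1.eq_or_lt with e | h1
    · exact e ▸ hend p Jp Pp gp
    rcases ht.2.eq_or_lt with e | h2
    · exact e ▸ hend q Jq Pq gq
    exact (cg.mul cP).continuousAt.mul (cg.continuousAt.div cJ.continuousAt (hne t ⟨h1, h2⟩))
  · have h1 := hne t ht
    refine ((prim c1 p t).sub (((hg t).mul (hP t)).mul ((hg t).div (hJ t) h1))).congr_deriv ?_
    simp only [Pi.mul_apply, Pi.div_apply]
    field_simp
    ring

variable {T : ℝ} {K J1 P1 J2 P2 : ℝ → ℝ}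

lemma wr (H : Hill T K J1 P1 J2 P2) (t : ℝ) : J2 t * P1 t - J1 t * P2 t = 1 := by
  have h : ∀ t, HasDerivAt (fun t => J2 t * P1 t - J1 t * P2 t) 0 t := fun t =>
    (((H.d2 t).mul (H.e1 t)).sub ((H.d1 t).mul (H.e2 t))).congr_deriv (by ring)
  have h2 := is_const_of_deriv_eq_zero (fun t => (h t).differentiableAt) (fun t => (h t).deriv) t 0
  obtain ⟨a, b, c, d⟩ := H.i0
  rw [h2, a, b, c, d]
  norm_num

lemma neg (H : Hill T K J1 P1 J2 P2) {t : ℝ} (ht : t ∈ Ioo 0 T) (h : J1 t = 0) : P1 t < 0 := by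
  refine lt_of_le_of_ne (H.once t ht h) fun e => ?_
  have := wr H t
  rw [h, e] at this
  norm_num at this

lemma stay (H : Hill T K J1 P1 J2 P2) {a b : ℝ} (ha : 0 < a) (hab : a < b) (hb : b < T)
    (h : J1 a ≤ 0) : J1 b < 0 := by
  obtain ⟨c, h1, h2⟩ := exists_between hb
  have h3 := image_le_of_deriv_right_lt_deriv_boundary (a := a) (b := c) (cont H.d1).continuousOn
    (fun x _ => (H.d1 x).hasDerivWithinAt) (B := fun _ => 0) (B' := fun _ => 0) h
    (fun x => hasDerivAt_const x 0) fun x hx e => neg H ⟨ha.trans_le hx.1, hx.2.trans h2⟩ e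
  refine lt_of_le_of_ne (h3 ⟨hab.le, h1.le⟩) fun e => ?_
  have h4 : IsLocalMax J1 b := by
    filter_upwards [Icc_mem_nhds hab h1] with x hx
    exact (h3 hx).trans_eq e.symm
  exact (neg H ⟨ha.trans hab, hb⟩ e).ne (h4.hasDerivAt_eq_zero (H.d1 b))

lemma zero (H : Hill T K J1 P1 J2 P2) : ∃ s ∈ Ioo 0 T, J1 s = 0 ∧ (∀ t ∈ Ioo 0 s, 0 < J1 t) ∧
    ∀ t ∈ Ioo s T, J1 t < 0 := by
  have hz := prim (cont H.d1) 0
  obtain ⟨s, hs, e⟩ := exists_hasDerivAt_eq_zero H.Tpos (cont hz).continuousOn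
    (by simp [H.m1]) fun x _ => hz x
  refine ⟨s, hs, e, fun t ht => lt_of_not_ge fun h => ?_, fun t ht => stay H hs.1 ht.1 ht.2 e.le⟩
  exact (stay H ht.1 ht.2 hs.2 h).ne e

/-- the solution of the inhomogeneous equation -/
lemma sol (H : Hill T K J1 P1 J2 P2) {s : ℝ} (hs : s ∈ Ioo 0 T) (e : J1 s = 0)
    (hp : ∀ t ∈ Ioo 0 s, 0 < J1 t) (hn : ∀ t ∈ Ioo s T, J1 t < 0) :
    ∃ u v : ℝ → ℝ, (∀ t, HasDerivAt u (v t) t) ∧ (∀ t, HasDerivAt v (1 - K t * u t) t) ∧
      u 0 = 0 ∧ u T = 0 ∧ v 0 = 0 ∧ v T = 0 ∧ 0 < u s ∧ ∀ t ∈ Icc 0 T, 0 ≤ u t := by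
  have c1 := cont H.d1
  obtain ⟨Z1, z1, a1, b1, p1⟩ : ∃ Z : ℝ → ℝ, (∀ t, HasDerivAt Z (J1 t) t) ∧ Z 0 = 0 ∧ Z T = 0 ∧
      0 < Z s := ⟨_, prim c1 0, by simp, H.m1,
    intervalIntegral.intervalIntegral_pos_of_pos_on (c1.intervalIntegrable _ _) hp hs.1⟩
  obtain ⟨Z2, z2, a2, b2⟩ : ∃ Z : ℝ → ℝ, (∀ t, HasDerivAt Z (J2 t) t) ∧ Z 0 = 0 ∧ Z T = 0 :=
    ⟨_, prim (cont H.d2) 0, by simp, H.m2⟩
  have hu : ∀ t, HasDerivAt (fun t => Z2 t * J1 t - Z1 t * J2 t) (Z2 t * P1 t - Z1 t * P2 t) t :=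
    fun t => (((z2 t).mul (H.d1 t)).sub ((z1 t).mul (H.d2 t))).congr_deriv (by ring)
  have hq : ∀ t, J1 t ≠ 0 → HasDerivAt (fun t => (Z2 t * J1 t - Z1 t * J2 t) / J1 t)
      (Z1 t / J1 t ^ 2) t := fun t ht => by
    refine ((hu t).div (H.d1 t) ht).congr_deriv ?_
    congr 1
    linear_combination Z1 t * wr H t
  have hend : ∀ r, J1 r = 0 → P1 r = 1 → Z1 r = 0 → Z2 r = 0 →
      ContinuousAt (fun t => (Z2 t * J1 t - Z1 t * J2 t) / J1 t) r := fun r h1 h2 h3 h4 => by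
    refine contAt (by simp [h1]) ?_
    simpa [h3, h4] using quot (hu r) (H.d1 r) (by simp [h3, h4]) h1 (by simp [h2])
  have us : 0 < Z2 s * J1 s - Z1 s * J2 s := by
    have h1 := wr H s
    have h2 := neg H hs e
    rw [e] at h1 ⊢
    have h3 : J2 s < 0 := by nlinarith
    nlinarith
  refine ⟨_, _, hu, fun t => ?_, by simp [a1, a2], by simp [b1, b2], by simp [a1, a2],
    by simp [b1, b2], us, fun t ht => ?_⟩
  · refine (((z2 t).mul (H.e1 t)).sub ((z1 t).mul (H.e2 t))).congr_deriv ?_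
    linear_combination wr H t
  · rcases ht.1.eq_or_lt with e0 | h0
    · simp [← e0, a1, a2]
    rcases ht.2.eq_or_lt with eT | hT
    · simp [eT, b1, b2]
    rcases lt_trichotomy t s with h | h | h
    · have h1 := mono_le h0 (fun x hx => ContinuousAt.continuousWithinAt (by
          rcases hx.1.eq_or_lt with e1 | h1
          · exact e1 ▸ hend 0 H.i0.1 H.i0.2.1 a1 a2
          · exact (hq x (hp x ⟨h1, hx.2.trans_lt h⟩).ne').continuousAt))
        (fun x hx => hq x (hp x ⟨hx.1, hx.2.trans h⟩).ne') fun x hx => div_nonneg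
          (a1 ▸ mono_le hx.1 (cont z1).continuousOn (fun y _ => z1 y) fun y hy =>
            (hp y ⟨hy.1, hy.2.trans (hx.2.trans h)⟩).le) (sq_nonneg _)
      simp only [H.i0.1, div_zero] at h1
      exact (div_nonneg_iff.1 h1).elim (fun k => k.1) fun k => absurd k.2 (hp t ⟨h0, h⟩).not_ge
    · exact h ▸ us.le
    · have h1 := mono_le hT (fun x hx => ContinuousAt.continuousWithinAt (by
          rcases hx.2.eq_or_lt with e1 | h1
          · exact e1 ▸ hend T H.iT.1 H.iT.2.1 b1 b2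
          · exact (hq x (hn x ⟨h.trans_le hx.1, h1⟩).ne).continuousAt))
        (fun x hx => hq x (hn x ⟨h.trans hx.1, hx.2⟩).ne) fun x hx => div_nonneg (by
          have h2 := mono_le hx.2 (cont z1).neg.continuousOn (fun y _ => (z1 y).neg) fun y hy =>
            neg_nonneg.2 (hn y ⟨(h.trans hx.1).trans hy.1, hy.2⟩).le
          simpa [b1] using h2) (sq_nonneg _)
      simp only [H.iT.1, div_zero] at h1
      exact (div_nonpos_iff.1 h1).elim (fun k => k.1) fun k => absurd k.2 (hn t ⟨h, hT⟩).not_ge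

end IdxX

open IdxX

theorem idxS : IdxS := by
  intro T K J1 P1 J2 P2 H f f' hf cf' fT fm
  obtain ⟨s, hs, e, hp, hn⟩ := zero H
  obtain ⟨u, v, hu, hv, u0, uT, v0, vT, us, upos⟩ := sol H hs e hp hn
  have cK := H.Kc.continuous
  have cf := cont hf
  have cu := cont hu
  have cv := cont hv
  have cJ := cont H.d2
  have cP := cont H.e2
  obtain ⟨γ, hγ⟩ : ∃ γ : ℝ, γ = -f 0 := ⟨_, rfl⟩
  obtain ⟨α, hα⟩ : ∃ α : ℝ, α * u s + γ * J2 s + f s = 0 :=
    ⟨-(γ * J2 s + f s) / u s, by rw [div_mul_cancel₀ _ us.ne']; ring⟩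
  have hg : ∀ t, HasDerivAt (fun t => α * u t + γ * J2 t + f t) (α * v t + γ * P2 t + f' t) t :=
    fun t => (((hu t).const_mul α).add ((H.d2 t).const_mul γ)).add (hf t)
  have cg' : Continuous fun t => α * v t + γ * P2 t + f' t := by fun_prop
  have ps := (neg H hs e).ne
  have q1 := picone hs.1 cK H.d1 H.e1 hg cg' (fun t ht => (hp t ht).ne') H.i0.1 e
    (by simp [H.i0.2.1]) ps (by simp [u0, H.i0.2.2.1, hγ]) hα
  have q2 := picone hs.2 cK H.d1 H.e1 hg cg' (fun t ht => (hn t ht).ne) e H.iT.1 ps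
    (by simp [H.iT.2.1]) hα (by simp [uT, H.iT.2.2.1, hγ, fT])
  have cq : Continuous fun t => (α * v t + γ * P2 t + f' t) ^ 2 -
      K t * (α * u t + γ * J2 t + f t) ^ 2 := by fun_prop
  have q3 := add_nonneg q1 q2
  rw [intervalIntegral.integral_add_adjacent_intervals (cq.intervalIntegrable _ _)
    (cq.intervalIntegrable _ _)] at q3
  have hb : ∀ t, HasDerivAt (fun t => (α * v t + γ * P2 t) * (α * u t + γ * J2 t + 2 * f t))
      ((α * v t + γ * P2 t + f' t) ^ 2 - K t * (α * u t + γ * J2 t + f t) ^ 2 -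
        (f' t ^ 2 - K t * f t ^ 2) + (α ^ 2 * u t + α * γ * J2 t + 2 * α * f t)) t := fun t =>
    ((((hv t).const_mul α).add ((H.e2 t).const_mul γ)).mul ((((hu t).const_mul α).add
      ((H.d2 t).const_mul γ)).add ((hf t).const_mul 2))).congr_deriv (by
        simp only [Pi.add_apply]
        ring)
  have c0 : Continuous fun t => f' t ^ 2 - K t * f t ^ 2 := by fun_prop
  have i1 := (cu.const_mul (α ^ 2)).intervalIntegrable (μ := volume) 0 T
  have i2 := (cJ.const_mul (α * γ)).intervalIntegrable (μ := volume) 0 T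
  have i3 := (cf.const_mul (2 * α)).intervalIntegrable (μ := volume) 0 T
  have h0 := intervalIntegral.integral_eq_sub_of_hasDerivAt (a := 0) (b := T) (fun t _ => hb t)
    (Continuous.intervalIntegrable (by fun_prop) _ _)
  rw [intervalIntegral.integral_add ((cq.intervalIntegrable _ _).sub (c0.intervalIntegrable _ _))
      ((i1.add i2).add i3),
    intervalIntegral.integral_sub (cq.intervalIntegrable _ _) (c0.intervalIntegrable _ _),
    intervalIntegral.integral_add (i1.add i2) i3, intervalIntegral.integral_add i1 i2,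
    intervalIntegral.integral_const_mul, intervalIntegral.integral_const_mul,
    intervalIntegral.integral_const_mul, H.m2, fm, v0, vT, H.i0.2.2.2, H.iT.2.2.2] at h0
  have h1 := mul_nonneg (sq_nonneg α)
    (intervalIntegral.integral_nonneg (μ := volume) H.Tpos.le upos)
  linarith

end Pool.Agent.MP_2291e2_gt.Ab

end
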