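import Pool.Agent.MP_2291e2_gt.ab.Spec

/-! The Jacobian determinant of the change of variables. -/

open scoped ContDiff RealInnerProductSpace Topology ENNReal
open MeasureTheory Metric Set Filter Real
open Pool.Agent.MP_2291e2_gt.Zl

noncomputable section

namespace Pool.Agent.MP_2291e2_gt.Ab

namespace JDetX

def co (p : P) : Fin 3 ⊕ Fin 3 → ℝ := Sum.elim (fun i => p.1 i) fun i => p.2 i

lemma co_sum (p q : P) : ∑ k, co p k * co q k = ⟪q.1, p.1⟫ + ⟪q.2, p.2⟫ := by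
  simp only [co, Fintype.sum_sum_type, Sum.elim_inl, Sum.elim_inr, Fin.sum_univ_three, inner3]
  ring

lemma det_co (L : P →L[ℝ] P) : L.det = Matrix.det (Matrix.of fun i j : Fin 3 ⊕ Fin 3 =>
    co (L (Sum.elim (fun j => (bs j, 0)) (fun j => (0, bs j)) j)) i) := by
  set e := (EuclideanSpace.basisFun (Fin 3) ℝ).toBasis
  rw [ContinuousLinearMap.det, ← LinearMap.det_toMatrix (e.prod e)]
  congr 1
  ext i j
  rw [LinearMap.toMatrix_apply]
  rcases i with i | i <;> rcases j with j | j <;> simp [e, co, bs, Module.Basis.prod_apply]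

lemma line {X F : Type} [NormedAddCommGroup X] [NormedSpace ℝ X] [NormedAddCommGroup F]
    [NormedSpace ℝ F] {f : X → F} {z : X} (hf : DifferentiableAt ℝ f z) (δ : X) :
    HasDerivAt (fun s : ℝ => f (z + s • δ)) (fderiv ℝ f z δ) 0 := by
  have h1 : HasDerivAt (fun s : ℝ => z + s • δ) δ 0 := by
    simpa using ((hasDerivAt_id' (0 : ℝ)).smul_const δ).const_add z
  exact HasFDerivAt.comp_hasDerivAt_of_eq (hl := hf.hasFDerivAt) (hf := h1) (hy := by simp)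

variable {σ : E → ℝ} {φ : ℝ → P → P} {a b : P → ℝ} {T : ℝ} {u₀ : P}

lemma smc (i : Fin 3) : ContDiff ℝ ∞ fun z : E => z i :=
  (EuclideanSpace.proj i : E →L[ℝ] ℝ).contDiff

lemma smP (h : CF σ φ a b T) : ContDiff ℝ ∞ (Pw φ u₀) :=
  h.z.smooth.comp ((smc 2).prodMk (contDiff_rho.comp ((smc 1).prodMk
    (h.z.smooth.comp ((smc 0).prodMk contDiff_const)))))

lemma smH (h : CF σ φ a b T) : ContDiff ℝ ∞ (Ph σ φ u₀) := by
  have hw : ContDiff ℝ ∞ fun z : P => Pw φ u₀ z.1 := (smP h).comp contDiff_fst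
  have hc : ∀ i, ContDiff ℝ ∞ fun z : P => z.2 i := fun i => (smc i).comp contDiff_snd
  exact ((hc 0).smul hw.fst).prodMk
    (((((contDiff_const.mul (h.sm.comp hw.fst)).div_const 3).exp).mul (hc 1)).smul
      (((hc 2).cos.smul hw.fst).add ((hc 2).sin.smul hw.snd)))

lemma dfl (h : CF σ φ a b T) (t : ℝ) (u : P) : DifferentiableAt ℝ (φ t) u :=
  (h.z.smooth.comp (contDiff_const.prodMk contDiff_id)).differentiable (by simp) u

lemma col0 (h : CF σ φ a b T) (h0 : u₀ ∈ U) (z : E) : fderiv ℝ (Pw φ u₀) z (bs 0) =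
    eta φ (Ax φ u₀ (z 0, z 1)) (xi a b (φ (z 0) u₀)) (z 2) := by
  have h1 := line ((smP (u₀ := u₀) h).differentiable (by simp) z) (bs 0)
  have e : (fun s : ℝ => Pw φ u₀ (z + s • bs 0)) =
      fun s => φ (z 2) (rho (z 1) (φ (z 0 + s) u₀)) := by
    funext s
    simp [Pw, Ax, bs]
  have hr : DifferentiableAt ℝ (rho (z 1)) (φ (z 0 + 0) u₀) := by unfold rho; fun_prop
  have h2 := (dfl h (z 2) _).hasFDerivAt.comp_hasDerivAt 0 (hr.hasFDerivAt.comp_hasDerivAt 0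
    (HasDerivAt.comp_const_add (z 0) 0 (h.z.ode u₀ h0 (z 0 + 0))))
  rw [e] at h1
  refine (h1.unique h2).trans ?_
  simp only [fderiv_rho_W, Function.comp_apply, add_zero]
  rfl

lemma col1 (h : CF σ φ a b T) (h0 : u₀ ∈ U) (z : E) : fderiv ℝ (Pw φ u₀) z (bs 1) =
    eta φ (Ax φ u₀ (z 0, z 1)) (φ (z 0) u₀).1 (z 2) := by
  have h1 := line ((smP (u₀ := u₀) h).differentiable (by simp) z) (bs 1)
  have e : (fun s : ℝ => Pw φ u₀ (z + s • bs 1)) =
      fun s => φ (z 2) (rho (z 1 + s) (φ (z 0) u₀)) := by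
    funext s
    simp [Pw, Ax, bs]
  have h2 := (dfl h (z 2) _).hasFDerivAt.comp_hasDerivAt 0
    (HasDerivAt.comp_const_add (z 1) 0 (hasDerivAt_rho (h.z.maps (z 0) _ h0) (z 1 + 0)))
  rw [e] at h1
  refine (h1.unique h2).trans ?_
  simp only [add_zero]
  rfl

lemma col2 (h : CF σ φ a b T) (h0 : u₀ ∈ U) (z : E) : fderiv ℝ (Pw φ u₀) z (bs 2) =
    W (Pw φ u₀ z) (xi a b (Pw φ u₀ z)) := by
  have h1 := line ((smP (u₀ := u₀) h).differentiable (by simp) z) (bs 2)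
  have e : (fun s : ℝ => Pw φ u₀ (z + s • bs 2)) =
      fun s => φ (z 2 + s) (Ax φ u₀ (z 0, z 1)) := by
    funext s
    simp [Pw, bs]
  have h2 := HasDerivAt.comp_const_add (z 2) 0
    (h.z.ode (Ax φ u₀ (z 0, z 1)) (rho_mem_U (h.z.maps _ _ h0) _) (z 2 + 0))
  rw [e] at h1
  refine (h1.unique h2).trans ?_
  simp only [add_zero]
  rfl

lemma nn {u : P} (h : u ∈ U) : ⟪cr u.1 u.2, cr u.1 u.2⟫ = 1 := by
  rw [real_inner_self_eq_norm_sq, norm_cr_U h, one_pow]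

lemma Wxi {u : P} (h : u ∈ U) (s t : ℝ) :
    W u (s • cr u.1 u.2 + t • u.1) = (s • u.2, t • cr u.1 u.2 - s • u.1) := by
  simp only [W, cr_add_left, cr_smul_left, cr_cr_left, cr_self, inner_self_U1 h, inner_self_U2 h,
    inner_U21 h, h.2.2]
  congr 1 <;> module

/-- the Wronskian -/
lemma wron (hJ : JacS) (h : CF σ φ a b T) {u : P} (hu : u ∈ U) (β t : ℝ) :
    fJ σ (φ t (rho β u)) (eta φ (rho β u) (xi a b u) t) *
        fP σ (φ t (rho β u)) (eta φ (rho β u) u.1 t) -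
      fJ σ (φ t (rho β u)) (eta φ (rho β u) u.1 t) *
        fP σ (φ t (rho β u)) (eta φ (rho β u) (xi a b u) t) = -sin β := by
  have hw := rho_mem_U hu β
  have hd : ∀ t, HasDerivAt (fun t => fJ σ (φ t (rho β u)) (eta φ (rho β u) (xi a b u) t) *
        fP σ (φ t (rho β u)) (eta φ (rho β u) u.1 t) -
      fJ σ (φ t (rho β u)) (eta φ (rho β u) u.1 t) *
        fP σ (φ t (rho β u)) (eta φ (rho β u) (xi a b u) t)) 0 t := fun t => by
    obtain ⟨-, a1, a2⟩ := hJ σ φ a b T h _ hw (xi a b u) t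
    obtain ⟨-, b1, b2⟩ := hJ σ φ a b T h _ hw u.1 t
    exact ((a1.fun_mul b2).fun_sub (b1.fun_mul a2)).congr_deriv (by ring)
  rw [is_const_of_deriv_eq_zero (fun t => (hd t).differentiableAt) (fun t => (hd t).deriv) t 0]
  have e0 : ∀ ζ, eta φ (rho β u) ζ 0 = W (rho β u) ζ := fun ζ => by
    rw [eta, show φ 0 = id from funext h.z.zero, fderiv_id]
    rfl
  have e1 : W (rho β u) u.1 = (0, cr u.1 (rho β u).2) := by simp [W]
  have e2 : (W (rho β u) (xi a b u)).1 = a u • u.2 := congrArg Prod.fst (Wxi hu (a u) (b u))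
  have e3 := nn hw
  rw [rho_fst] at e3
  simp only [e0, h.z.zero, fJ, fP, e1, e2, e3, rho_fst, inner_zero_left, mul_zero, zero_mul,
    add_zero, sub_zero, mul_one]
  rw [cr_rho hu, h.ha u hu]
  simp only [inner_smul_left, inner_sub_right, inner_smul_right, inner_cr_right, inner_self_U2 hu,
    conj_trivial, exp_neg]
  field_simp
  ring

lemma dPh (h : CF σ φ a b T) (z δ : P) : ∃ c : ℝ, fderiv ℝ (Ph σ φ u₀) z δ =
    (δ.2 0 • (Pw φ u₀ z.1).1 + z.2 0 • (fderiv ℝ (Pw φ u₀) z.1 δ.1).1,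
      (c * D1 σ (Pw φ u₀ z.1).1 (fderiv ℝ (Pw φ u₀) z.1 δ.1).1 +
          exp (2 * σ (Pw φ u₀ z.1).1 / 3) * δ.2 1) •
        (cos (z.2 2) • (Pw φ u₀ z.1).1 + sin (z.2 2) • (Pw φ u₀ z.1).2) +
      (exp (2 * σ (Pw φ u₀ z.1).1 / 3) * z.2 1) •
        ((-sin (z.2 2) * δ.2 2) • (Pw φ u₀ z.1).1 + cos (z.2 2) • (fderiv ℝ (Pw φ u₀) z.1 δ.1).1 +
          ((cos (z.2 2) * δ.2 2) • (Pw φ u₀ z.1).2 +
            sin (z.2 2) • (fderiv ℝ (Pw φ u₀) z.1 δ.1).2))) := by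
  have h1 := line ((smH (u₀ := u₀) h).differentiable (by simp) z) δ
  have hw := line ((smP (u₀ := u₀) h).differentiable (by simp) z.1) δ.1
  have hc : ∀ i, HasDerivAt (fun s : ℝ => z.2 i + s * δ.2 i) (δ.2 i) 0 := fun i => by
    simpa using ((hasDerivAt_id' (0 : ℝ)).mul_const (δ.2 i)).const_add (z.2 i)
  have w1 := (ContinuousLinearMap.fst ℝ E E).hasFDerivAt.comp_hasDerivAt 0 hw
  have w2 := (ContinuousLinearMap.snd ℝ E E).hasFDerivAt.comp_hasDerivAt 0 hw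
  have hs := (h.sm.differentiable (by simp) _).hasFDerivAt.comp_hasDerivAt 0 w1
  have h2 := ((hc 0).fun_smul w1).prodMk
    (((((hs.const_mul 2).div_const 3).exp).fun_mul (hc 1)).fun_smul
      (((hc 2).cos.fun_smul w1).fun_add ((hc 2).sin.fun_smul w2)))
  refine ⟨exp (2 * σ (Pw φ u₀ z.1).1 / 3) * (2 / 3) * z.2 1, (h1.unique h2).trans ?_⟩
  simp only [Function.comp_apply, ContinuousLinearMap.coe_fst', ContinuousLinearMap.coe_snd',
    zero_smul, add_zero, zero_mul, D1]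
  congr 1 <;> module

end JDetX

open JDetX

theorem detS : DetS := by
  intro u L hu h
  let r : Fin 3 ⊕ Fin 3 → P := Sum.elim ![(u.2, 0), (cr u.1 u.2, 0), (0, cr u.1 u.2)]
    ![(u.1, 0), (0, u.1), (0, u.2)]
  let R : Matrix (Fin 3 ⊕ Fin 3) (Fin 3 ⊕ Fin 3) ℝ := Matrix.of fun i k => co (r i) k
  have h1 : R * R.transpose = 1 := by
    ext i j
    rw [Matrix.mul_apply]
    refine (co_sum (r i) (r j)).trans ?_
    rcases i with i | i <;> rcases j with j | j <;> fin_cases i <;> fin_cases j <;>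
      simp [r, hu.1, hu.2.1, hu.2.2, inner_U21 hu, norm_cr_U hu]
  have h2 : |R.det| = 1 := by
    have := congrArg Matrix.det h1
    rw [Matrix.det_mul, Matrix.det_transpose, Matrix.det_one] at this
    exact abs_eq_abs.2 (mul_self_eq_one_iff.1 this) |>.trans abs_one
  rw [← abs_mul, ← Matrix.det_fromBlocks_zero₁₂ _ (Matrix.of fun i j : Fin 3 =>
    ⟪(L (bs j, 0)).1, (r (.inr i)).1⟫ + ⟪(L (bs j, 0)).2, (r (.inr i)).2⟫), ← one_mul |L.det|,
    ← h2, ← abs_mul, det_co, ← Matrix.det_mul]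
  congr 2
  ext i j
  rw [Matrix.mul_apply]
  refine (co_sum (r i) _).trans ?_
  rcases i with i | i <;> rcases j with j | j
  · fin_cases i <;> simp [r]
  · fin_cases i <;> simp [r, (h j).1, (h j).2.1, (h j).2.2]
  · rfl
  · fin_cases i <;> simp [r]

theorem jdetS (hJ : JacS) : JDetS := by
  intro σ φ a b T h u₀ h0
  refine ⟨smH h, fun z => ?_⟩
  have hu := h.z.maps (z.1 0) _ h0
  have hw : Pw φ u₀ z.1 ∈ U := h.z.maps _ _ (rho_mem_U hu _)
  have hW := wron hJ h hu (z.1 1) (z.1 2)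
  have c0 := col0 h h0 z.1
  have c1 := col1 h h0 z.1
  have c2 := col2 h h0 z.1
  rw [Ax] at c0 c1
  rw [← c0, ← c1] at hW
  change fJ σ (Pw φ u₀ z.1) _ * fP σ (Pw φ u₀ z.1) _ -
    fJ σ (Pw φ u₀ z.1) _ * fP σ (Pw φ u₀ z.1) _ = _ at hW
  rw [xi, Wxi hw, h.ha _ hw, h.hb _ hw] at c2
  choose c hc using dPh (u₀ := u₀) h z
  set w := Pw φ u₀ z.1
  set D := fderiv ℝ (Pw φ u₀) z.1
  set ρ := exp (2 * σ w.1 / 3) with hρ
  have e3 : exp (σ w.1) = ρ ^ 3 * exp (-σ w.1) := by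
    rw [hρ, ← exp_nat_mul, ← exp_add]
    congr 1
    push_cast
    ring
  have e4 : D1 σ w.1 0 = 0 := map_zero _
  rw [detS w _ hw fun j => by
    simp [hc, inner_add_left, inner_smul_left, hw.2.2], ← abs_mul, ← sq_abs (z.2 0),
    ← sq_abs (z.2 1), ← abs_pow, ← abs_pow, ← abs_mul, ← abs_mul, ← abs_mul, abs_eq_abs]
  right
  simp only [fJ, fP, bs, e3] at hW
  simp only [Matrix.det_fin_three, Matrix.of_apply, hc, c2]
  simp [inner_add_left, inner_smul_left, inner_sub_left, hw.1, hw.2.1, hw.2.2, inner_U21 hw,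
    norm_cr_U hw, bs, e4]
  linear_combination (z.2 0 ^ 2 * z.2 1 ^ 2 * sin (z.2 2) * (cos (z.2 2) ^ 2 + sin (z.2 2) ^ 2)) *
    hW - z.2 0 ^ 2 * z.2 1 ^ 2 * sin (z.2 2) * sin (z.1 1) * sin_sq_add_cos_sq (z.2 2)

end Pool.Agent.MP_2291e2_gt.Ab

end
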