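import Pool.Agent.MP_2291e2_gt.ab.Spec

/-! The Laplacian of the round sphere: smoothness, frame formulas, mean zero. -/

open scoped ContDiff RealInnerProductSpace Topology ENNReal
open MeasureTheory Metric Set Filter Real
open Pool.Agent.MP_2291e2_gt.Zl

noncomputable section

namespace Pool.Agent.MP_2291e2_gt.Ab

namespace LapX

variable {σ : E → ℝ}

lemma cd1 (h : ContDiff ℝ ∞ σ) : ContDiff ℝ ∞ (fderiv ℝ σ) :=
  h.fderiv_right (m := ∞) (by simp)

lemma cd2 (h : ContDiff ℝ ∞ σ) : ContDiff ℝ ∞ (fderiv ℝ (fderiv ℝ σ)) :=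
  (cd1 h).fderiv_right (m := ∞) (by simp)

lemma cdLap (h : ContDiff ℝ ∞ σ) : ContDiff ℝ ∞ (Lap σ) := by
  unfold Lap D2 D1
  refine ContDiff.sub (ContDiff.sum fun i _ => ?_) (contDiff_const.mul ?_)
  · exact ((cd2 h).clm_apply (ContDiff.cr' contDiff_const contDiff_id)).clm_apply
      (ContDiff.cr' contDiff_const contDiff_id)
  · exact (cd1 h).clm_apply contDiff_id

lemma inner_bs (i : Fin 3) (x : E) : ⟪bs i, x⟫ = x i := by
  simp [bs, EuclideanSpace.inner_single_left]

lemma cr_frame {u : P} (h : u ∈ U) (e : E) :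
    cr e u.1 = ⟪e, cr u.1 u.2⟫ • u.2 - ⟪e, u.2⟫ • cr u.1 u.2 := by
  have h1 : cr (cr u.1 u.2) u.1 = u.2 := by rw [cr_anti, cr_cr_U h, neg_neg]
  have h2 : cr u.2 u.1 = -cr u.1 u.2 := cr_anti _ _
  conv_lhs => rw [frameU h e]
  rw [cr_add_left, cr_add_left, cr_smul_left, cr_smul_left, cr_smul_left, cr_self, h1, h2]
  module

lemma lap_frame {u : P} (h : u ∈ U) :
    Lap σ u.1 = D2 σ u.1 u.2 u.2 + D2 σ u.1 (cr u.1 u.2) (cr u.1 u.2) - 2 * D1 σ u.1 u.1 := by
  have h1 := normsq3 (cr u.1 u.2)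
  have h2 := normsq3 u.2
  have h3 := inner3 u.2 (cr u.1 u.2)
  rw [norm_cr_U h] at h1
  rw [h.2.1] at h2
  rw [inner_cr_right] at h3
  unfold Lap D2
  simp only [cr_frame h, inner_bs, Fin.sum_univ_three]
  generalize cr u.1 u.2 = n at *
  generalize fderiv ℝ (fderiv ℝ σ) u.1 = B
  simp only [map_sub, map_smul, sub_apply, smul_apply, smul_eq_mul]
  linear_combination (-B u.2 u.2) * h1 - B n n * h2 + (B u.2 n + B n u.2) * h3

lemma d2_eq (h : ContDiff ℝ ∞ σ) (y v : E) : d2 σ y v = D2 σ y v v - D1 σ y y := by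
  have c1 : ∀ t : ℝ, HasDerivAt (fun t : ℝ => cos t • y + sin t • v)
      ((-sin t) • y + cos t • v) t := fun t =>
    ((hasDerivAt_cos t).smul_const y).add ((hasDerivAt_sin t).smul_const v)
  have c2 : HasDerivAt (fun t : ℝ => (-sin t) • y + cos t • v)
      ((-cos 0) • y + (-sin 0) • v) 0 :=
    ((hasDerivAt_sin 0).neg.smul_const y).add ((hasDerivAt_cos 0).smul_const v)
  have e1 : deriv (fun t : ℝ => σ (cos t • y + sin t • v)) =
      fun t => fderiv ℝ σ (cos t • y + sin t • v) ((-sin t) • y + cos t • v) := by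
    funext t
    exact (((h.differentiable (by simp)) _).hasFDerivAt.comp_hasDerivAt t (c1 t)).deriv
  have e2 := ((((cd1 h).differentiable (by simp)) _).hasFDerivAt.comp_hasDerivAt 0
    (c1 0)).clm_apply c2
  unfold d2
  rw [iteratedDeriv_succ, iteratedDeriv_one, e1]
  refine e2.deriv.trans ?_
  simp [D1, D2, sub_eq_add_neg]

lemma lap_on (h : ContDiff ℝ ∞ σ) (y v w : E) (ho : Orthonormal ℝ ![y, v, w]) :
    d2 σ y v + d2 σ y w = Lap σ y := by
  have hu : ((y, v) : P) ∈ U :=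
    ⟨ho.1 0, ho.1 1, ho.2 (show (0 : Fin 3) ≠ 1 by decide)⟩
  have a1 : ⟪w, y⟫ = 0 := ho.2 (show (2 : Fin 3) ≠ 0 by decide)
  have a2 : ⟪w, v⟫ = 0 := ho.2 (show (2 : Fin 3) ≠ 1 by decide)
  have a3 : ‖w‖ = 1 := ho.1 2
  have f := frameU hu w
  have nn := norm_cr_U hu
  have l := lap_frame (σ := σ) hu
  simp only at f nn l
  rw [a1, a2, zero_smul, zero_smul, zero_add, zero_add] at f
  generalize ⟪w, cr y v⟫ = c at f
  have hc : c * c = 1 := by
    rw [f, norm_smul, nn, mul_one, Real.norm_eq_abs] at a3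
    rw [← abs_mul_abs_self, a3, mul_one]
  rw [d2_eq h, d2_eq h, l, f]
  simp only [D2, map_smul, smul_apply, smul_eq_mul]
  linear_combination (fderiv ℝ (fderiv ℝ σ) y (cr y v) (cr y v)) * hc

/-- rotation about the axis `e` -/
def R (e : E) (t : ℝ) (y : E) : E := cos t • y + sin t • cr e y + ((1 - cos t) * ⟪e, y⟫) • e

lemma R_add (e : E) (t : ℝ) (y z : E) : R e t (y + z) = R e t y + R e t z := by
  simp only [R, cr_add_right, inner_add_right]; module

lemma R_smul (e : E) (t c : ℝ) (y : E) : R e t (c • y) = c • R e t y := by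
  simp only [R, cr_smul_right, real_inner_smul_right]; module

lemma R_norm {e : E} (he : ‖e‖ = 1) (t : ℝ) (y : E) : ‖R e t y‖ = ‖y‖ := by
  have h1 := normsq3 e
  have h2 := cos_sq_add_sin_sq t
  rw [he] at h1
  rw [← sq_eq_sq₀ (norm_nonneg _) (norm_nonneg _), normsq3, normsq3]
  simp only [R, inner3, PiLp.add_apply, PiLp.smul_apply, smul_eq_mul, cr_0, cr_1, cr_2]
  linear_combination (-(sin t ^ 2 * (y 0 ^ 2 + y 1 ^ 2 + y 2 ^ 2)
    + (1 - cos t) ^ 2 * (e 0 * y 0 + e 1 * y 1 + e 2 * y 2) ^ 2)) * h1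
    + (y 0 ^ 2 + y 1 ^ 2 + y 2 ^ 2 - (e 0 * y 0 + e 1 * y 1 + e 2 * y 2) ^ 2) * h2

lemma R_deriv {e : E} (he : ‖e‖ = 1) (y : E) (t : ℝ) :
    HasDerivAt (fun t => R e t y) (cr e (R e t y)) t := by
  have h := (((hasDerivAt_cos t).smul_const y).add ((hasDerivAt_sin t).smul_const (cr e y))).add
    ((((hasDerivAt_cos t).const_sub 1).mul_const ⟪e, y⟫).smul_const e)
  refine h.congr_deriv ?_
  simp only [R, cr_add_right, cr_smul_right, cr_self, cr_cr_right, real_inner_self_eq_norm_sq, he]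
  module

lemma R_cont (e : E) : Continuous fun q : ℝ × E => R e q.1 q.2 := by
  unfold R; fun_prop

/-- the rotation as a linear isometry -/
def Re {e : E} (he : ‖e‖ = 1) (t : ℝ) : E ≃ₗᵢ[ℝ] E :=
  LinearIsometry.toLinearIsometryEquiv
    ⟨⟨⟨R e t, R_add e t⟩, R_smul e t⟩, R_norm he t⟩ rfl

lemma nz_R {e : E} (he : ‖e‖ = 1) (t : ℝ) (Y : E) : nz (R e t Y) = R e t (nz Y) := by
  rw [nz, nz, R_norm he, R_smul]

lemma nz_meas : Measurable nz := by
  unfold nz; fun_prop

lemma nz_mem (Y : E) : nz Y ∈ closedBall (0 : E) 1 := by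
  rw [mem_closedBall_zero_iff, nz, norm_smul, norm_inv, norm_norm]
  exact inv_mul_le_one

lemma int_nz {G : E → ℝ} (hG : Continuous G) :
    IntegrableOn (fun Y => G (nz Y)) (ball (0 : E) 1) := by
  obtain ⟨C, hC⟩ := (isCompact_closedBall (0 : E) 1).exists_bound_of_continuousOn hG.continuousOn
  exact Measure.integrableOn_of_bounded measure_ball_lt_top.ne
    (hG.measurable.comp nz_meas).aestronglyMeasurable (ae_of_all _ fun Y => hC _ (nz_mem Y))

lemma int_zero {e : E} (he : ‖e‖ = 1) {f G : E → ℝ} (hG : Continuous G)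
    (hd : ∀ y t, HasDerivAt (fun t => f (R e t y)) (G (R e t y)) t) :
    ∫ Y in ball (0 : E) 1, G (nz Y) = 0 := by
  have h1 : ∀ t, ∫ Y in ball (0 : E) 1, G (R e t (nz Y)) = ∫ Y in ball (0 : E) 1, G (nz Y) := by
    intro t
    have := (Re he t).measurePreserving.setIntegral_preimage_emb
      (Re he t).toHomeomorph.measurableEmbedding (fun Y => G (nz Y)) (ball (0 : E) 1)
    have hb : (Re he t) ⁻¹' ball (0 : E) 1 = ball (0 : E) 1 := by ext Y; simp
    rw [hb] at this
    rw [← this]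
    simp only [← nz_R he]
    rfl
  have h2 : ∀ y, ∫ t in Ioc 0 (2 * π), G (R e t y) = 0 := by
    intro y
    rw [← intervalIntegral.integral_of_le two_pi_pos.le,
      intervalIntegral.integral_eq_sub_of_hasDerivAt (fun t _ => hd y t)
        ((hG.comp ((R_cont e).comp (Continuous.prodMk_left y))).intervalIntegrable _ _)]
    simp [R]
  obtain ⟨C, hC⟩ := (isCompact_closedBall (0 : E) 1).exists_bound_of_continuousOn hG.continuousOn
  have hi : Integrable (Function.uncurry fun (t : ℝ) (Y : E) => G (R e t (nz Y)))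
      ((volume.restrict (Ioc 0 (2 * π))).prod (volume.restrict (ball (0 : E) 1))) := by
    have : IsFiniteMeasure (volume.restrict (ball (0 : E) 1)) :=
      isFiniteMeasure_restrict.2 measure_ball_lt_top.ne
    refine Integrable.of_bound ?_ C (ae_of_all _ fun q => hC _ ?_)
    · exact ((hG.comp (R_cont e)).measurable.comp
        (measurable_fst.prodMk (nz_meas.comp measurable_snd))).aestronglyMeasurable
    · have := nz_mem q.2
      rw [mem_closedBall_zero_iff] at this ⊢
      rwa [R_norm he]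
  have h3 := integral_integral_swap hi
  simp only [h1, h2, integral_zero, integral_const, smul_eq_mul, mul_eq_zero] at h3
  refine h3.resolve_left ?_
  simp [pi_pos.le, pi_pos.ne']

/-- the second derivative along the rotation about `e` -/
def G (σ : E → ℝ) (e y : E) : ℝ := D2 σ y (cr e y) (cr e y) + D1 σ y (cr e (cr e y))

lemma G_cont (h : ContDiff ℝ ∞ σ) (e : E) : Continuous (G σ e) := by
  have c : Continuous fun y : E => cr e y := by fun_prop
  have c' : Continuous fun y : E => cr e (cr e y) := by fun_prop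
  exact (((cd2 h).continuous.clm_apply c).clm_apply c).add ((cd1 h).continuous.clm_apply c')

lemma G_deriv (h : ContDiff ℝ ∞ σ) {e : E} (he : ‖e‖ = 1) (y : E) (t : ℝ) :
    HasDerivAt (fun t => D1 σ (R e t y) (cr e (R e t y))) (G σ e (R e t y)) t := by
  have h1 := R_deriv he y t
  have h2 := (crL e).hasFDerivAt.comp_hasDerivAt t h1
  exact ((((cd1 h).differentiable (by simp)) _).hasFDerivAt.comp_hasDerivAt t h1).clm_apply h2

lemma lap_sum (y : E) : Lap σ y = ∑ i, G σ (bs i) y := by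
  have : ∑ i, cr (bs i) (cr (bs i) y) = (-2 : ℝ) • y := by
    refine ext3 ?_ ?_ ?_ <;> simp [Fin.sum_univ_three, bs] <;> ring
  simp only [Lap, G, Finset.sum_add_distrib, D1, ← map_sum, this, map_smul, smul_eq_mul]
  ring

end LapX

open LapX in
theorem lapS : LapS := by
  intro σ h
  refine ⟨cdLap h, fun u hu => lap_frame hu, lap_on h, ?_⟩
  simp only [lap_sum]
  rw [integral_finsetSum _ fun i _ => int_nz (G_cont h (bs i))]
  refine Finset.sum_eq_zero fun i _ => ?_
  have he : ‖bs i‖ = 1 := by simp [bs]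
  exact int_zero he (f := fun y => D1 σ y (cr (bs i) y)) (G_cont h _) (G_deriv h he)

end Pool.Agent.MP_2291e2_gt.Ab
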