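import Pool.Agent.MP_2291e2_gt.ab.Lap
import Pool.Agent.MP_2291e2_gt.ab.Flow

/-! Conformal factors of constant curvature on the sphere. -/

open scoped ContDiff RealInnerProductSpace Topology ENNReal
open MeasureTheory Metric Set Filter Real
open Pool.Agent.MP_2291e2_gt.Zl

noncomputable section

namespace Pool.Agent.MP_2291e2_gt.Ab

namespace RoundX

/-- derivative along the rotation about `a` -/
def Dv (a : E) (f : E → ℝ) (y : E) : ℝ := D1 f y (cr a y)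

variable {f g : E → ℝ} {a b c y : E}

lemma Dv_sm (h : ContDiff ℝ ∞ f) (a : E) : ContDiff ℝ ∞ (Dv a f) :=
  (LapX.cd1 h).clm_apply (ContDiff.cr' contDiff_const contDiff_id)

lemma line (y z : E) : HasDerivAt (fun s : ℝ => y + s • z) z 0 := by
  simpa using ((hasDerivAt_id (0 : ℝ)).smul_const z).const_add y

lemma Dv_Dv (h : ContDiff ℝ ∞ f) (a b y : E) :
    Dv a (Dv b f) y = D2 f y (cr a y) (cr b y) + D1 f y (cr b (cr a y)) := by
  have h1 := line y (cr a y)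
  have h2 := (crL b).hasFDerivAt.comp_hasDerivAt 0 h1
  have := (FlowX.d0 (Dv_sm h b) h1).unique (FlowX.d1 h h1 h2)
  simpa [Dv] using this

lemma D2_symm (h : ContDiff ℝ ∞ f) (y z w : E) : D2 f y z w = D2 f y w z :=
  (h.contDiffAt.isSymmSndFDerivAt (by simp; norm_cast)).eq z w

lemma Dv_add (hf : ContDiff ℝ ∞ f) (hg : ContDiff ℝ ∞ g) (a : E) :
    Dv a (fun y => f y + g y) = fun y => Dv a f y + Dv a g y := by
  funext y
  simp only [Dv, D1]
  rw [fderiv_fun_add (hf.differentiable (by simp) y) (hg.differentiable (by simp) y)]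
  rfl

lemma Dv_sub (hf : ContDiff ℝ ∞ f) (hg : ContDiff ℝ ∞ g) (a : E) :
    Dv a (fun y => f y - g y) = fun y => Dv a f y - Dv a g y := by
  funext y
  simp only [Dv, D1]
  rw [fderiv_fun_sub (hf.differentiable (by simp) y) (hg.differentiable (by simp) y)]
  rfl

lemma Dv_mul (hf : ContDiff ℝ ∞ f) (hg : ContDiff ℝ ∞ g) (a : E) :
    Dv a (fun y => f y * g y) = fun y => f y * Dv a g y + g y * Dv a f y := by
  funext y
  simp only [Dv, D1]
  rw [fderiv_fun_mul (hf.differentiable (by simp) y) (hg.differentiable (by simp) y)]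
  rfl

lemma comm (h : ContDiff ℝ ∞ f) (a b : E) :
    Dv a (Dv b f) = fun y => Dv b (Dv a f) y - Dv (cr a b) f y := by
  funext y
  rw [Dv_Dv h, Dv_Dv h, D2_symm h y (cr a y), cr_jacobi a b y]
  simp only [Dv, D1, map_add]
  ring

lemma cas (h : ContDiff ℝ ∞ f) (h1 : cr a b = c) (h2 : cr c a = b) (y : E) :
    Dv a (Dv b (Dv b f)) y + Dv a (Dv c (Dv c f)) y =
      Dv b (Dv b (Dv a f)) y + Dv c (Dv c (Dv a f)) y := by
  have e1 : ∀ {g : E → ℝ}, ContDiff ℝ ∞ g → Dv a (Dv b g) = fun y => Dv b (Dv a g) y - Dv c g y :=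
    fun hg => by rw [comm hg, h1]
  have e2 : ∀ {g : E → ℝ}, ContDiff ℝ ∞ g → Dv a (Dv c g) = fun y => Dv c (Dv a g) y + Dv b g y :=
    fun hg => by rw [comm hg c a, h2]; simp
  rw [e1 (Dv_sm h b), e2 (Dv_sm h c), e1 h, e2 h, Dv_sub (Dv_sm (Dv_sm h a) b) (Dv_sm h c),
    Dv_add (Dv_sm (Dv_sm h a) c) (Dv_sm h b)]
  ring

lemma lap_eq (h : ContDiff ℝ ∞ f) : Lap f = fun y =>
    Dv (bs 0) (Dv (bs 0) f) y + Dv (bs 1) (Dv (bs 1) f) y + Dv (bs 2) (Dv (bs 2) f) y := by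
  funext y
  simp only [LapX.lap_sum, Fin.sum_univ_three, LapX.G, Dv_Dv h]

lemma c01 : cr (bs 0) (bs 1) = bs 2 := ext3 (by simp [bs]) (by simp [bs]) (by simp [bs])
lemma c12 : cr (bs 1) (bs 2) = bs 0 := ext3 (by simp [bs]) (by simp [bs]) (by simp [bs])
lemma c20 : cr (bs 2) (bs 0) = bs 1 := ext3 (by simp [bs]) (by simp [bs]) (by simp [bs])

lemma lap_Dv (h : ContDiff ℝ ∞ f) (i : Fin 3) (y : E) :
    Lap (Dv (bs i) f) y = Dv (bs i) (Lap f) y := by
  have s : ∀ j, ContDiff ℝ ∞ (Dv (bs j) (Dv (bs j) f)) := fun j => Dv_sm (Dv_sm h _) _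
  rw [lap_eq (Dv_sm h _), lap_eq h, Dv_add ((s 0).add (s 1)) (s 2), Dv_add (s 0) (s 1)]
  have := cas h c01 c20 y
  have := cas h c12 c01 y
  have := cas h c20 c12 y
  fin_cases i <;> simp only [Fin.zero_eta, Fin.mk_one, Fin.reduceFinMk] <;> linarith

lemma lap_add (hf : ContDiff ℝ ∞ f) (hg : ContDiff ℝ ∞ g) (y : E) :
    Lap (fun y => f y + g y) y = Lap f y + Lap g y := by
  simp only [lap_eq (hf.add hg), lap_eq hf, lap_eq hg, Dv_add hf hg,
    Dv_add (Dv_sm hf _) (Dv_sm hg _)]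
  ring

lemma lap_sub (hf : ContDiff ℝ ∞ f) (hg : ContDiff ℝ ∞ g) (y : E) :
    Lap (fun y => f y - g y) y = Lap f y - Lap g y := by
  simp only [lap_eq (hf.sub hg), lap_eq hf, lap_eq hg, Dv_sub hf hg,
    Dv_sub (Dv_sm hf _) (Dv_sm hg _)]
  ring

/-- the inner product of the gradients -/
def Gr (f g : E → ℝ) (y : E) : ℝ :=
  Dv (bs 0) f y * Dv (bs 0) g y + Dv (bs 1) f y * Dv (bs 1) g y + Dv (bs 2) f y * Dv (bs 2) g y

lemma lap_mul (hf : ContDiff ℝ ∞ f) (hg : ContDiff ℝ ∞ g) (y : E) :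
    Lap (fun y => f y * g y) y = f y * Lap g y + g y * Lap f y + 2 * Gr f g y := by
  simp only [lap_eq (hf.mul hg), lap_eq hf, lap_eq hg, Dv_mul hf hg,
    Dv_add (hf.mul (Dv_sm hg _)) (hg.mul (Dv_sm hf _)), Dv_mul hf (Dv_sm hg _),
    Dv_mul hg (Dv_sm hf _), Gr]
  ring

lemma Gr_sm (hf : ContDiff ℝ ∞ f) (hg : ContDiff ℝ ∞ g) : ContDiff ℝ ∞ (Gr f g) :=
  (((Dv_sm hf _).mul (Dv_sm hg _)).add ((Dv_sm hf _).mul (Dv_sm hg _))).add
    ((Dv_sm hf _).mul (Dv_sm hg _))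

/-- the curvature in terms of the inverse conformal factor -/
def FF (f : E → ℝ) (y : E) : ℝ := f y * (Lap f y + f y) - Gr f f y

/-- the sum of the squares of the second derivatives -/
def SS (f : E → ℝ) (y : E) : ℝ := Gr (Dv (bs 0) f) (Dv (bs 0) f) y +
  Gr (Dv (bs 1) f) (Dv (bs 1) f) y + Gr (Dv (bs 2) f) (Dv (bs 2) f) y

lemma FF_sm (h : ContDiff ℝ ∞ f) : ContDiff ℝ ∞ (FF f) :=
  (h.mul ((LapX.cdLap h).add h)).sub (Gr_sm h h)

lemma bochner (h : ContDiff ℝ ∞ f) (y : E) : Lap (FF f) y =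
    f y * Lap (fun y => Lap f y + f y + f y) y + Lap f y ^ 2 + 2 * Gr f f y - 2 * SS f y := by
  have s := fun i => (Dv_sm h (bs i)).mul (Dv_sm h (bs i))
  have l := LapX.cdLap h
  unfold FF
  rw [lap_sub (h.mul (l.add h)) (Gr_sm h h), lap_mul h (l.add h), lap_add (l.add h) h]
  unfold Gr
  rw [lap_add ((s 0).add (s 1)) (s 2), lap_add (s 0) (s 1)]
  simp only [lap_mul (Dv_sm h _) (Dv_sm h _), lap_Dv h, Dv_add l h, SS]
  ring

lemma Dv_FF (h : ContDiff ℝ ∞ f) (a y : E) : Dv a (FF f) y =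
    f y * Dv a (fun y => Lap f y + f y + f y) y + Lap f y * Dv a f y -
      2 * (Dv (bs 0) f y * Dv a (Dv (bs 0) f) y + Dv (bs 1) f y * Dv a (Dv (bs 1) f) y +
        Dv (bs 2) f y * Dv a (Dv (bs 2) f) y) := by
  have s := fun i => (Dv_sm h (bs i)).mul (Dv_sm h (bs i))
  have l := LapX.cdLap h
  unfold FF
  rw [Dv_sub (h.mul (l.add h)) (Gr_sm h h), Dv_mul h (l.add h), Dv_add (l.add h) h]
  unfold Gr
  simp only [Dv_add ((s 0).add (s 1)) (s 2), Dv_add (s 0) (s 1), Dv_mul (Dv_sm h _) (Dv_sm h _)]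
  ring

lemma Dv_exp (h : ContDiff ℝ ∞ f) (a : E) :
    Dv a (fun y => exp (-f y)) = fun y => exp (-f y) * (0 - Dv a f y) := by
  funext y
  have := (FlowX.d0 h.neg.exp (line y (cr a y))).unique (FlowX.d0 h (line y (cr a y))).fun_neg.exp
  simpa [Dv] using this

lemma Dv_zero (a : E) : Dv a (fun _ => (0 : ℝ)) = fun _ => 0 := by
  funext y
  simp [Dv, D1]

lemma FF_exp (h : ContDiff ℝ ∞ f) (y : E) : FF (fun y => exp (-f y)) y = Kf f y := by
  have e : exp (-(2 * f y)) = exp (-f y) * exp (-f y) := by rw [← exp_add]; congr 1; ring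
  simp only [FF, Kf, Gr, lap_eq h.neg.exp, lap_eq h, Dv_exp h, e,
    Dv_mul h.neg.exp (contDiff_const.sub (Dv_sm h _)), Dv_sub contDiff_const (Dv_sm h _), Dv_zero]
  ring

lemma Dv_const (h : ContDiff ℝ ∞ f) {k : ℝ} (hk : ∀ y, ‖y‖ = 1 → f y = k) (a : E) :
    ∀ y, ‖y‖ = 1 → Dv a f y = 0 := fun y hy => by
  obtain ⟨v, hv⟩ := exists_U_over hy
  obtain ⟨γ, -, h0, hU, hd⟩ := exists_curve hv a
  have h1 := FlowX.d0 h (FlowX.dfst (hd 0))
  simp only [hk _ (hU _).1, h0] at h1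
  exact h1.unique (hasDerivAt_const _ _)

lemma pars {u : P} (hu : u ∈ U) {l m : E → ℝ} (hl : IsLinearMap ℝ l) (hm : IsLinearMap ℝ m) :
    l (bs 0) * m (bs 0) + l (bs 1) * m (bs 1) + l (bs 2) * m (bs 2) =
      l u.1 * m u.1 + l u.2 * m u.2 + l (cr u.1 u.2) * m (cr u.1 u.2) := by
  have r : ∀ {l : E → ℝ}, IsLinearMap ℝ l → ∀ x,
      l x = ⟪(!₂[l (bs 0), l (bs 1), l (bs 2)] : E), x⟫ := fun {l} hl x => by
    have : x = x 0 • bs 0 + x 1 • bs 1 + x 2 • bs 2 :=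
      ext3 (by simp [bs]) (by simp [bs]) (by simp [bs])
    conv_lhs => rw [this, hl.map_add, hl.map_add, hl.map_smul, hl.map_smul, hl.map_smul]
    simp [inner3]
    ring
  rw [r hl u.1, r hl u.2, r hl (cr u.1 u.2), r hm u.1, r hm u.2, r hm (cr u.1 u.2)]
  have := congrArg (fun x => ⟪(!₂[l (bs 0), l (bs 1), l (bs 2)] : E), x⟫)
    (frameU hu !₂[m (bs 0), m (bs 1), m (bs 2)])
  simp only [inner_add_right, real_inner_smul_right] at this
  rw [inner3] at this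
  simp only [Matrix.cons_val_zero, Matrix.cons_val_one, Matrix.cons_val] at this
  linarith

lemma lin0 (f : E → ℝ) (y : E) : IsLinearMap ℝ fun a => Dv a f y :=
  ⟨fun a b => by simp [Dv, D1, cr_add_left], fun t a => by simp [Dv, D1, cr_smul_left]⟩

lemma lin2 (h : ContDiff ℝ ∞ f) (a y : E) : IsLinearMap ℝ fun b => Dv a (Dv b f) y :=
  ⟨fun b c => by simp only [Dv_Dv h, D1, D2, cr_add_left, map_add]; ring,
    fun t b => by simp only [Dv_Dv h, D1, D2, cr_smul_left, map_smul, smul_eq_mul]; ring⟩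

variable {u : P}

lemma vals (h : ContDiff ℝ ∞ f) (hu : u ∈ U) :
    (∀ g : E → ℝ, Dv u.1 g u.1 = 0 ∧ Dv u.2 g u.1 = -D1 g u.1 (cr u.1 u.2) ∧
      Dv (cr u.1 u.2) g u.1 = D1 g u.1 u.2) ∧
    Dv u.2 (Dv u.1 f) u.1 = D1 f u.1 u.2 ∧
    Dv (cr u.1 u.2) (Dv u.1 f) u.1 = D1 f u.1 (cr u.1 u.2) ∧
    Dv u.2 (Dv u.2 f) u.1 = D2 f u.1 (cr u.1 u.2) (cr u.1 u.2) - D1 f u.1 u.1 ∧
    Dv (cr u.1 u.2) (Dv (cr u.1 u.2) f) u.1 = D2 f u.1 u.2 u.2 - D1 f u.1 u.1 ∧
    Dv u.2 (Dv (cr u.1 u.2) f) u.1 = -D2 f u.1 u.2 (cr u.1 u.2) ∧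
    Dv (cr u.1 u.2) (Dv u.2 f) u.1 = -D2 f u.1 u.2 (cr u.1 u.2) := by
  have h1 : cr (cr u.1 u.2) u.1 = u.2 := by rw [cr_anti, cr_cr_U hu, neg_neg]
  have h2 : cr u.2 u.1 = -cr u.1 u.2 := cr_anti _ _
  have h3 : cr u.2 (cr u.1 u.2) = u.1 := by
    rw [cr_cr_right, inner_self_U2 hu, inner_U21 hu]; simp
  have h4 : cr (cr u.1 u.2) u.2 = -u.1 := by rw [cr_anti, h3]
  have h5 := D2_symm h u.1 (cr u.1 u.2) u.2
  simp only [Dv_Dv h, h1, h2, h3, h4, cr_neg_right, cr_cr_U hu, cr_self]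
  simp only [D2] at h5
  simp [Dv, D1, D2, h1, h2, h5, sub_eq_add_neg]

lemma SS_eq (h : ContDiff ℝ ∞ f) (hu : u ∈ U) : 2 * SS f u.1 - 2 * Gr f f u.1 - Lap f u.1 ^ 2 =
    (D2 f u.1 u.2 u.2 - D2 f u.1 (cr u.1 u.2) (cr u.1 u.2)) ^ 2 +
      4 * D2 f u.1 u.2 (cr u.1 u.2) ^ 2 := by
  obtain ⟨v0, v1, v2, v3, v4, v5, v6⟩ := vals h hu
  have p0 := pars hu (lin0 f u.1) (lin0 f u.1)
  have p1 := fun j => pars hu (lin0 (Dv (bs j) f) u.1) (lin0 (Dv (bs j) f) u.1)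
  have p2 := pars hu (lin2 h u.2 u.1) (lin2 h u.2 u.1)
  have p3 := pars hu (lin2 h (cr u.1 u.2) u.1) (lin2 h (cr u.1 u.2) u.1)
  rw [v1, v3, v5] at p2
  rw [v2, v4, v6] at p3
  rw [(v0 f).1, (v0 f).2.1, (v0 f).2.2] at p0
  simp only [fun g => (v0 g).1] at p1
  simp only [SS, Gr, p1, p0, LapX.lap_frame hu]
  linear_combination 2 * p2 + 2 * p3

lemma lap_zero (h : ContDiff ℝ ∞ f) (h0 : ∀ y, ‖y‖ = 1 → 0 ≤ Lap f y) (hy : ‖y‖ = 1) :
    Lap f y = 0 := by
  have c := (LapX.cdLap h).continuous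
  have n1 : ∀ Y : E, Y ≠ 0 → ‖nz Y‖ = 1 := fun Y hY => by simp [nz, norm_smul, hY]
  have a0 : ∀ᵐ Y : E, Y ≠ 0 := by simp [ae_iff]
  have e := (setIntegral_eq_zero_iff_of_nonneg_ae
    (ae_restrict_of_ae (a0.mono fun Y hY => h0 _ (n1 Y hY))) (LapX.int_nz c)).1 (lapS f h).2.2.2
  have := Measure.eqOn_open_of_ae_eq (μ := volume) (U := ball (0 : E) 1 \ {0})
    (ae_restrict_of_ae_restrict_of_subset sdiff_subset e) (isOpen_ball.sdiff isClosed_singleton)
    (c.comp_continuousOn ((continuousOn_id.norm.inv₀ fun Y hY => by simpa using hY.2).smul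
      continuousOn_id)) continuousOn_const
    (show (2⁻¹ : ℝ) • y ∈ ball (0 : E) 1 \ {0} from
      ⟨by simp [norm_smul, hy]; norm_num, fun h => by simp_all⟩)
  simpa [nz, norm_smul, hy, smul_smul] using this

lemma osc {e e' : ℝ → ℝ} (d1 : ∀ t, HasDerivAt e (e' t) t) (d2 : ∀ t, HasDerivAt e' (-e t) t)
    (t : ℝ) : e t = e 0 * cos t + e' 0 * sin t := by
  have k1 : ∀ t, HasDerivAt (fun t => e t * cos t - e' t * sin t) 0 t := fun t =>
    (((d1 t).mul (hasDerivAt_cos t)).sub ((d2 t).mul (hasDerivAt_sin t))).congr_deriv (by ring)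
  have k2 : ∀ t, HasDerivAt (fun t => e t * sin t + e' t * cos t) 0 t := fun t =>
    (((d1 t).mul (hasDerivAt_sin t)).add ((d2 t).mul (hasDerivAt_cos t))).congr_deriv (by ring)
  have a1 := is_const_of_deriv_eq_zero (fun t => (k1 t).differentiableAt)
    (fun t => (k1 t).deriv) t 0
  have a2 := is_const_of_deriv_eq_zero (fun t => (k2 t).differentiableAt)
    (fun t => (k2 t).deriv) t 0
  simp only [cos_zero, sin_zero, mul_one, mul_zero, sub_zero, zero_add] at a1 a2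
  linear_combination cos t * a1 + sin t * a2 - e t * sin_sq_add_cos_sq t

theorem affine (h : ContDiff ℝ ∞ f) (hp : ∀ y, 0 < f y) {k : ℝ}
    (hk : ∀ y, ‖y‖ = 1 → FF f y = k) : ∃ (A : ℝ) (b : E), ∀ y, ‖y‖ = 1 → f y = A + ⟪b, y⟫ := by
  have l := LapX.cdLap h
  set w : E → ℝ := fun y => Lap f y + f y + f y with hw
  have sw : ContDiff ℝ ∞ w := (l.add h).add h
  have d1 := Dv_const (FF_sm h) hk
  have z : ∀ u ∈ U, f u.1 * Lap w u.1 =
      (D2 f u.1 u.2 u.2 - D2 f u.1 (cr u.1 u.2) (cr u.1 u.2)) ^ 2 +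
        4 * D2 f u.1 u.2 (cr u.1 u.2) ^ 2 := fun u hu => by
    have h1 := bochner h u.1
    have d2 := fun a => Dv_const (Dv_sm (FF_sm h) a) (d1 a) a u.1 hu.1
    simp only [lap_eq (FF_sm h), d2] at h1
    rw [← SS_eq h hu]
    linarith
  have z0 : ∀ u ∈ U, D2 f u.1 u.2 u.2 - D1 f u.1 u.1 = Lap f u.1 / 2 ∧
      D2 f u.1 u.2 (cr u.1 u.2) = 0 := fun u hu => by
    have h1 := z u hu
    rw [lap_zero sw (fun y hy => by
      obtain ⟨v, hv⟩ := exists_U_over hy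
      exact nonneg_of_mul_nonneg_right ((z _ hv).symm ▸ by positivity) (hp y)) hu.1] at h1
    have h2 := LapX.lap_frame (σ := f) hu
    have h3 : D2 f u.1 u.2 u.2 - D2 f u.1 (cr u.1 u.2) (cr u.1 u.2) = 0 := by
      nlinarith [sq_nonneg (D2 f u.1 u.2 (cr u.1 u.2))]
    refine ⟨by linarith, ?_⟩
    rw [h3] at h1
    nlinarith
  have z1 : ∀ u ∈ U, D1 w u.1 u.2 = 0 := fun u hu => by
    obtain ⟨v0, v1, v2, v3, v4, v5, v6⟩ := vals h hu
    have h1 := Dv_FF h (cr u.1 u.2) u.1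
    have p := pars hu (lin0 f u.1) (lin2 h (cr u.1 u.2) u.1)
    rw [d1 _ _ hu.1, p, v4, v6, (v0 f).1, (v0 f).2.2, (v0 _).2.2, (z0 u hu).1, (z0 u hu).2] at h1
    exact (mul_eq_zero.1 (by linarith)).resolve_left (hp u.1).ne'
  have circ : ∀ u ∈ U, ∀ t, f (cos t • u.1 + sin t • u.2) =
      w u.1 / 2 + (f u.1 - w u.1 / 2) * cos t + D1 f u.1 u.2 * sin t := fun u hu t => by
    have c1 : ∀ t : ℝ, HasDerivAt (fun t : ℝ => cos t • u.1 + sin t • u.2)
        ((-sin t) • u.1 + cos t • u.2) t := fun t =>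
      ((hasDerivAt_cos t).smul_const _).add ((hasDerivAt_sin t).smul_const _)
    have c2 : ∀ t : ℝ, HasDerivAt (fun t : ℝ => (-sin t) • u.1 + cos t • u.2)
        (-(cos t • u.1 + sin t • u.2)) t := fun t =>
      (((hasDerivAt_sin t).neg.smul_const _).add
        ((hasDerivAt_cos t).smul_const _)).congr_deriv (by module)
    have m : ∀ t : ℝ, (cos t • u.1 + sin t • u.2, (-sin t) • u.1 + cos t • u.2) ∈ U := fun t => by
      refine ⟨?_, ?_, ?_⟩
      · rw [← sq_eq_sq₀ (norm_nonneg _) zero_le_one, ← real_inner_self_eq_norm_sq]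
        simp only [inner_add_left, inner_add_right, real_inner_smul_left, real_inner_smul_right,
          inner_self_U1 hu, inner_self_U2 hu, hu.2.2, inner_U21 hu]
        linear_combination sin_sq_add_cos_sq t
      · rw [← sq_eq_sq₀ (norm_nonneg _) zero_le_one, ← real_inner_self_eq_norm_sq]
        simp only [inner_add_left, inner_add_right, real_inner_smul_left, real_inner_smul_right,
          inner_self_U1 hu, inner_self_U2 hu, hu.2.2, inner_U21 hu]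
        linear_combination sin_sq_add_cos_sq t
      · simp only [inner_add_left, inner_add_right, real_inner_smul_left, real_inner_smul_right,
          inner_self_U1 hu, inner_self_U2 hu, hu.2.2, inner_U21 hu]
        ring
    have k : ∀ t, HasDerivAt (fun t : ℝ => w (cos t • u.1 + sin t • u.2)) 0 t := fun t =>
      (FlowX.d0 sw (c1 t)).congr_deriv (z1 _ (m t))
    have wc : ∀ t, w (cos t • u.1 + sin t • u.2) = w u.1 := fun t => by
      simpa using is_const_of_deriv_eq_zero (fun t => (k t).differentiableAt)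
        (fun t => (k t).deriv) t 0
    have := osc (e := fun t => f (cos t • u.1 + sin t • u.2) - w u.1 / 2)
      (fun t => (FlowX.d0 h (c1 t)).sub_const _) (fun t => (FlowX.d1 h (c1 t) (c2 t)).congr_deriv (by
        have h1 := (z0 _ (m t)).1
        have h2 := wc t
        simp only [hw] at h2
        simp only [D1, map_neg] at h1 ⊢
        simp only [hw]
        linarith)) t
    simp only [cos_zero, sin_zero, one_smul, zero_smul, add_zero, neg_zero, zero_add] at this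
    linarith
  obtain ⟨v, hv⟩ := exists_U_over (y := bs 0) (by simp [bs])
  set u : P := (bs 0, v) with hu
  refine ⟨w u.1 / 2, (f u.1 - w u.1 / 2) • u.1 + D1 f u.1 u.2 • u.2 +
    D1 f u.1 (cr u.1 u.2) • cr u.1 u.2, fun y hy => ?_⟩
  have p := pars hv (innerₗ E y).isLinear (innerₗ E y).isLinear
  have n := normsq3 y
  simp only [innerₗ_apply_apply, real_inner_comm _ y, LapX.inner_bs] at p
  set ζ : ℂ := ⟨⟪u.2, y⟫, ⟪cr u.1 u.2, y⟫⟩ with hζ
  have r : ‖ζ‖ ^ 2 = 1 - ⟪u.1, y⟫ ^ 2 := by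
    rw [Complex.sq_norm, Complex.normSq_mk]
    rw [hy] at n
    linarith
  have hc : cos (arccos ⟪u.1, y⟫) = ⟪u.1, y⟫ :=
    cos_arccos (by nlinarith [sq_nonneg ‖ζ‖]) (by nlinarith [sq_nonneg ‖ζ‖])
  have hs : sin (arccos ⟪u.1, y⟫) = ‖ζ‖ := by rw [sin_arccos, ← r, sqrt_sq (norm_nonneg _)]
  have e1 : ‖ζ‖ * cos ζ.arg = ⟪u.2, y⟫ := Complex.norm_mul_cos_arg ζ
  have e2 : ‖ζ‖ * sin ζ.arg = ⟪cr u.1 u.2, y⟫ := Complex.norm_mul_sin_arg ζ
  have := circ _ (rho_mem_U hv ζ.arg) (arccos ⟪u.1, y⟫)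
  simp only [rho, hc, hs, smul_add, smul_smul, e1, e2, D1, map_add, map_smul, smul_eq_mul] at this
  rw [← add_assoc, ← real_inner_comm u.1, ← real_inner_comm u.2, ← real_inner_comm (cr u.1 u.2),
    ← frameU hv y] at this
  simp only [this, inner_add_left, real_inner_smul_left, D1, ← e1, ← e2, real_inner_comm _ y]
  ring

end RoundX

open RoundX in
theorem round_of_const {σ : E → ℝ} (h : ContDiff ℝ ∞ σ) {k : ℝ}
    (hk : ∀ y v w : E, Orthonormal ℝ ![y, v, w] → curv σ y v w = k) :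
    ∃ (A : ℝ) (b : E), ‖b‖ < A ∧ ∀ y, ‖y‖ = 1 → exp (-σ y) = A + ⟪b, y⟫ := by
  obtain ⟨A, b, hA⟩ := affine (f := fun y => exp (-σ y)) h.neg.exp (fun _ => exp_pos _) (k := k)
    fun y hy => by
      obtain ⟨v, hv⟩ := exists_U_over hy
      have o : Orthonormal ℝ ![y, v, cr y v] := by
        have h1 := hv.2.2
        have h2 := inner_U21 hv
        have h3 := norm_cr_U hv
        have h4 := hv.2.1
        simp only at h1 h2 h3 h4
        refine ⟨fun i => ?_, fun i j hij => ?_⟩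
        · fin_cases i <;> simp [hy, h3, h4]
        · fin_cases i <;> fin_cases j <;> simp_all
      rw [FF_exp h, ← hk _ _ _ o, curv, (lapS σ h).2.2.1 _ _ _ o, Kf]
  refine ⟨A, b, ?_, hA⟩
  by_cases hb : b = 0
  · have := hA (bs 0) (by simp [bs])
    have := exp_pos (-σ (bs 0))
    simp_all
  · have h1 := hA (-(‖b‖⁻¹ • b)) (by simp [norm_smul, hb])
    have h2 := exp_pos (-σ (-(‖b‖⁻¹ • b)))
    rw [h1, inner_neg_right, real_inner_smul_right, real_inner_self_eq_norm_sq, sq,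
      inv_mul_cancel_left₀ (by simpa using hb)] at h2
    linarith

end Pool.Agent.MP_2291e2_gt.Ab

end
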