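import Mathlib.Analysis.Normed.Module.Connected
import Pool.Agent.MP_2291e2_gt.ab.Spec

/-! The two sides of a tube and nearby curves in the chart. -/

open scoped ContDiff RealInnerProductSpace Topology ENNReal
open Metric Set Filter Real
open Pool.Agent.MP_2291e2_gt.Zl

noncomputable section

namespace Pool.Agent.MP_2291e2_gt.Ab

namespace SidX

lemma loc {M : Set E} (hM : IsClosed M) {q : E} (hq : q ∈ sphere (0 : E) 1 \ M) :
    ∀ᶠ y in 𝓝[sphere (0 : E) 1] q, y ∈ connectedComponentIn (sphere (0 : E) 1 \ M) q := by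
  have q1 : ‖q‖ = 1 := by simpa using hq.1
  have n0 : ∀ y : E, ‖y‖ = 1 → nz y = y := fun y hy => by simp [nz, hy]
  have cz : ∀ y : E, y ≠ 0 → ContinuousAt nz y := fun y hy =>
    (continuousAt_id.norm.inv₀ (by simpa using hy)).smul continuousAt_id
  have q0 : q ≠ 0 := fun h => by simp [h] at q1
  have e1 : ∀ᶠ y in 𝓝 q, y ≠ 0 ∧ nz y ∈ Mᶜ := (isOpen_ne.eventually_mem q0).and
    ((cz q q0).eventually_mem (hM.isOpen_compl.mem_nhds (by rw [n0 q q1]; exact hq.2)))
  obtain ⟨r, hr, h⟩ := Metric.eventually_nhds_iff_ball.1 e1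
  have := ((convex_ball q r).isPreconnected.image nz fun y hy =>
    (cz y (h y hy).1).continuousWithinAt).subset_connectedComponentIn
    (F := sphere (0 : E) 1 \ M) ⟨q, mem_ball_self hr, n0 q q1⟩ (by
      rintro _ ⟨y, hy, rfl⟩
      exact ⟨by simp [nz, norm_smul, (h y hy).1], (h y hy).2⟩)
  filter_upwards [self_mem_nhdsWithin, mem_nhdsWithin_of_mem_nhds (ball_mem_nhds q hr)] with y h1 h2
  exact this ⟨y, h2, n0 y (by simpa using h1)⟩

theorem sideS : SideS := by
  rintro C T d hC ⟨hd, himm, hinj⟩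
  set M := C '' (univ ×ˢ Icc (-(d / 2)) (d / 2)) with hM
  have cC := hC.smooth.continuous
  have cM : IsClosed M := by
    have : M = C '' (Icc 0 T ×ˢ Icc (-(d / 2)) (d / 2)) := by
      refine Subset.antisymm ?_ (image_mono (prod_mono (subset_univ _) Subset.rfl))
      rintro _ ⟨a, ha, rfl⟩
      obtain ⟨k, x, hx, e⟩ := FermiAux.reduce hC.Tpos a
      exact ⟨(x, a.2), ⟨hx, ha.2⟩, by rw [← hC.per k, ← e]⟩
    exact this ▸ ((isCompact_Icc.prod isCompact_Icc).image cC).isClosed
  have out : ∀ a : ℝ × ℝ, |a.2| < d → d / 2 < |a.2| → C a ∈ sphere (0 : E) 1 \ M :=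
    fun a h1 h2 => ⟨by simpa using hC.unit a, fun ⟨a', ha, e⟩ => by
      have h3 := abs_le.2 ha.2
      obtain ⟨k, hk⟩ := hinj a' a (by linarith) h1 e
      rw [hk] at h2
      simp only [Prod.snd_add, add_zero] at h2
      linarith⟩
  have sp : C '' (univ ×ˢ Ioo (d / 2) d) ⊆
      connectedComponentIn (sphere (0 : E) 1 \ M) (C (0, 3 * d / 4)) :=
    ((isPreconnected_univ.prod isPreconnected_Ioo).image C
      cC.continuousOn).subset_connectedComponentIn
      ⟨_, ⟨trivial, by constructor <;> simp only <;> linarith⟩, rfl⟩ (by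
        rintro _ ⟨a, ⟨-, h1, h2⟩, rfl⟩
        exact out a (abs_lt.2 ⟨by linarith, h2⟩) (h1.trans_le (le_abs_self _)))
  have sm : C '' (univ ×ˢ Ioo (-d) (-(d / 2))) ⊆
      connectedComponentIn (sphere (0 : E) 1 \ M) (C (0, -(3 * d / 4))) :=
    ((isPreconnected_univ.prod isPreconnected_Ioo).image C
      cC.continuousOn).subset_connectedComponentIn
      ⟨_, ⟨trivial, by constructor <;> simp only <;> linarith⟩, rfl⟩ (by
        rintro _ ⟨a, ⟨-, h1, h2⟩, rfl⟩
        exact out a (abs_lt.2 ⟨h1, by linarith⟩) (by linarith [neg_le_abs a.2]))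
  refine ⟨_, _, isPreconnected_connectedComponentIn, isPreconnected_connectedComponentIn,
    Subset.antisymm (union_subset (connectedComponentIn_subset _ _)
      (connectedComponentIn_subset _ _)) fun z hz => ?_, sp, sm⟩
  by_contra hn
  have key := (isPreconnected_sphere (E := E) (by rw [← Module.finrank_eq_rank]; simp) 0
    1).induction₂' (fun x y => x ∈ connectedComponentIn (sphere (0 : E) 1 \ M) z ↔
      y ∈ connectedComponentIn (sphere (0 : E) 1 \ M) z) (fun x hx => ?_)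
    (fun _ _ _ _ _ _ h1 h2 => h1.trans h2) hz.1 (show C (0, 0) ∈ _ by simpa using hC.unit _)
  · exact (connectedComponentIn_subset _ _ (key.1 (mem_connectedComponentIn hz))).2
      ⟨_, ⟨trivial, by constructor <;> simp only <;> linarith⟩, rfl⟩
  by_cases hm : x ∈ M
  · obtain ⟨a, ha, rfl⟩ := id hm
    have h3 : |a.2| < d := by linarith [abs_le.2 ha.2]
    obtain ⟨g, g1, g2, -, g3⟩ := locinv_of.2.2 C a hC.smooth.contDiffAt
      (Eventually.of_forall hC.unit) (himm a h3)
    have g5 : ∀ᶠ y in 𝓝 (C a), |(g y).2| < d := g1.continuousAt.snd.abs.eventually_lt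
      continuousAt_const (by simpa [g2.self_of_nhds] using h3)
    filter_upwards [self_mem_nhdsWithin, mem_nhdsWithin_of_mem_nhds g3,
      mem_nhdsWithin_of_mem_nhds g5] with y h1 h2 h4
    have e := h2 (by simpa using h1)
    have n1 : C a ∉ connectedComponentIn (sphere (0 : E) 1 \ M) z := fun h =>
      (connectedComponentIn_subset _ _ h).2 hm
    have n2 : y ∉ connectedComponentIn (sphere (0 : E) 1 \ M) z := fun h => by
      have h5 := (connectedComponentIn_subset _ _ h).2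
      have h6 := mem_connectedComponentIn hz
      rw [connectedComponentIn_eq h] at h6
      rcases lt_or_ge (d / 2) (g y).2 with h7 | h7
      · exact hn (Or.inl (connectedComponentIn_eq
          (sp ⟨_, ⟨trivial, h7, (abs_lt.1 h4).2⟩, e⟩) ▸ h6))
      rcases lt_or_ge (g y).2 (-(d / 2)) with h8 | h8
      · exact hn (Or.inr (connectedComponentIn_eq
          (sm ⟨_, ⟨trivial, (abs_lt.1 h4).1, h8⟩, e⟩) ▸ h6))
      · exact h5 ⟨_, ⟨trivial, h8, h7⟩, e⟩
    simp [n1, n2]
  · filter_upwards [loc cM ⟨hx, hm⟩] with y hy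
    have : x ∈ connectedComponentIn (sphere (0 : E) 1 \ M) z ↔
        y ∈ connectedComponentIn (sphere (0 : E) 1 \ M) z :=
      ⟨fun h => connectedComponentIn_eq h ▸ hy, fun h => by
        rw [connectedComponentIn_eq h, ← connectedComponentIn_eq hy]
        exact mem_connectedComponentIn ⟨hx, hm⟩⟩
    exact ⟨this, this.symm⟩

theorem nearS : NearS := by
  intro C c j T hC hF ε hε
  have := (isCompact_Icc (a := (0 : ℝ)) (b := T)).eventually_forall_of_forall_eventually
    (x₀ := (0 : ℝ)) (P := fun s t => ∃ a : ℝ × ℝ, c (s, t) = C a ∧ |a.2 - s * j a.1| ≤ ε * |s|)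
    fun t₀ _ => ?_
  · filter_upwards [this] with s hs t
    have p : Function.Periodic (fun t => c (s, t)) T := hF.per s
    obtain ⟨t', ht', e⟩ := p.exists_mem_Ico₀ hC.Tpos t
    exact e ▸ hs t' (Ico_subset_Icc_self ht')
  obtain ⟨g, g1, g2, -, g3⟩ := locinv_of.2.2 C (t₀, 0) hC.smooth.contDiffAt
    (Eventually.of_forall hC.unit) (hC.imm t₀)
  have g0 : g (c (0, t₀)) = (t₀, 0) := by rw [hF.zero]; exact g2.self_of_nhds
  rw [← hF.zero] at g1 g3
  have h1 : ContDiffAt ℝ ∞ (fun z => g (c z)) (0, t₀) := g1.comp _ hF.sm.contDiffAt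
  have h2 : ∀ᶠ z in 𝓝 ((0 : ℝ), t₀), C (g (c z)) = c z :=
    (hF.sm.continuous.continuousAt.eventually g3).mono fun z hz => hz (hF.unit z)
  have hs := h1.hasStrictFDerivAt (by simp)
  set L := fderiv ℝ (fun z => g (c z)) (0, t₀) with hL
  obtain ⟨α, hα⟩ := hF.var t₀
  have h3 : L (1, 0) = (α, j t₀) := by
    have d := (hC.smooth.differentiable (by simp) (g (c (0, t₀)))).hasFDerivAt.comp
      ((0 : ℝ), t₀) (f := fun z => g (c z)) hs.hasFDerivAt
    have e := congrArg (fun A => A (1, 0)) ((d.congr_of_eventuallyEq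
      (h2.mono fun z hz => hz.symm)).unique (hF.sm.differentiable (by simp) _).hasFDerivAt)
    simp only [ContinuousLinearMap.comp_apply, g0, hα, ← map_smul, ← map_add] at e
    have := hC.imm t₀ _ ((map_sub _ _ _).trans (sub_eq_zero.2 e))
    simpa using sub_eq_zero.1 this
  have t1 : Tendsto (fun z : ℝ × ℝ => (z, ((0 : ℝ), z.2))) (𝓝 (0, t₀)) (𝓝 ((0, t₀), (0, t₀))) :=
    Continuous.tendsto' (by fun_prop) _ _ rfl
  have t2 : Tendsto (fun z : ℝ × ℝ => (z.2, (0 : ℝ))) (𝓝 (0, t₀)) (𝓝 (t₀, 0)) :=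
    Continuous.tendsto' (by fun_prop) _ _ rfl
  have h4 : ∀ᶠ z in 𝓝 ((0 : ℝ), t₀), |j (g (c z)).1 - j t₀| < ε / 2 :=
    ((hF.jc.continuousAt.comp h1.continuousAt.fst).sub
      continuousAt_const).abs.eventually_lt continuousAt_const (by simpa [g0] using hε)
  filter_upwards [h2, h4, t2.eventually g2, t1.eventually (hs.isLittleO.def (half_pos hε))]
    with z e1 e2 e3 e4
  refine ⟨_, e1.symm, ?_⟩
  have e5 : z - (0, z.2) = z.1 • ((1 : ℝ), (0 : ℝ)) := by ext <;> simp
  simp only [hF.zero, e3, e5, map_smul, h3] at e4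
  have e6 := (norm_snd_le _).trans e4
  simp only [Prod.snd_sub, sub_zero, Prod.smul_mk, smul_eq_mul, mul_one, mul_zero, Prod.norm_mk,
    norm_eq_abs, abs_zero, max_eq_left (abs_nonneg z.1)] at e6
  have e7 : |z.1 * (j (g (c z)).1 - j t₀)| ≤ |z.1| * (ε / 2) := by
    rw [abs_mul]
    exact mul_le_mul_of_nonneg_left e2.le (abs_nonneg _)
  rw [abs_le] at e6 e7 ⊢
  constructor <;> nlinarith [e6.1, e6.2, e7.1, e7.2]

end SidX

end Pool.Agent.MP_2291e2_gt.Ab

end
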