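import Pool.Agent.MP_2291e2_gt.ab.Asm
import Pool.Agent.MP_2291e2_gt.ab.Round
import Pool.Agent.MP_2291e2_gt.ab.Idx
import Pool.Agent.MP_2291e2_gt.ab.Area
import Pool.Agent.MP_2291e2_gt.ab.Sid
import Pool.Agent.MP_2291e2_gt.ab.Bis
import Pool.Agent.MP_2291e2_gt.ab.JDet
import Pool.Agent.MP_2291e2_gt.ab.Chg

/-! All rows put together. -/

namespace Pool.Agent.MP_2291e2_gt.Ab

theorem mainS : MainS :=
  mainS_of flowS lapS (jacS lapS) (oneS idxS) (bisS areaS SidX.sideS SidX.nearS)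
    (chgS (jdetS (jacS lapS)))

end Pool.Agent.MP_2291e2_gt.Ab
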